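import Mathlib

/-!
Basic facts on lifts of orientation preserving C^1 circle diffeomorphisms.
-/

namespace Pool.Agent.Y329.DL

open Real Set Filter Topology

/-- `dd x y = 0` iff `x` and `y` are equal modulo `1`. -/
noncomputable def dd (x y : ℝ) : ℝ := |Real.sin (π * (x - y))|

lemma dd_nonneg (x y : ℝ) : 0 ≤ dd x y := abs_nonneg _

lemma dd_comm (x y : ℝ) : dd x y = dd y x := by
  unfold dd
  rw [← abs_neg, ← Real.sin_neg]
  congr 2
  ring

lemma dd_self (x : ℝ) : dd x x = 0 := by simp [dd]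

lemma dd_eq_zero_iff {x y : ℝ} : dd x y = 0 ↔ ∃ m : ℤ, x = y + m := by
  unfold dd
  rw [abs_eq_zero, Real.sin_eq_zero_iff]
  constructor
  · rintro ⟨n, hn⟩
    refine ⟨n, ?_⟩
    have hp : (π : ℝ) ≠ 0 := Real.pi_ne_zero
    have : π * (x - y - n) = 0 := by linarith
    rcases mul_eq_zero.mp this with h | h
    · exact absurd h hp
    · linarith
  · rintro ⟨m, hm⟩
    refine ⟨m, ?_⟩
    rw [hm]; ring

lemma dd_tri (x y z : ℝ) : dd x z ≤ dd x y + dd y z := by
  unfold dd
  have h : π * (x - z) = π * (x - y) + π * (y - z) := by ring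
  rw [h, Real.sin_add]
  have h1 := Real.abs_cos_le_one (π * (y - z))
  have h2 := Real.abs_cos_le_one (π * (x - y))
  calc |sin (π * (x - y)) * cos (π * (y - z)) + cos (π * (x - y)) * sin (π * (y - z))|
      ≤ |sin (π * (x - y)) * cos (π * (y - z))| + |cos (π * (x - y)) * sin (π * (y - z))| :=
        abs_add_le _ _
    _ = |sin (π * (x - y))| * |cos (π * (y - z))| + |cos (π * (x - y))| * |sin (π * (y - z))| := by
        rw [abs_mul, abs_mul]
    _ ≤ |sin (π * (x - y))| * 1 + 1 * |sin (π * (y - z))| := by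
        gcongr
    _ = _ := by ring

lemma dd_eq_zero_symm {x y : ℝ} (h : dd x y = 0) : dd y x = 0 := by rwa [dd_comm]

lemma dd_eq_zero_trans {x y z : ℝ} (h : dd x y = 0) (h' : dd y z = 0) : dd x z = 0 := by
  have := dd_tri x y z
  have := dd_nonneg x z
  linarith

lemma dd_continuous : Continuous fun p : ℝ × ℝ => dd p.1 p.2 := by
  unfold dd
  fun_prop

lemma dd_zero_right (x : ℝ) : dd x 0 = |sin (π * x)| := by simp [dd]

lemma abs_sin_eq_of_dd {x y : ℝ} (h : dd x y = 0) : |sin (π * x)| = |sin (π * y)| := by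
  rw [← dd_zero_right, ← dd_zero_right]
  have h1 := dd_tri x y 0
  have h2 := dd_tri y x 0
  rw [dd_comm y x] at h2
  linarith

/-- lifts of orientation preserving `C^1` diffeomorphisms of the circle -/
structure IsD1 (σ : Equiv.Perm ℝ) : Prop where
  cd : ContDiff ℝ 1 σ
  dpos : ∀ x, 0 < deriv σ x
  per : ∀ x, σ (x + 1) = σ x + 1

namespace IsD1

variable {σ τ : Equiv.Perm ℝ}

lemma differentiable (h : IsD1 σ) : Differentiable ℝ σ := h.cd.differentiable (by norm_num)

lemma hasDerivAt (h : IsD1 σ) (x : ℝ) : HasDerivAt σ (deriv σ x) x :=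
  (h.differentiable x).hasDerivAt

lemma continuous (h : IsD1 σ) : Continuous σ := h.cd.continuous

lemma continuous_deriv (h : IsD1 σ) : Continuous (deriv σ) :=
  h.cd.continuous_deriv (by norm_num)

lemma strictMono (h : IsD1 σ) : StrictMono σ := strictMono_of_deriv_pos h.dpos

lemma per_nat (h : IsD1 σ) (x : ℝ) (n : ℕ) : σ (x + n) = σ x + n := by
  induction n with
  | zero => simp
  | succ n ih =>
    push_cast
    rw [← add_assoc, h.per, ih]; ring

lemma per_int (h : IsD1 σ) (x : ℝ) (n : ℤ) : σ (x + n) = σ x + n := by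
  rcases n.eq_nat_or_neg with ⟨m, rfl | rfl⟩
  · exact_mod_cast h.per_nat x m
  · have := h.per_nat (x + ((-(m : ℤ) : ℤ) : ℝ)) m
    push_cast at this ⊢
    rw [neg_add_cancel_right] at this
    linarith

lemma deriv_per_int (h : IsD1 σ) (x : ℝ) (n : ℤ) : deriv σ (x + n) = deriv σ x := by
  have h1 : HasDerivAt (fun y : ℝ => σ (y + n)) (deriv σ (x + n)) x := by
    have := (h.hasDerivAt (x + n)).comp_add_const x (n : ℝ)
    simpa using this
  have h2 : (fun y : ℝ => σ (y + n)) = fun y => σ y + n := by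
    funext y; exact h.per_int y n
  rw [h2] at h1
  have h3 : HasDerivAt (fun y : ℝ => σ y + n) (deriv σ x) x := (h.hasDerivAt x).add_const _
  exact h1.unique h3

lemma deriv_periodic (h : IsD1 σ) : Function.Periodic (deriv σ) 1 := by
  intro x
  have := h.deriv_per_int x 1
  simpa using this

lemma dd_map (h : IsD1 σ) {x y : ℝ} : dd (σ x) (σ y) = 0 ↔ dd x y = 0 := by
  rw [dd_eq_zero_iff, dd_eq_zero_iff]
  constructor
  · rintro ⟨m, hm⟩
    refine ⟨m, ?_⟩
    rw [← h.per_int] at hm
    exact σ.injective hm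
  · rintro ⟨m, hm⟩
    exact ⟨m, by rw [hm, h.per_int]⟩

lemma hasDerivAt_symm (h : IsD1 σ) (x : ℝ) :
    HasDerivAt σ.symm (deriv σ (σ.symm x))⁻¹ x := by
  have hc : Continuous σ.symm := by
    have hs : StrictMono σ.symm := by
      intro a b hab
      have := h.strictMono.lt_iff_lt (a := σ.symm a) (b := σ.symm b)
      simp at this
      exact this.1 hab
    exact hs.monotone.continuous_of_surjective σ.symm.surjective
  refine HasDerivAt.of_local_left_inverse (f := σ) hc.continuousAt (h.hasDerivAt _)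
    (h.dpos _).ne' ?_
  exact Filter.Eventually.of_forall fun y => σ.apply_symm_apply y

lemma symm (h : IsD1 σ) : IsD1 σ.symm := by
  have hd : ∀ x, deriv σ.symm x = (deriv σ (σ.symm x))⁻¹ := fun x => (h.hasDerivAt_symm x).deriv
  have hdiff : Differentiable ℝ σ.symm := fun x => (h.hasDerivAt_symm x).differentiableAt
  refine ⟨?_, ?_, ?_⟩
  · rw [contDiff_one_iff_deriv]
    refine ⟨hdiff, ?_⟩
    have : deriv σ.symm = fun x => (deriv σ (σ.symm x))⁻¹ := funext hd
    rw [this]
    refine Continuous.inv₀ (h.continuous_deriv.comp hdiff.continuous) ?_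
    intro x
    exact (h.dpos _).ne'
  · intro x
    rw [hd]
    exact inv_pos.mpr (h.dpos _)
  · intro x
    apply σ.injective
    rw [h.per]
    simp

lemma inv (h : IsD1 σ) : IsD1 σ⁻¹ := h.symm

lemma mul (h : IsD1 σ) (h' : IsD1 τ) : IsD1 (σ * τ) := by
  refine ⟨?_, ?_, ?_⟩
  · rw [Equiv.Perm.coe_mul]
    exact h.cd.comp h'.cd
  · intro x
    rw [Equiv.Perm.coe_mul, ((h.hasDerivAt (τ x)).comp x (h'.hasDerivAt x)).deriv]
    exact mul_pos (h.dpos _) (h'.dpos _)
  · intro x
    simp only [Equiv.Perm.coe_mul, Function.comp_apply]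
    rw [h'.per, h.per]

lemma deriv_mul (h : IsD1 σ) (h' : IsD1 τ) (x : ℝ) :
    deriv (σ * τ : Equiv.Perm ℝ) x = deriv σ (τ x) * deriv τ x := by
  rw [Equiv.Perm.coe_mul, ((h.hasDerivAt (τ x)).comp x (h'.hasDerivAt x)).deriv]

lemma one : IsD1 (1 : Equiv.Perm ℝ) := by
  refine ⟨?_, ?_, ?_⟩
  · rw [Equiv.Perm.coe_one]; exact contDiff_id
  · intro x; rw [Equiv.Perm.coe_one]; simp
  · intro x; simp

end IsD1

/-- building lifts from functions -/
lemma exists_perm {f f' : ℝ → ℝ} (hd : ∀ x, HasDerivAt f (f' x) x) (hc : Continuous f')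
    (hpos : ∀ x, 0 < f' x) (hper : ∀ x, f (x + 1) = f x + 1) :
    ∃ σ : Equiv.Perm ℝ, (∀ x, σ x = f x) ∧ IsD1 σ ∧ ∀ x, deriv σ x = f' x := by
  have hdiff : Differentiable ℝ f := fun x => (hd x).differentiableAt
  have hcont : Continuous f := hdiff.continuous
  have hmono : StrictMono f := strictMono_of_deriv_pos fun x => by rw [(hd x).deriv]; exact hpos x
  have hnat : ∀ (n : ℕ) x, f (x + n) = f x + n := by
    intro n
    induction n with
    | zero => simp
    | succ n ih =>
      intro x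
      push_cast
      rw [← add_assoc, hper, ih]; ring
  have hsurj : Function.Surjective f := by
    intro y
    obtain ⟨n, hn⟩ := exists_nat_ge |y - f 0|
    have h1 : f (-(n : ℝ)) ≤ y := by
      have := hnat n (-(n : ℝ))
      rw [neg_add_cancel] at this
      have := neg_abs_le (y - f 0)
      linarith
    have h2 : y ≤ f n := by
      have := hnat n 0
      rw [zero_add] at this
      have := le_abs_self (y - f 0)
      linarith
    exact mem_range_of_exists_le_of_exists_ge hcont ⟨_, h1⟩ ⟨_, h2⟩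
  refine ⟨Equiv.ofBijective f ⟨hmono.injective, hsurj⟩, fun x => rfl, ?_, fun x => ?_⟩
  · refine ⟨?_, ?_, hper⟩
    · rw [contDiff_one_iff_deriv]
      refine ⟨hdiff, ?_⟩
      have : deriv f = f' := funext fun x => (hd x).deriv
      show Continuous (deriv f)
      rw [this]; exact hc
    · intro x
      show 0 < deriv f x
      rw [(hd x).deriv]; exact hpos x
  · exact (hd x).deriv

/-- uniform continuity of the derivative -/
lemma IsD1.unif_deriv {σ : Equiv.Perm ℝ} (h : IsD1 σ) {ε : ℝ} (hε : 0 < ε) :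
    ∃ δ > 0, ∀ x y, |x - y| ≤ δ → |deriv σ x - deriv σ y| ≤ ε := by
  have hcomp : IsCompact (Icc (-1 : ℝ) 2) := isCompact_Icc
  have huc := hcomp.uniformContinuousOn_of_continuous (h.continuous_deriv.continuousOn)
  rw [Metric.uniformContinuousOn_iff] at huc
  obtain ⟨δ, hδ, H⟩ := huc ε hε
  refine ⟨min (δ / 2) (1 / 2), by positivity, ?_⟩
  intro x y hxy
  have hx1 : |x - y| ≤ δ / 2 := le_trans hxy (min_le_left _ _)
  have hx2 : |x - y| ≤ 1 / 2 := le_trans hxy (min_le_right _ _)
  have e1 : deriv σ x = deriv σ (x - ⌊x⌋) := by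
    have := h.deriv_per_int (x - ⌊x⌋) ⌊x⌋
    rw [sub_add_cancel] at this
    exact this
  have e2 : deriv σ y = deriv σ (y - ⌊x⌋) := by
    have := h.deriv_per_int (y - ⌊x⌋) ⌊x⌋
    rw [sub_add_cancel] at this
    exact this
  have f1 : (⌊x⌋ : ℝ) ≤ x := Int.floor_le x
  have f2 : x < ⌊x⌋ + 1 := Int.lt_floor_add_one x
  rw [abs_le] at hx2
  have := H (x - ⌊x⌋) ⟨by linarith, by linarith⟩ (y - ⌊x⌋) ⟨by linarith [hx2.1, hx2.2], by linarith [hx2.1, hx2.2]⟩ (by
    rw [Real.dist_eq]
    have : x - ↑⌊x⌋ - (y - ↑⌊x⌋) = x - y := by ring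
    rw [this]; linarith)
  rw [e1, e2]
  rw [Real.dist_eq] at this
  exact this.le

end Pool.Agent.Y329.DL
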