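import Pool.Agent.Y329.DL.Basic

/-!
Local bumps: circle diffeomorphisms close to the identity with prescribed derivatives at
finitely many fixed points and tangent to the identity at finitely many others.
-/

namespace Pool.Agent.Y329.DL

open Real Set Filter Topology

lemma hasDerivAt_sqmax (t : ℝ) : HasDerivAt (fun t : ℝ => (max t 0) ^ 2) (2 * max t 0) t := by
  rcases lt_trichotomy t 0 with h | h | h
  · have : (fun t : ℝ => (max t 0) ^ 2) =ᶠ[𝓝 t] fun _ => 0 := by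
      filter_upwards [Iio_mem_nhds h] with s hs
      rw [max_eq_right (le_of_lt hs)]; simp
    rw [max_eq_right h.le, mul_zero]
    exact (hasDerivAt_const t (0 : ℝ)).congr_of_eventuallyEq this
  · subst h
    rw [max_self, mul_zero]
    rw [hasDerivAt_iff_isLittleO_nhds_zero]
    simp only [zero_add, max_self, ne_eq, OfNat.ofNat_ne_zero, not_false_eq_true, zero_pow,
      sub_zero, smul_zero]
    have h1 : (fun h : ℝ => (max h 0) ^ 2) =O[𝓝 0] fun h => h ^ 2 := by
      refine Asymptotics.IsBigO.of_bound 1 (Filter.Eventually.of_forall fun h => ?_)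
      rw [one_mul, norm_pow, norm_pow]
      refine pow_le_pow_left₀ (norm_nonneg _) ?_ 2
      rw [Real.norm_eq_abs, Real.norm_eq_abs]
      rcases le_total h 0 with h0 | h0
      · rw [max_eq_right h0]; simp
      · rw [max_eq_left h0]
    exact h1.trans_isLittleO (Asymptotics.isLittleO_pow_id (by norm_num : 1 < 2))
  · have : (fun t : ℝ => (max t 0) ^ 2) =ᶠ[𝓝 t] fun t => t ^ 2 := by
      filter_upwards [Ioi_mem_nhds h] with s hs
      rw [max_eq_left (le_of_lt hs)]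
    rw [max_eq_left h.le]
    have h2 : HasDerivAt (fun t : ℝ => t ^ 2) (2 * t) t := by
      simpa using hasDerivAt_pow 2 t
    exact h2.congr_of_eventuallyEq this

/-- cut-off profile -/
noncomputable def qq (ρ z x : ℝ) : ℝ := max (1 - sin (π * (x - z)) ^ 2 / ρ ^ 2) 0

/-- the bump -/
noncomputable def kap (ρ z x : ℝ) : ℝ := 1 / (2 * π) * sin (2 * (π * (x - z))) * qq ρ z x ^ 2

/-- its derivative -/
noncomputable def kap' (ρ z x : ℝ) : ℝ :=
  cos (2 * (π * (x - z))) * qq ρ z x ^ 2 - sin (2 * (π * (x - z))) ^ 2 * qq ρ z x / ρ ^ 2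

lemma hasDerivAt_kap (ρ z x : ℝ) : HasDerivAt (kap ρ z) (kap' ρ z x) x := by
  have hθ : HasDerivAt (fun x : ℝ => π * (x - z)) π x := by
    simpa using ((hasDerivAt_id x).sub_const z).const_mul π
  have hs : HasDerivAt (fun x : ℝ => sin (π * (x - z))) (cos (π * (x - z)) * π) x := hθ.sin
  have hg : HasDerivAt (fun x : ℝ => 1 - sin (π * (x - z)) ^ 2 / ρ ^ 2)
      (-(2 * sin (π * (x - z)) * (cos (π * (x - z)) * π) / ρ ^ 2)) x := by
    have := ((hs.pow 2).div_const (ρ ^ 2)).const_sub 1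
    refine this.congr_deriv ?_
    simp
  have hq := (hasDerivAt_sqmax (1 - sin (π * (x - z)) ^ 2 / ρ ^ 2)).comp x hg
  have h2θ : HasDerivAt (fun x : ℝ => 2 * (π * (x - z))) (2 * π) x := hθ.const_mul 2
  have hs2 : HasDerivAt (fun x : ℝ => 1 / (2 * π) * sin (2 * (π * (x - z))))
      (cos (2 * (π * (x - z)))) x := by
    refine (h2θ.sin.const_mul (1 / (2 * π))).congr_deriv ?_
    have : (π : ℝ) ≠ 0 := Real.pi_ne_zero
    field_simp
  have := hs2.mul hq
  refine this.congr_deriv ?_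
  unfold kap' qq
  simp only [Function.comp]
  rw [Real.sin_two_mul]
  by_cases hρ : ρ = 0
  · subst hρ; simp
  · have : (π : ℝ) ≠ 0 := Real.pi_ne_zero
    field_simp
    ring

lemma qq_continuous (ρ z : ℝ) : Continuous (qq ρ z) := by
  unfold qq; fun_prop

lemma kap'_continuous (ρ z : ℝ) : Continuous (kap' ρ z) := by
  have := qq_continuous ρ z
  unfold kap'; fun_prop

lemma qq_nonneg (ρ z x : ℝ) : 0 ≤ qq ρ z x := le_max_right _ _

lemma qq_le_one (ρ z x : ℝ) : qq ρ z x ≤ 1 := by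
  unfold qq
  refine max_le ?_ zero_le_one
  have : 0 ≤ sin (π * (x - z)) ^ 2 / ρ ^ 2 := by positivity
  linarith

lemma qq_eq_zero {ρ z x : ℝ} (hρ : 0 < ρ) (h : ρ ≤ dd x z) : qq ρ z x = 0 := by
  unfold qq
  refine max_eq_right ?_
  have h1 : ρ ^ 2 ≤ sin (π * (x - z)) ^ 2 := by
    have : dd x z ^ 2 = sin (π * (x - z)) ^ 2 := by unfold dd; rw [sq_abs]
    rw [← this]
    exact pow_le_pow_left₀ hρ.le h 2
  have : 1 ≤ sin (π * (x - z)) ^ 2 / ρ ^ 2 := by
    rw [le_div_iff₀ (by positivity)]; linarith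
  linarith

lemma kap_eq_zero {ρ z x : ℝ} (hρ : 0 < ρ) (h : ρ ≤ dd x z) : kap ρ z x = 0 := by
  unfold kap; rw [qq_eq_zero hρ h]; simp

lemma kap'_eq_zero {ρ z x : ℝ} (hρ : 0 < ρ) (h : ρ ≤ dd x z) : kap' ρ z x = 0 := by
  unfold kap'; rw [qq_eq_zero hρ h]; simp

lemma kap_self (ρ z : ℝ) : kap ρ z z = 0 := by simp [kap]

lemma kap'_self (ρ z : ℝ) : kap' ρ z z = 1 := by simp [kap', qq]

lemma abs_kap_le {ρ z x : ℝ} (hρ : 0 < ρ) : |kap ρ z x| ≤ ρ := by
  by_cases h : ρ ≤ dd x z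
  · rw [kap_eq_zero hρ h]; simpa using hρ.le
  · push Not at h
    unfold kap
    have hq0 := qq_nonneg ρ z x
    have hq1 := qq_le_one ρ z x
    rw [abs_mul, abs_mul, Real.sin_two_mul, abs_mul, abs_mul]
    have h1 : |1 / (2 * π)| = 1 / (2 * π) := abs_of_pos (by positivity)
    have h2 : |(2 : ℝ)| = 2 := by norm_num
    have h3 : |qq ρ z x ^ 2| ≤ 1 := by
      rw [abs_of_nonneg (by positivity)]
      exact pow_le_one₀ hq0 hq1
    have h4 := Real.abs_cos_le_one (π * (x - z))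
    have h5 : |sin (π * (x - z))| ≤ ρ := h.le
    rw [h1, h2]
    have h6 : (1 : ℝ) / (2 * π) ≤ 1 / 2 := by
      have : (2 : ℝ) ≤ 2 * π := by linarith [Real.pi_gt_three]
      exact one_div_le_one_div_of_le (by norm_num) this
    have h7 : 0 ≤ |sin (π * (x - z))| := abs_nonneg _
    have h8 : 0 ≤ |cos (π * (x - z))| := abs_nonneg _
    calc 1 / (2 * π) * (2 * |sin (π * (x - z))| * |cos (π * (x - z))|) * |qq ρ z x ^ 2|
        ≤ 1 / 2 * (2 * ρ * 1) * 1 := by gcongr
      _ = ρ := by ring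

lemma abs_kap'_le {ρ z x : ℝ} (hρ : 0 < ρ) (hρ2 : ρ ≤ 1 / 2) : |kap' ρ z x| ≤ 1 := by
  by_cases h : ρ ≤ dd x z
  · rw [kap'_eq_zero hρ h]; simp
  · push Not at h
    have hρs : 0 < ρ ^ 2 := by positivity
    have hu : sin (π * (x - z)) ^ 2 < ρ ^ 2 := by
      have : dd x z ^ 2 = sin (π * (x - z)) ^ 2 := by unfold dd; rw [sq_abs]
      rw [← this]
      exact pow_lt_pow_left₀ h (dd_nonneg _ _) (by norm_num)
    set u := sin (π * (x - z)) ^ 2 with hudef
    have hu0 : 0 ≤ u := by positivity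
    have hq : qq ρ z x = 1 - u / ρ ^ 2 := by
      unfold qq
      refine max_eq_left ?_
      have : u / ρ ^ 2 ≤ 1 := by rw [div_le_one hρs]; exact hu.le
      linarith
    have hq0 := qq_nonneg ρ z x
    have hq1 := qq_le_one ρ z x
    set q := qq ρ z x with hqdef
    have hc2 : cos (2 * (π * (x - z))) = 1 - 2 * u := by
      rw [Real.cos_two_mul, hudef]
      have := Real.sin_sq_add_cos_sq (π * (x - z))
      linarith
    have hs2 : sin (2 * (π * (x - z))) ^ 2 = 4 * u * (1 - u) := by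
      have h1 := Real.sin_sq_add_cos_sq (2 * (π * (x - z)))
      rw [hc2] at h1
      nlinarith
    have hd : u / ρ ^ 2 = 1 - q := by rw [hq]; ring
    have hk : kap' ρ z x = (1 - 2 * u) * q ^ 2 - 4 * (1 - q) * (1 - u) * q := by
      unfold kap'
      rw [← hqdef, hc2, hs2]
      have : 4 * u * (1 - u) * q / ρ ^ 2 = 4 * (u / ρ ^ 2) * (1 - u) * q := by
        ring
      rw [this, hd]
    have hu4 : u ≤ 1 / 4 := by
      have : ρ ^ 2 ≤ (1 / 2) ^ 2 := pow_le_pow_left₀ hρ.le hρ2 2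
      norm_num at this
      linarith
    rw [hk, abs_le]
    constructor
    · have h1 : 0 ≤ (1 - 2 * u) * q ^ 2 := by
        apply mul_nonneg <;> nlinarith
      have h2 : 4 * (1 - q) * (1 - u) * q ≤ 1 := by
        have h3 : 4 * (1 - q) * q ≤ 1 := by nlinarith [sq_nonneg (2 * q - 1)]
        have h4 : 0 ≤ 4 * (1 - q) * q := by
          apply mul_nonneg _ hq0
          linarith
        nlinarith
      linarith
    · have h1 : (1 - 2 * u) * q ^ 2 ≤ 1 := by
        have : q ^ 2 ≤ 1 := pow_le_one₀ hq0 hq1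
        nlinarith [sq_nonneg q]
      have h2 : 0 ≤ 4 * (1 - q) * (1 - u) * q := by
        apply mul_nonneg _ hq0
        apply mul_nonneg <;> nlinarith
      linarith

lemma kap_per (ρ z x : ℝ) : kap ρ z (x + 1) = kap ρ z x := by
  unfold kap qq
  have h1 : 2 * (π * (x + 1 - z)) = 2 * (π * (x - z)) + 2 * π := by ring
  have h2 : π * (x + 1 - z) = π * (x - z) + π := by ring
  rw [h1, h2, Real.sin_add_two_pi, Real.sin_add_pi]
  simp

lemma ev_small {c : ℝ} (hc : 0 < c) : ∀ᶠ ρ : ℝ in 𝓝[>] 0, ρ ≤ c := by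
  filter_upwards [Ioc_mem_nhdsGT hc] with ρ hρ using hρ.2

/-- Lemma B: a circle diffeomorphism close to the identity, with prescribed derivatives at
finitely many fixed points. -/
lemma exists_bump {ι : Type*} (I : Finset ι) (z a : ι → ℝ) {A : ℝ} (hA : A ≤ 1 / 4)
    (hA0 : 0 ≤ A)
    (ha : ∀ α ∈ I, |a α| ≤ A) (hz : ∀ α ∈ I, ∀ β ∈ I, α ≠ β → dd (z α) (z β) ≠ 0)
    (F : Finset ℝ) (hF : ∀ α ∈ I, ∀ q ∈ F, dd (z α) q ≠ 0) {ε : ℝ} (hε : 0 < ε) :
    ∃ b : Equiv.Perm ℝ, IsD1 b ∧ (∀ α ∈ I, b (z α) = z α ∧ deriv b (z α) = exp (a α)) ∧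
      (∀ q ∈ F, b q = q ∧ deriv b q = 1) ∧ (∀ x, |deriv b x - 1| ≤ exp A - 1) ∧
      (∀ x, |b x - x| ≤ ε) ∧
      ((∀ α ∈ I, 1 / 4 < |sin (π * z α)|) → ∀ x, |sin (π * x)| < 1 / 4 → b x = x) := by
  classical
  -- choice of the radius
  have hev : ∀ᶠ ρ : ℝ in 𝓝[>] 0, 0 < ρ ∧ ρ ≤ 1 / 2 ∧ ρ ≤ ε ∧
      (∀ α ∈ I, ∀ β ∈ I, α ≠ β → 2 * ρ ≤ dd (z α) (z β)) ∧
      (∀ α ∈ I, ∀ q ∈ F, ρ ≤ dd (z α) q) ∧
      (∀ α ∈ I, 1 / 4 < |sin (π * z α)| → ρ ≤ |sin (π * z α)| - 1 / 4) := by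
    have e1 : ∀ᶠ ρ : ℝ in 𝓝[>] 0, 0 < ρ := by
      filter_upwards [self_mem_nhdsWithin] with ρ hρ using hρ
    have e2 := ev_small (c := 1 / 2) (by norm_num)
    have e3 := ev_small hε
    have e4 : ∀ᶠ ρ : ℝ in 𝓝[>] 0, ∀ α ∈ I, ∀ β ∈ I, α ≠ β → 2 * ρ ≤ dd (z α) (z β) := by
      rw [Filter.eventually_all_finset]
      intro α hα
      rw [Filter.eventually_all_finset]
      intro β hβ
      by_cases hab : α = β
      · exact Filter.Eventually.of_forall fun ρ h => absurd hab h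
      · have hpos : 0 < dd (z α) (z β) := lt_of_le_of_ne (dd_nonneg _ _) (hz α hα β hβ hab).symm
        filter_upwards [ev_small (c := dd (z α) (z β) / 2) (by linarith)] with ρ hρ _
        linarith
    have e5 : ∀ᶠ ρ : ℝ in 𝓝[>] 0, ∀ α ∈ I, ∀ q ∈ F, ρ ≤ dd (z α) q := by
      rw [Filter.eventually_all_finset]
      intro α hα
      rw [Filter.eventually_all_finset]
      intro q hq
      exact ev_small (lt_of_le_of_ne (dd_nonneg _ _) (hF α hα q hq).symm)
    have e6 : ∀ᶠ ρ : ℝ in 𝓝[>] 0, ∀ α ∈ I, 1 / 4 < |sin (π * z α)| →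
        ρ ≤ |sin (π * z α)| - 1 / 4 := by
      rw [Filter.eventually_all_finset]
      intro α hα
      by_cases h : 1 / 4 < |sin (π * z α)|
      · filter_upwards [ev_small (c := |sin (π * z α)| - 1 / 4) (by linarith)] with ρ hρ _
        exact hρ
      · exact Filter.Eventually.of_forall fun ρ h' => absurd h' h
    filter_upwards [e1, e2, e3, e4, e5, e6] with ρ h1 h2 h3 h4 h5 h6
    exact ⟨h1, h2, h3, h4, h5, h6⟩
  obtain ⟨ρ, hρ, hρ2, hρε, hzz, hzF, hzV⟩ := hev.exists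
  have hexpA : exp A - 1 < 1 := by
    have : exp A ≤ exp (1 / 4) := Real.exp_le_exp.mpr hA
    have h3 : exp (1 / 4 : ℝ) ^ 4 = exp 1 := by
      rw [← Real.exp_nat_mul]; norm_num
    have h4 := Real.exp_one_lt_d9
    by_contra hcon
    push Not at hcon
    have h5 : (2 : ℝ) ≤ exp (1 / 4) := by linarith
    have h6 : (2 : ℝ) ^ 4 ≤ exp (1 / 4) ^ 4 := pow_le_pow_left₀ (by norm_num) h5 4
    rw [h3] at h6
    norm_num at h6
    linarith
  have hexpA0 : 0 ≤ exp A - 1 := by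
    have := Real.add_one_le_exp A
    linarith
  have hc : ∀ α ∈ I, |exp (a α) - 1| ≤ exp A - 1 := by
    intro α hα
    have h1 := ha α hα
    rw [abs_le] at h1 ⊢
    constructor
    · have h2 : exp (-A) ≤ exp (a α) := Real.exp_le_exp.mpr h1.1
      have h3 := Real.add_one_le_exp A
      have h4 := Real.add_one_le_exp (-A)
      linarith
    · have h2 : exp (a α) ≤ exp A := Real.exp_le_exp.mpr h1.2
      linarith
  -- at each point at most one bump is active
  have hsingle : ∀ (g : ℝ → ℝ → ℝ → ℝ) (hg : ∀ z x, ρ ≤ dd x z → g ρ z x = 0) (x B : ℝ),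
      0 ≤ B → (∀ α ∈ I, |(exp (a α) - 1) * g ρ (z α) x| ≤ B) →
      |∑ α ∈ I, (exp (a α) - 1) * g ρ (z α) x| ≤ B := by
    intro g hg x B hB hb
    by_cases hex : ∃ α ∈ I, dd x (z α) < ρ
    · obtain ⟨α, hα, hαx⟩ := hex
      rw [Finset.sum_eq_single_of_mem α hα]
      · exact hb α hα
      · intro β hβ hβα
        rw [hg, mul_zero]
        have h1 := hzz α hα β hβ (Ne.symm hβα)
        have h2 := dd_tri (z α) x (z β)
        rw [dd_comm (z α) x] at h2
        linarith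
    · push Not at hex
      rw [Finset.sum_eq_zero]
      · simpa using hB
      · intro β hβ
        rw [hg _ _ (hex β hβ), mul_zero]
  have hval : ∀ (g : ℝ → ℝ → ℝ → ℝ) (hg : ∀ z x, ρ ≤ dd x z → g ρ z x = 0) (α : ι), α ∈ I →
      ∑ β ∈ I, (exp (a β) - 1) * g ρ (z β) (z α) = (exp (a α) - 1) * g ρ (z α) (z α) := by
    intro g hg α hα
    rw [Finset.sum_eq_single_of_mem α hα]
    intro β hβ hβα
    rw [hg, mul_zero]
    have h1 := hzz α hα β hβ (Ne.symm hβα)
    linarith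
  have hval0 : ∀ (g : ℝ → ℝ → ℝ → ℝ) (hg : ∀ z x, ρ ≤ dd x z → g ρ z x = 0) (x : ℝ),
      (∀ α ∈ I, ρ ≤ dd x (z α)) → ∑ β ∈ I, (exp (a β) - 1) * g ρ (z β) x = 0 := by
    intro g hg x hx
    refine Finset.sum_eq_zero fun β hβ => ?_
    rw [hg _ _ (hx β hβ), mul_zero]
  have hk0 : ∀ z x, ρ ≤ dd x z → kap ρ z x = 0 := fun z x h => kap_eq_zero hρ h
  have hk0' : ∀ z x, ρ ≤ dd x z → kap' ρ z x = 0 := fun z x h => kap'_eq_zero hρ h
  have hbd : ∀ x, |∑ α ∈ I, (exp (a α) - 1) * kap' ρ (z α) x| ≤ exp A - 1 := by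
    intro x
    refine hsingle kap' hk0' x _ hexpA0 fun α hα => ?_
    rw [abs_mul]
    calc |exp (a α) - 1| * |kap' ρ (z α) x| ≤ (exp A - 1) * 1 := by
          gcongr
          · exact hc α hα
          · exact abs_kap'_le hρ hρ2
      _ = exp A - 1 := mul_one _
  obtain ⟨b, hb, hbD, hbd'⟩ := exists_perm
    (f := fun x => x + ∑ α ∈ I, (exp (a α) - 1) * kap ρ (z α) x)
    (f' := fun x => 1 + ∑ α ∈ I, (exp (a α) - 1) * kap' ρ (z α) x)
    (fun x => by
      refine (hasDerivAt_id x).add ?_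
      exact HasDerivAt.fun_sum fun α _ => (hasDerivAt_kap ρ (z α) x).const_mul _)
    (by
      refine continuous_const.add ?_
      exact continuous_finset_sum _ fun α _ => continuous_const.mul (kap'_continuous ρ (z α)))
    (fun x => by
      have := hbd x
      rw [abs_le] at this
      linarith [this.1])
    (fun x => by
      simp only [kap_per]; ring)
  refine ⟨b, hbD, ?_, ?_, ?_, ?_, ?_⟩
  · intro α hα
    constructor
    · rw [hb, hval kap hk0 α hα, kap_self]; ring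
    · rw [hbd', hval kap' hk0' α hα, kap'_self]; ring
  · intro q hq
    have h1 : ∀ α ∈ I, ρ ≤ dd q (z α) := by
      intro α hα; rw [dd_comm]; exact hzF α hα q hq
    constructor
    · rw [hb, hval0 kap hk0 q h1, add_zero]
    · rw [hbd', hval0 kap' hk0' q h1, add_zero]
  · intro x
    rw [hbd']
    have : 1 + ∑ α ∈ I, (exp (a α) - 1) * kap' ρ (z α) x - 1
      = ∑ α ∈ I, (exp (a α) - 1) * kap' ρ (z α) x := by ring
    rw [this]
    exact hbd x
  · intro x
    rw [hb, add_sub_cancel_left]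
    refine (hsingle kap hk0 x ρ hρ.le fun α hα => ?_).trans hρε
    rw [abs_mul]
    have h1 := hc α hα
    have h2 := abs_kap_le (z := z α) (x := x) hρ
    calc |exp (a α) - 1| * |kap ρ (z α) x| ≤ 1 * ρ := by
          gcongr
          linarith
      _ = ρ := one_mul _
  · intro hV x hx
    rw [hb, hval0 kap hk0 x, add_zero]
    intro α hα
    have h1 := hzV α hα (hV α hα)
    have h2 := dd_tri (z α) x 0
    rw [dd_zero_right, dd_zero_right, dd_comm] at h2
    linarith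

end Pool.Agent.Y329.DL
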