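import Pool.Agent.Y329.DL.Init

/-!
Dynamics of the final system.
-/

namespace Pool.Agent.Y329.DL

open Real Set Filter Topology

/-- the group of lifts generated by the system -/
def HH (S : Sys) : Subgroup (Equiv.Perm ℝ) := Subgroup.closure (Set.range S)

lemma mem_HH (S : Sys) (i : Fin 3) : S i ∈ HH S := Subgroup.subset_closure ⟨i, rfl⟩

lemma HH_isD1 {S : Sys} (hS : Adm S) {u : Equiv.Perm ℝ} (hu : u ∈ HH S) : IsD1 u := by
  unfold HH at hu
  induction hu using Subgroup.closure_induction with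
  | mem x hx =>
    obtain ⟨i, rfl⟩ := hx
    exact hS i
  | one => exact IsD1.one
  | mul x y _ _ hx hy => exact hx.mul hy
  | inv x _ hx => exact hx.inv

lemma pos_congr {S : Sys} {w w' : Wd} {n : ℕ} (h : ∀ j < n, w j = w' j) (x : ℝ) :
    ∀ t ≤ n, pos S w x t = pos S w' x t := by
  intro t
  induction t with
  | zero => intro _; rfl
  | succ t ih =>
    intro ht
    show act S (w t) (pos S w x t) = act S (w' t) (pos S w' x t)
    rw [ih (by omega), h t (by omega)]

lemma prod_eq_pos (S : Sys) (L : List (Fin 3 × Bool)) (x : ℝ) :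
    (L.map fun y => cond y.2 (S y.1) (S y.1)⁻¹).prod x = pos S (toW L.reverse) x L.length := by
  induction L with
  | nil => rfl
  | cons l L ih =>
    rw [List.map_cons, List.prod_cons, Equiv.Perm.mul_apply, ih, List.length_cons]
    show _ = act S (toW (l :: L).reverse L.length) (pos S (toW (l :: L).reverse) x L.length)
    have h1 : toW (l :: L).reverse L.length = l := by
      unfold toW
      rw [List.reverse_cons, List.getD_append_right _ _ _ _ (by simp)]
      simp
    have h2 : pos S (toW (l :: L).reverse) x L.length = pos S (toW L.reverse) x L.length := by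
      apply pos_congr (n := L.length) _ x _ le_rfl
      intro j hj
      unfold toW
      rw [List.reverse_cons, List.getD_append _ _ _ _ (by simpa using hj)]
    rw [h1, h2]
    unfold act
    rcases l with ⟨i, b⟩
    cases b <;> simp

lemma red_toW {L : List (Fin 3 × Bool)} (h : FreeGroup.IsReduced L) :
    Red (toW L.reverse) L.reverse.length := by
  have h1 : L.reverse.IsChain (fun a b : Fin 3 × Bool => a.1 = b.1 → a.2 = b.2) := by
    rw [List.isChain_reverse]
    refine List.IsChain.imp ?_ h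
    intro a b hab h'
    exact (hab h'.symm).symm
  rw [List.isChain_iff_getElem] at h1
  intro t ht hg
  have h2 := h1 t ht
  unfold toW at hg ⊢
  rw [List.getD_eq_getElem _ _ (by omega), List.getD_eq_getElem _ _ ht] at hg ⊢
  exact h2 hg

/-- every nontrivial element of the group is far from the identity in the `C^1` sense -/
theorem disc_lift {δ : ℝ} {S : Sys} (hS : Final δ S) {u : Equiv.Perm ℝ} (hu : u ∈ HH S)
    (hne : u ≠ 1) : ∃ x, δ ≤ |Real.log (deriv u x)| := by
  unfold HH at hu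
  rw [← FreeGroup.range_lift_eq_closure] at hu
  obtain ⟨g, rfl⟩ := hu
  have hL : g.toWord ≠ [] := by
    intro h
    rw [FreeGroup.toWord_eq_nil_iff] at h
    rw [h, map_one] at hne
    exact hne rfl
  have hval : ∀ x, FreeGroup.lift S g x = pos S (toW g.toWord.reverse) x g.toWord.length := by
    intro x
    conv_lhs => rw [← FreeGroup.mk_toWord (x := g)]
    rw [FreeGroup.lift_mk]
    exact prod_eq_pos S _ x
  obtain ⟨p, hp1, hp2⟩ := hS.disc g.toWord.reverse (by simpa using hL)
    (red_toW FreeGroup.isReduced_toWord)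
  rw [List.length_reverse] at hp1 hp2
  refine ⟨p 0, ?_⟩
  have hd := hasDerivAt_pos hS.adm (toW g.toWord.reverse) (p 0) g.toWord.length
  have h1 : (fun y => pos S (toW g.toWord.reverse) y g.toWord.length) = FreeGroup.lift S g := by
    funext y; exact (hval y).symm
  rw [h1] at hd
  rw [hd.deriv, Real.log_exp]
  have h2 : LD S (toW g.toWord.reverse) (pos S (toW g.toWord.reverse) (p 0)) g.toWord.length =
      LD S (toW g.toWord.reverse) p g.toWord.length := by
    unfold LD
    refine Finset.sum_congr rfl fun j hj => ?_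
    rw [Finset.mem_range] at hj
    have : ept (toW g.toWord.reverse) (pos S (toW g.toWord.reverse) (p 0)) j =
        ept (toW g.toWord.reverse) p j := by
      unfold ept
      rw [← chain_eq_pos hp1 j (by omega), ← chain_eq_pos hp1 (j + 1) (by omega)]
    rw [this]
  rw [h2]
  exact hp2

section expand

variable {δ : ℝ} {S : Sys}

lemma mvt_lower {σ : Equiv.Perm ℝ} (h : IsD1 σ) {a b c : ℝ} (hab : a ≤ b)
    (hc : ∀ x ∈ Icc a b, c ≤ deriv σ x) : c * (b - a) ≤ σ b - σ a := by
  refine (convex_Icc a b).mul_sub_le_image_sub_of_le_deriv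
    h.continuous.continuousOn h.differentiable.differentiableOn ?_ _
    ⟨le_rfl, hab⟩ _ ⟨hab, le_rfl⟩ hab
  intro x hx
  exact hc x (interior_subset hx)

lemma g_exp_int (hS : Final δ S) (m : ℤ) {y : ℝ} (h1 : m + 1 / 3 ≤ y) (h2 : y ≤ m + 2 / 3) :
    116 / 100 ≤ deriv (S 0) y := by
  have h3 := (hS.adm 0).deriv_per_int (y - m) m
  rw [sub_add_cancel] at h3
  rw [h3]
  exact hS.g_exp _ ⟨by linarith, by linarith⟩

/-- expansion: every interval can be blown up so that it contains a point congruent to `1/2` -/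
theorem expand (hS : Final δ S) {a b : ℝ} (hab : a < b) :
    ∃ u ∈ HH S, ∃ m : ℤ, u a < m + 1 / 2 ∧ m + 1 / 2 < u b := by
  by_contra hcon
  push Not at hcon
  have hD : ∀ u ∈ HH S, IsD1 u := fun u hu => HH_isD1 hS.adm hu
  -- location
  have hloc : ∀ u ∈ HH S, ∃ m : ℤ, m - 1 / 2 ≤ u a ∧ u b ≤ m + 1 / 2 := by
    intro u hu
    refine ⟨⌊u a + 1 / 2⌋, ?_, ?_⟩
    · have := Int.floor_le (u a + 1 / 2); linarith
    · apply hcon u hu
      have := Int.lt_floor_add_one (u a + 1 / 2); linarith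
  let T : Set ℝ := {ℓ | ∃ u ∈ HH S, ℓ = u b - u a}
  have hTb : BddAbove T := by
    refine ⟨1, ?_⟩
    rintro ℓ ⟨u, hu, rfl⟩
    obtain ⟨m, h1, h2⟩ := hloc u hu
    linarith
  have hT1 : b - a ∈ T := ⟨1, (HH S).one_mem, by simp⟩
  have hsup : b - a ≤ sSup T := le_csSup hTb hT1
  have hpos : 0 < sSup T := by linarith
  obtain ⟨ℓ, ⟨u, hu, rfl⟩, hℓ⟩ := exists_lt_of_lt_csSup ⟨_, hT1⟩
    (show sSup T / 1.1 < sSup T by
      rw [div_lt_iff₀ (by norm_num)]; nlinarith)
  obtain ⟨m, hm1, hm2⟩ := hloc u hu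
  have hlt : u a < u b := (hD u hu).strictMono hab
  have hR := hS.adm 2
  have hRn : ∀ j, (S 2) ^ j ∈ HH S := fun j => (HH S).pow_mem (mem_HH S 2) j
  have hRs : ∀ j x, ((S 2) ^ (j + 1)) x = S 2 (((S 2) ^ j) x) := by
    intro j x
    rw [pow_succ']; rfl
  have hRc : ∀ x, x + 1 / 12 - 1 / 500 ≤ S 2 x ∧ S 2 x ≤ x + 1 / 12 + 1 / 500 := by
    intro x
    have := hS.r_close x
    rw [abs_le] at this
    constructor <;> linarith [this.1, this.2]
  have hRlow : ∀ j : ℕ, ∀ x, x + j * (1 / 12 - 1 / 500) ≤ ((S 2) ^ j) x := by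
    intro j x
    induction j with
    | zero => simp
    | succ j ih =>
      rw [hRs]
      have := (hRc (((S 2) ^ j) x)).1
      rw [Nat.cast_succ]
      linarith
  have hRlen : ∀ j : ℕ, (1 - 1 / 500) ^ j * (u b - u a) ≤ ((S 2) ^ j) (u b) - ((S 2) ^ j) (u a) := by
    intro j
    induction j with
    | zero => simp
    | succ j ih =>
      rw [hRs, hRs]
      have hle : ((S 2) ^ j) (u a) ≤ ((S 2) ^ j) (u b) :=
        ((hD _ (hRn j)).strictMono hlt).le
      have h1 := mvt_lower hR hle (c := 1 - 1 / 500) (fun x _ => by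
        have := hS.r_der x
        rw [abs_le] at this
        linarith [this.1])
      calc (1 - 1 / 500 : ℝ) ^ (j + 1) * (u b - u a)
          = (1 - 1 / 500) * ((1 - 1 / 500) ^ j * (u b - u a)) := by ring
        _ ≤ (1 - 1 / 500) * (((S 2) ^ j) (u b) - ((S 2) ^ j) (u a)) := by
            apply mul_le_mul_of_nonneg_left ih; norm_num
        _ ≤ _ := h1
  -- first time the right end passes the half-integer
  have hex : ∃ j : ℕ, m + 1 / 2 < ((S 2) ^ j) (u b) := by
    refine ⟨13, ?_⟩
    have := hRlow 13 (u b)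
    rw [show ((13 : ℕ) : ℝ) = 13 by norm_num] at this
    linarith
  classical
  have hfind := Nat.find_spec hex
  have hmin := fun j hj => Nat.find_min hex (m := j) hj
  set J := Nat.find hex with hJ
  have hJ13 : J ≤ 13 := by
    apply Nat.find_min' hex
    have := hRlow 13 (u b)
    rw [show ((13 : ℕ) : ℝ) = 13 by norm_num] at this
    linarith
  have hJ0 : J ≠ 0 := by
    intro h0
    rw [h0] at hfind
    simp at hfind
    linarith
  obtain ⟨j, hj⟩ := Nat.exists_eq_succ_of_ne_zero hJ0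
  have hb1 : ((S 2) ^ j) (u b) ≤ m + 1 / 2 := by
    have := hmin j (by omega)
    push Not at this
    exact this
  have ha1 : m + 1 / 2 ≤ ((S 2) ^ (j + 1)) (u a) := by
    by_contra hlt2
    push Not at hlt2
    have h1 := hcon ((S 2) ^ (j + 1) * u) ((HH S).mul_mem (hRn _) hu) m hlt2
    rw [hj] at hfind
    exact absurd hfind (not_lt.mpr h1)
  rw [hRs] at ha1
  have ha2 : m + 1 / 3 ≤ ((S 2) ^ j) (u a) := by
    have := (hRc (((S 2) ^ j) (u a))).2
    linarith
  have hle : ((S 2) ^ j) (u a) ≤ ((S 2) ^ j) (u b) := ((hD _ (hRn j)).strictMono hlt).le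
  have h1 := mvt_lower (hS.adm 0) hle (c := 116 / 100) (fun x hx =>
    g_exp_int hS m (ha2.trans hx.1) (by linarith [hx.2]))
  have h2 := hRlen j
  have h3 : S 0 (((S 2) ^ j) (u b)) - S 0 (((S 2) ^ j) (u a)) ≤ sSup T := by
    apply le_csSup hTb
    exact ⟨S 0 * ((S 2) ^ j * u), (HH S).mul_mem (mem_HH S 0) ((HH S).mul_mem (hRn j) hu), rfl⟩
  have h4 : (0.97 : ℝ) ≤ (1 - 1 / 500) ^ j := by
    have h5 : (1 - 1 / 500 : ℝ) ^ 12 ≤ (1 - 1 / 500) ^ j :=
      pow_le_pow_of_le_one (by norm_num) (by norm_num) (by omega)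
    refine le_trans ?_ h5
    norm_num
  have h6 : 0 < u b - u a := by linarith
  have h7 : 0.97 * (u b - u a) ≤ (1 - 1 / 500) ^ j * (u b - u a) :=
    mul_le_mul_of_nonneg_right h4 h6.le
  rw [div_lt_iff₀ (by norm_num)] at hℓ
  nlinarith

lemma g_zero (hS : Final δ S) : S 0 0 = 0 := by
  have := hS.g_lin 0 (by simp)
  simpa using this

lemma iter_pos (hS : Final δ S) {x : ℝ} (h0 : 0 < x) (h1 : x < 1 / 2) :
    Tendsto (fun n => (S 0)^[n] x) atTop (𝓝 0) := by
  have hm := (hS.adm 0).strictMono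
  have hin : ∀ n, 0 < (S 0)^[n] x ∧ (S 0)^[n] x ≤ x := by
    intro n
    induction n with
    | zero => exact ⟨h0, le_rfl⟩
    | succ n ih =>
      rw [Function.iterate_succ_apply']
      refine ⟨?_, ?_⟩
      · have := hm ih.1
        rwa [g_zero hS] at this
      · exact (hS.g_dyn1 _ ih.1 (by linarith [ih.2])).le.trans ih.2
  have hanti : Antitone fun n => (S 0)^[n] x := by
    apply antitone_nat_of_succ_le
    intro n
    rw [Function.iterate_succ_apply']
    exact (hS.g_dyn1 _ (hin n).1 (by linarith [(hin n).2])).le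
  have hbdd : BddBelow (Set.range fun n => (S 0)^[n] x) := by
    refine ⟨0, ?_⟩
    rintro _ ⟨n, rfl⟩
    exact (hin n).1.le
  have hlim := tendsto_atTop_ciInf hanti hbdd
  set ℓ := ⨅ n, (S 0)^[n] x with hℓ
  have hfix : S 0 ℓ = ℓ := isFixedPt_of_tendsto_iterate hlim (hS.adm 0).continuous.continuousAt
  have hℓ0 : 0 ≤ ℓ := le_ciInf fun n => (hin n).1.le
  have hℓx : ℓ ≤ x := ciInf_le hbdd 0
  have : ℓ = 0 := by
    by_contra hne
    have hp : 0 < ℓ := lt_of_le_of_ne hℓ0 (Ne.symm hne)
    have := hS.g_dyn1 ℓ hp (by linarith)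
    linarith
  rw [this] at hlim
  exact hlim

lemma iter_neg (hS : Final δ S) {x : ℝ} (h0 : x < 0) (h1 : -(1 / 2) < x) :
    Tendsto (fun n => (S 0)^[n] x) atTop (𝓝 0) := by
  have hm := (hS.adm 0).strictMono
  have hin : ∀ n, (S 0)^[n] x < 0 ∧ x ≤ (S 0)^[n] x := by
    intro n
    induction n with
    | zero => exact ⟨h0, le_rfl⟩
    | succ n ih =>
      rw [Function.iterate_succ_apply']
      refine ⟨?_, ?_⟩
      · have := hm ih.1
        rwa [g_zero hS] at this
      · exact ih.2.trans (hS.g_dyn2 _ (by linarith [ih.2]) ih.1).le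
  have hmono : Monotone fun n => (S 0)^[n] x := by
    apply monotone_nat_of_le_succ
    intro n
    rw [Function.iterate_succ_apply']
    exact (hS.g_dyn2 _ (by linarith [(hin n).2]) (hin n).1).le
  have hbdd : BddAbove (Set.range fun n => (S 0)^[n] x) := by
    refine ⟨0, ?_⟩
    rintro _ ⟨n, rfl⟩
    exact (hin n).1.le
  have hlim := tendsto_atTop_ciSup hmono hbdd
  set ℓ := ⨆ n, (S 0)^[n] x with hℓ
  have hfix : S 0 ℓ = ℓ := isFixedPt_of_tendsto_iterate hlim (hS.adm 0).continuous.continuousAt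
  have hℓ0 : ℓ ≤ 0 := ciSup_le fun n => (hin n).1.le
  have hℓx : x ≤ ℓ := le_ciSup hbdd 0
  have : ℓ = 0 := by
    by_contra hne
    have hp : ℓ < 0 := lt_of_le_of_ne hℓ0 hne
    have := hS.g_dyn2 ℓ (by linarith) hp
    linarith
  rw [this] at hlim
  exact hlim

/-- forward iterates converge to `0` -/
theorem iter_all (hS : Final δ S) {x : ℝ} (h1 : |x| < 1 / 2) :
    Tendsto (fun n => (S 0)^[n] x) atTop (𝓝 0) := by
  rw [abs_lt] at h1
  rcases lt_trichotomy x 0 with h | h | h
  · exact iter_neg hS h h1.1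
  · subst h
    have : ∀ n, (S 0)^[n] 0 = 0 := by
      intro n
      induction n with
      | zero => rfl
      | succ n ih => rw [Function.iterate_succ_apply', ih, g_zero hS]
    simp only [this]
    exact tendsto_const_nhds
  · exact iter_pos hS h h1.2

/-- backward iterates converge to `1/2` -/
theorem iter_back (hS : Final δ S) {x : ℝ} (h0 : 0 < x) (h1 : x < 1) :
    Tendsto (fun n => ((S 0).symm)^[n] x) atTop (𝓝 (1 / 2)) := by
  have hD := (hS.adm 0).symm
  have hm := hD.strictMono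
  have hz : (S 0).symm 0 = 0 := by
    rw [Equiv.symm_apply_eq, g_zero hS]
  have hh : (S 0).symm (1 / 2) = 1 / 2 := by
    rw [Equiv.symm_apply_eq, hS.g_half]
  have hone : (S 0).symm 1 = 1 := by
    have := hD.per 0
    rw [zero_add, hz, zero_add] at this
    exact this
  -- the displacement of the inverse
  have hd1 : ∀ y, 0 < y → y < 1 / 2 → y < (S 0).symm y := by
    intro y hy0 hy1
    have h2 : 0 < (S 0).symm y := by have := hm hy0; rwa [hz] at this
    have h3 : (S 0).symm y < 1 / 2 := by have := hm hy1; rwa [hh] at this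
    have := hS.g_dyn1 _ h2 h3
    simpa using this
  have hd2 : ∀ y, 1 / 2 < y → y < 1 → (S 0).symm y < y := by
    intro y hy0 hy1
    have h2 : 1 / 2 < (S 0).symm y := by have := hm hy0; rwa [hh] at this
    have h3 : (S 0).symm y < 1 := by have := hm hy1; rwa [hone] at this
    have h4 := hS.g_dyn2 ((S 0).symm y - 1) (by linarith) (by linarith)
    have h5 := (hS.adm 0).per ((S 0).symm y - 1)
    rw [sub_add_cancel] at h5
    simp only [Equiv.apply_symm_apply] at h5
    linarith
  rcases lt_trichotomy x (1 / 2) with h | h | h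
  · have hin : ∀ n, x ≤ ((S 0).symm)^[n] x ∧ ((S 0).symm)^[n] x < 1 / 2 := by
      intro n
      induction n with
      | zero => exact ⟨le_rfl, h⟩
      | succ n ih =>
        rw [Function.iterate_succ_apply']
        refine ⟨ih.1.trans (hd1 _ (by linarith [ih.1]) ih.2).le, ?_⟩
        have := hm ih.2
        rwa [hh] at this
    have hmono : Monotone fun n => ((S 0).symm)^[n] x := by
      apply monotone_nat_of_le_succ
      intro n
      rw [Function.iterate_succ_apply']
      exact (hd1 _ (by linarith [(hin n).1]) (hin n).2).le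
    have hbdd : BddAbove (Set.range fun n => ((S 0).symm)^[n] x) := by
      refine ⟨1 / 2, ?_⟩
      rintro _ ⟨n, rfl⟩
      exact (hin n).2.le
    have hlim := tendsto_atTop_ciSup hmono hbdd
    set ℓ := ⨆ n, ((S 0).symm)^[n] x with hℓ
    have hfix : (S 0).symm ℓ = ℓ := isFixedPt_of_tendsto_iterate hlim hD.continuous.continuousAt
    have hℓ0 : ℓ ≤ 1 / 2 := ciSup_le fun n => (hin n).2.le
    have hℓx : x ≤ ℓ := le_ciSup hbdd 0
    have : ℓ = 1 / 2 := by
      by_contra hne
      have hp : ℓ < 1 / 2 := lt_of_le_of_ne hℓ0 hne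
      have := hd1 ℓ (by linarith) hp
      linarith
    rw [this] at hlim
    exact hlim
  · subst h
    have : ∀ n, ((S 0).symm)^[n] (1 / 2) = 1 / 2 := by
      intro n
      induction n with
      | zero => rfl
      | succ n ih => rw [Function.iterate_succ_apply', ih, hh]
    simp only [this]
    exact tendsto_const_nhds
  · have hin : ∀ n, ((S 0).symm)^[n] x ≤ x ∧ 1 / 2 < ((S 0).symm)^[n] x := by
      intro n
      induction n with
      | zero => exact ⟨le_rfl, h⟩
      | succ n ih =>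
        rw [Function.iterate_succ_apply']
        refine ⟨(hd2 _ ih.2 (by linarith [ih.1])).le.trans ih.1, ?_⟩
        have := hm ih.2
        rwa [hh] at this
    have hanti : Antitone fun n => ((S 0).symm)^[n] x := by
      apply antitone_nat_of_succ_le
      intro n
      rw [Function.iterate_succ_apply']
      exact (hd2 _ (hin n).2 (by linarith [(hin n).1])).le
    have hbdd : BddBelow (Set.range fun n => ((S 0).symm)^[n] x) := by
      refine ⟨1 / 2, ?_⟩
      rintro _ ⟨n, rfl⟩
      exact (hin n).2.le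
    have hlim := tendsto_atTop_ciInf hanti hbdd
    set ℓ := ⨅ n, ((S 0).symm)^[n] x with hℓ
    have hfix : (S 0).symm ℓ = ℓ := isFixedPt_of_tendsto_iterate hlim hD.continuous.continuousAt
    have hℓ0 : 1 / 2 ≤ ℓ := le_ciInf fun n => (hin n).2.le
    have hℓx : ℓ ≤ x := ciInf_le hbdd 0
    have : ℓ = 1 / 2 := by
      by_contra hne
      have hp : 1 / 2 < ℓ := lt_of_le_of_ne hℓ0 (Ne.symm hne)
      have := hd2 ℓ hp (by linarith)
      linarith
    rw [this] at hlim
    exact hlim

lemma pow_eq_iterate (σ : Equiv.Perm ℝ) (n : ℕ) (x : ℝ) : (σ ^ n) x = σ^[n] x := by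
  induction n with
  | zero => rfl
  | succ n ih =>
    rw [pow_succ', Equiv.Perm.mul_apply, ih, Function.iterate_succ_apply']

/-- every closed arc can be moved close to `0` -/
theorem center (hS : Final δ S) {a b : ℝ} (hab1 : b < a + 1) :
    ∃ u ∈ HH S, ∃ m : ℤ, ∀ x ∈ Icc a b, |u x - m| < 1 / 40 := by
  obtain ⟨u, hu, m, h1, h2⟩ := expand hS hab1
  have hD := HH_isD1 hS.adm hu
  rw [hD.per] at h2
  rcases lt_or_ge b a with hba | hab
  · refine ⟨u, hu, m, fun x hx => absurd (hx.1.trans hx.2) (not_le.mpr hba)⟩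
  have hua : -(1 / 2) < u a - m := by linarith
  have hub : u b - m < 1 / 2 := by linarith
  have huab : u a ≤ u b := hD.strictMono.monotone hab
  have t1 := iter_all hS (x := u a - m) (by rw [abs_lt]; constructor <;> linarith)
  have t2 := iter_all hS (x := u b - m) (by rw [abs_lt]; constructor <;> linarith)
  have e1 : ∀ᶠ n in atTop, (S 0)^[n] (u a - m) ∈ Ioo (-(1 / 40) : ℝ) (1 / 40) :=
    t1.eventually (Ioo_mem_nhds (by norm_num) (by norm_num))
  have e2 : ∀ᶠ n in atTop, (S 0)^[n] (u b - m) ∈ Ioo (-(1 / 40) : ℝ) (1 / 40) :=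
    t2.eventually (Ioo_mem_nhds (by norm_num) (by norm_num))
  obtain ⟨n, hn1, hn2⟩ := (e1.and e2).exists
  have hgn : (S 0) ^ n ∈ HH S := (HH S).pow_mem (mem_HH S 0) n
  have hDn := HH_isD1 hS.adm hgn
  refine ⟨(S 0) ^ n * u, (HH S).mul_mem hgn hu, m, ?_⟩
  intro x hx
  have h3 : ((S 0) ^ n * u) x - m = ((S 0) ^ n) (u x - m) := by
    have := hDn.per_int (u x - m) m
    rw [sub_add_cancel] at this
    rw [Equiv.Perm.mul_apply, this]; ring
  rw [h3, abs_lt]
  rw [← pow_eq_iterate] at hn1 hn2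
  have m1 : ((S 0) ^ n) (u a - m) ≤ ((S 0) ^ n) (u x - m) := by
    apply hDn.strictMono.monotone
    have := hD.strictMono.monotone hx.1
    linarith
  have m2 : ((S 0) ^ n) (u x - m) ≤ ((S 0) ^ n) (u b - m) := by
    apply hDn.strictMono.monotone
    have := hD.strictMono.monotone hx.2
    linarith
  constructor
  · linarith [hn1.1]
  · linarith [hn2.2]

/-- minimality -/
theorem minimal_lift (hS : Final δ S) (x : ℝ) {a b : ℝ} (hab : a < b) :
    ∃ v ∈ HH S, ∃ k : ℤ, a < v x + k ∧ v x + k < b := by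
  obtain ⟨u, hu, m, h1, h2⟩ := expand hS hab
  have hD := HH_isD1 hS.adm hu
  -- move away from the integers
  obtain ⟨v0, hv0, hv0x⟩ : ∃ v0 ∈ HH S, ∀ k : ℤ, v0 x ≠ k := by
    by_cases hx : ∃ k : ℤ, x = k
    · obtain ⟨k, rfl⟩ := hx
      refine ⟨S 2, mem_HH S 2, ?_⟩
      intro j hj
      have := hS.r_close k
      rw [hj, abs_le] at this
      have h3 : (0 : ℝ) < (j : ℝ) - k := by linarith [this.1]
      have h4 : (j : ℝ) - k < 1 := by linarith [this.2]
      have h5 : (0 : ℤ) < j - k := by exact_mod_cast h3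
      have h6 : j - k < (1 : ℤ) := by exact_mod_cast h4
      omega
    · push Not at hx
      exact ⟨1, (HH S).one_mem, hx⟩
  have hf0 : 0 < Int.fract (v0 x) := by
    refine lt_of_le_of_ne (Int.fract_nonneg _) fun h => ?_
    exact hv0x ⌊v0 x⌋ (by
      have := Int.floor_add_fract (v0 x)
      rw [← h, add_zero] at this
      exact this.symm)
  have hf1 : Int.fract (v0 x) < 1 := Int.fract_lt_one _
  have t1 := iter_back hS hf0 hf1
  have e1 : ∀ᶠ n in atTop, ((S 0).symm)^[n] (Int.fract (v0 x)) ∈ Ioo (u a - m) (u b - m) :=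
    t1.eventually (Ioo_mem_nhds (by linarith) (by linarith))
  obtain ⟨n, hn⟩ := e1.exists
  have hgn : ((S 0)⁻¹) ^ n ∈ HH S := (HH S).pow_mem ((HH S).inv_mem (mem_HH S 0)) n
  have hDn := HH_isD1 hS.adm hgn
  have hit : (((S 0)⁻¹) ^ n) (Int.fract (v0 x)) = ((S 0).symm)^[n] (Int.fract (v0 x)) :=
    pow_eq_iterate _ _ _
  rw [← hit] at hn
  refine ⟨u⁻¹ * (((S 0)⁻¹) ^ n * v0), (HH S).mul_mem ((HH S).inv_mem hu)
    ((HH S).mul_mem hgn hv0), -⌊v0 x⌋ + m, ?_⟩
  have h3 : (((S 0)⁻¹) ^ n) (Int.fract (v0 x)) = (((S 0)⁻¹) ^ n) (v0 x) - ⌊v0 x⌋ := by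
    have := hDn.per_int (Int.fract (v0 x)) ⌊v0 x⌋
    rw [Int.fract_add_floor] at this
    linarith
  have h4 : (u⁻¹ * (((S 0)⁻¹) ^ n * v0)) x + ((-⌊v0 x⌋ + m : ℤ) : ℝ) =
      u⁻¹ ((((S 0)⁻¹) ^ n) (Int.fract (v0 x)) + m) := by
    have := hD.inv.per_int ((((S 0)⁻¹) ^ n) (v0 x)) (-⌊v0 x⌋ + m)
    rw [h3]
    simp only [Equiv.Perm.mul_apply]
    rw [← this]
    congr 1
    push_cast
    ring
  rw [h4]
  have h5 : ∀ y, u (u⁻¹ y) = y := fun y => u.apply_symm_apply y
  constructor
  · rw [← hD.strictMono.lt_iff_lt, h5]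
    linarith [hn.1]
  · rw [← hD.strictMono.lt_iff_lt, h5]
    linarith [hn.2]

end expand

end Pool.Agent.Y329.DL
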