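import Pool.Agent.Y329.DL.Path

/-!
Genericity: after an arbitrarily small perturbation the path of a reduced word at a suitable
point consists of points which are pairwise distinct modulo one.
-/

namespace Pool.Agent.Y329.DL

open Real Set Filter Topology

lemma ev_pair {u v : ℝ → ℝ} {u' v' x : ℝ} (hu : HasDerivAt u u' x) (hv : HasDerivAt v v' x)
    (h : dd (u x) (v x) = 0 → u' ≠ v') : ∀ᶠ y in 𝓝[≠] x, dd (u y) (v y) ≠ 0 := by
  have hs : HasDerivAt (fun y => sin (π * (u y - v y)))
      (cos (π * (u x - v x)) * (π * (u' - v'))) x := ((hu.sub hv).const_mul π).sin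
  by_cases h0 : dd (u x) (v x) = 0
  · have h1 : cos (π * (u x - v x)) * (π * (u' - v')) ≠ 0 := by
      refine mul_ne_zero ?_ (mul_ne_zero Real.pi_ne_zero (sub_ne_zero.mpr (h h0)))
      intro hc
      have h2 : sin (π * (u x - v x)) = 0 := by
        unfold dd at h0; exact abs_eq_zero.mp h0
      have := Real.sin_sq_add_cos_sq (π * (u x - v x))
      rw [h2, hc] at this
      norm_num at this
    have h2 : ∀ᶠ y in 𝓝[≠] x, sin (π * (u y - v y)) ≠ 0 := hs.eventually_ne h1
    filter_upwards [h2] with y hy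
    unfold dd
    exact abs_ne_zero.mpr hy
  · have hc : ContinuousAt (fun y => dd (u y) (v y)) x := by
      have := hs.continuousAt
      exact this.abs
    exact (hc.eventually_ne h0).filter_mono nhdsWithin_le_nhds

lemma ev_const {u : ℝ → ℝ} {u' x : ℝ} (hu : HasDerivAt u u' x) (h : u' ≠ 0) (q : ℝ) :
    ∀ᶠ y in 𝓝[≠] x, dd (u y) q ≠ 0 :=
  ev_pair hu (hasDerivAt_const x q) fun _ => h

lemma sin_chain_lt {s : Sys} {w : Wd} {n : ℕ} {p : ℕ → ℝ} (hc : Chain s w n p)
    (hctr : Contr s) {m : ℕ} (hm : m < n) (h0 : (w m).1 = 0)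
    (hV : |sin (π * ept w p m)| < 1 / 4) (hne : sin (π * ept w p m) ≠ 0) :
    ((w m).2 = true → |sin (π * p (m + 1))| < |sin (π * p m)|) ∧
    ((w m).2 = false → |sin (π * p m)| < |sin (π * p (m + 1))|) := by
  have h1 := hc m hm
  rw [h0] at h1
  have h2 := hctr _ hV hne
  rw [h1] at h2
  unfold ept opt at h2
  constructor
  · intro h
    simpa [h] using h2
  · intro h
    simpa [h] using h2

/-- if the path returns at time `t + 1` to the point at time `j0`, one of the edges in between
can be perturbed -/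
lemma exists_good {s : Sys} {w : Wd} {n : ℕ} {p : ℕ → ℝ} (hc : Chain s w n p)
    (hctr : Contr s) (hr : Red w n) {F : Finset ℝ}
    (hF0 : (0 : ℝ) ∈ F) (hFb : ∀ y : ℝ, |sin (π * y)| = 1 / 4 → ∃ q ∈ F, dd y q = 0)
    {t j0 : ℕ} (ht : t < n) (hj0 : j0 ≤ t) (hret : dd (p j0) (p (t + 1)) = 0)
    (hav : ∀ j ≤ t, ∀ q ∈ F, dd (p j) q ≠ 0) :
    ∃ m, j0 ≤ m ∧ m ≤ t ∧ ((w m).1 = 0 → 1 / 4 < |sin (π * ept w p m)|) := by
  by_contra hcon
  push Not at hcon
  have hav' : ∀ j ≤ t + 1, ∀ q ∈ F, dd (p j) q ≠ 0 := by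
    intro j hj q hq h
    rcases Nat.lt_or_ge t j with h1 | h1
    · have : j = t + 1 := by omega
      subst this
      exact hav j0 hj0 q hq (dd_eq_zero_trans hret h)
    · exact hav j h1 q hq h
  have hz : ∀ m, j0 ≤ m → m ≤ t → |sin (π * ept w p m)| < 1 / 4 ∧ sin (π * ept w p m) ≠ 0 := by
    intro m h1 h2
    have h3 := (hcon m h1 h2).2
    have hav2 : ∀ q ∈ F, dd (ept w p m) q ≠ 0 := by
      intro q hq
      unfold ept
      split_ifs
      · exact hav' m (by omega) q hq
      · exact hav' (m + 1) (by omega) q hq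
    constructor
    · refine lt_of_le_of_ne h3 fun h4 => ?_
      obtain ⟨q, hq, hq'⟩ := hFb _ h4
      exact hav2 q hq hq'
    · intro h4
      have := hav2 0 hF0
      rw [dd_zero_right, h4, abs_zero] at this
      exact this rfl
  have hstep : ∀ m, j0 ≤ m → m ≤ t →
      ((w m).2 = true → |sin (π * p (m + 1))| < |sin (π * p m)|) ∧
      ((w m).2 = false → |sin (π * p m)| < |sin (π * p (m + 1))|) := by
    intro m h1 h2
    exact sin_chain_lt hc hctr (by omega) (hcon m h1 h2).1 (hz m h1 h2).1 (hz m h1 h2).2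
  have hsign : ∀ m, j0 ≤ m → m ≤ t → (w m).2 = (w j0).2 := by
    intro m h1
    induction m, h1 using Nat.le_induction with
    | base => intro _; rfl
    | succ m h1 ih =>
      intro h2
      rw [← ih (by omega)]
      refine (hr m (by omega) ?_).symm
      rw [(hcon m h1 (by omega)).1, (hcon (m + 1) (by omega) h2).1]
  have heq := abs_sin_eq_of_dd hret
  by_cases hb : (w j0).2 = true
  · have : ∀ m, j0 ≤ m → m ≤ t → |sin (π * p (m + 1))| < |sin (π * p j0)| := by
      intro m h1
      induction m, h1 using Nat.le_induction with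
      | base => intro h2; exact (hstep j0 le_rfl h2).1 hb
      | succ m h1 ih =>
        intro h2
        have h3 := (hstep (m + 1) (by omega) h2).1 (by rw [hsign (m + 1) (by omega) h2]; exact hb)
        exact h3.trans (ih (by omega))
    have := this t hj0 le_rfl
    rw [heq] at this
    exact lt_irrefl _ this
  · have hb' : (w j0).2 = false := by simpa using hb
    have : ∀ m, j0 ≤ m → m ≤ t → |sin (π * p j0)| < |sin (π * p (m + 1))| := by
      intro m h1
      induction m, h1 using Nat.le_induction with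
      | base => intro h2; exact (hstep j0 le_rfl h2).2 hb'
      | succ m h1 ih =>
        intro h2
        have h3 := (hstep (m + 1) (by omega) h2).2 (by rw [hsign (m + 1) (by omega) h2]; exact hb')
        exact (ih (by omega)).trans h3
    have := this t hj0 le_rfl
    rw [heq] at this
    exact lt_irrefl _ this

/-- existence of a small positive `a` with `M * (exp a - 1) ≤ ε` -/
lemma exists_small_amp {M ε : ℝ} (hε : 0 < ε) :
    ∃ a : ℝ, 0 < a ∧ a ≤ 1 / 4 ∧ M * (exp a - 1) ≤ ε := by
  have hc : Tendsto (fun a : ℝ => M * (exp a - 1)) (𝓝[>] 0) (𝓝 (M * (exp 0 - 1))) := by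
    have : Continuous fun a : ℝ => M * (exp a - 1) := by fun_prop
    exact (this.tendsto 0).mono_left nhdsWithin_le_nhds
  rw [Real.exp_zero, sub_self, mul_zero] at hc
  have h1 : ∀ᶠ a : ℝ in 𝓝[>] 0, M * (exp a - 1) ≤ ε := hc.eventually (Iic_mem_nhds hε)
  have h2 : ∀ᶠ a : ℝ in 𝓝[>] 0, 0 < a := self_mem_nhdsWithin
  have h3 := ev_small (c := 1 / 4) (by norm_num)
  obtain ⟨a, ha1, ha2, ha3⟩ := (h1.and (h2.and h3)).exists
  exact ⟨a, ha2, ha3, ha1⟩

/-- one step: breaking a coincidence of derivatives -/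
lemma break_tie {s : Sys} (hs : Adm s) (hctr : Contr s) {w : Wd} {n : ℕ} (hr : Red w n)
    {F : Finset ℝ} (hF0 : (0 : ℝ) ∈ F)
    (hFb : ∀ y : ℝ, |sin (π * y)| = 1 / 4 → ∃ q ∈ F, dd y q = 0)
    {P : Finset (Fin 3 × ℝ)} (hP : ∀ e ∈ P, e.2 ∈ F) {x : ℝ}
    {t j0 : ℕ} (ht : t < n) (hj0 : j0 ≤ t)
    (hret : dd (pos s w x j0) (pos s w x (t + 1)) = 0)
    (hLD : LD s w (pos s w x) j0 = LD s w (pos s w x) (t + 1))
    (hav : ∀ j ≤ t, ∀ q ∈ F, dd (pos s w x j) q ≠ 0)
    (hd : ∀ i j, i < j → j ≤ t → dd (pos s w x i) (pos s w x j) ≠ 0)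
    {ε : ℝ} (hε : 0 < ε) :
    ∃ s' : Sys, Step P ε s s' ∧ (∀ j ≤ n, pos s' w x j = pos s w x j) ∧
      LD s' w (pos s' w x) j0 ≠ LD s' w (pos s' w x) (t + 1) := by
  classical
  set p := pos s w x with hp
  have hc : Chain s w n p := chain_pos s w n x
  obtain ⟨m, hm1, hm2, hmV⟩ := exists_good hc hctr hr hF0 hFb ht hj0 hret hav
  have hav' : ∀ j ≤ t + 1, ∀ q ∈ F, dd (p j) q ≠ 0 := by
    intro j hj q hq h
    rcases Nat.lt_or_ge t j with h1 | h1
    · have : j = t + 1 := by omega
      subst this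
      exact hav j0 hj0 q hq (dd_eq_zero_trans hret h)
    · exact hav j h1 q hq h
  -- the bound on derivatives
  obtain ⟨M, hM0, hM⟩ : ∃ M, 0 < M ∧ ∀ i x, deriv (s i) x ≤ M := by
    choose M hM0 hM using fun i => (hs i).exists_bound
    refine ⟨max (M 0) (max (M 1) (M 2)), lt_max_of_lt_left (hM0 0), fun i x => ?_⟩
    refine (hM i x).trans ?_
    fin_cases i
    · exact le_max_left _ _
    · exact (le_max_left _ _).trans (le_max_right _ _)
    · exact (le_max_right _ _).trans (le_max_right _ _)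
  obtain ⟨a, ha0, ha4, haM⟩ := exists_small_amp (M := M) (half_pos hε)
  set z := ept w p m with hz
  let F' : Finset ℝ := F ∪ ((Finset.range (n + 1)).image p).filter (fun q => dd z q ≠ 0)
  obtain ⟨s', hst, hval, hF', hother⟩ := perturb (ι := Unit) s hs hM0 hM Finset.univ
    (fun _ => (w m).1) (fun _ => z) (fun _ => a) ha4 ha0.le
    (fun _ _ => by rw [abs_of_pos ha0]) (fun α _ β _ h => absurd (Subsingleton.elim α β) h)
    (fun _ _ h => hmV h) F' (by
      intro _ _ q hq
      rcases Finset.mem_union.mp hq with h | h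
      · rw [hz]
        unfold ept
        split_ifs
        · exact hav' m (by omega) q h
        · exact hav' (m + 1) (by omega) q h
      · exact (Finset.mem_filter.mp h).2) P
    (fun e he => Finset.mem_union_left _ (hP e he)) (half_pos hε)
  have hmem : ∀ j < n, ept w p j ∈ (Finset.range (n + 1)).image p := by
    intro j hj
    unfold ept
    split_ifs
    · exact Finset.mem_image_of_mem p (Finset.mem_range.mpr (by omega))
    · exact Finset.mem_image_of_mem p (Finset.mem_range.mpr (by omega))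
  -- the path is not changed
  have hchain : Chain s' w n p := by
    intro j hj
    rw [← hc j hj]
    by_cases hg : (w j).1 = (w m).1
    · by_cases hzz : dd z (ept w p j) = 0
      · obtain ⟨k, hk⟩ := dd_eq_zero_iff.mp (dd_eq_zero_symm hzz)
        rw [hk, (hst.adm _).per_int, (hs _).per_int, hg]
        have := (hval () (Finset.mem_univ _)).1
        rw [this]
      · have : ept w p j ∈ F' := Finset.mem_union_right _
          (Finset.mem_filter.mpr ⟨hmem j hj, hzz⟩)
        exact (hF' _ _ this).1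
    · rw [hother (w j).1 (fun _ _ h => hg h.symm)]
  have hpos : ∀ j ≤ n, pos s' w x j = p j := by
    intro j hj
    exact (chain_eq_pos hchain j hj).symm
  refine ⟨s', hst.mono (Finset.Subset.refl _) (by linarith), hpos, ?_⟩
  -- derivatives
  have hder : ∀ j ≤ t, j ≠ m → deriv (s' (w j).1) (ept w p j) = deriv (s (w j).1) (ept w p j) := by
    intro j hj hjm
    by_cases hg : (w j).1 = (w m).1
    · have hne : dd z (ept w p j) ≠ 0 := by
        rcases lt_or_gt_of_ne hjm with h | h
        · rw [dd_comm]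
          exact edge_distinct hs hc hr ht hd h hm2 hg
        · exact edge_distinct hs hc hr ht hd h hj hg.symm
      have : ept w p j ∈ F' := Finset.mem_union_right _
          (Finset.mem_filter.mpr ⟨hmem j (by omega), hne⟩)
      exact (hF' _ _ this).2
    · rw [hother (w j).1 (fun _ _ h => hg h.symm)]
  have hept : ∀ j < n, ept w (pos s' w x) j = ept w p j := by
    intro j hj
    unfold ept
    split_ifs
    · exact hpos j (by omega)
    · exact hpos (j + 1) (by omega)
  have hLD1 : LD s' w (pos s' w x) j0 = LD s w p j0 := by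
    unfold LD
    refine Finset.sum_congr rfl fun j hj => ?_
    rw [Finset.mem_range] at hj
    rw [hept j (by omega), hder j (by omega) (by omega)]
  have hLD2 : LD s' w (pos s' w x) (t + 1) = LD s w p (t + 1) + sg (w m).2 * a := by
    unfold LD
    rw [← Finset.add_sum_erase _ _ (Finset.mem_range.mpr (show m < t + 1 by omega)),
      ← Finset.add_sum_erase (Finset.range (t + 1)) _
        (Finset.mem_range.mpr (show m < t + 1 by omega))]
    have h1 : ∑ j ∈ (Finset.range (t + 1)).erase m,
        sg (w j).2 * Real.log (deriv (s' (w j).1) (ept w (pos s' w x) j)) =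
        ∑ j ∈ (Finset.range (t + 1)).erase m,
        sg (w j).2 * Real.log (deriv (s (w j).1) (ept w p j)) := by
      refine Finset.sum_congr rfl fun j hj => ?_
      rw [Finset.mem_erase, Finset.mem_range] at hj
      rw [hept j (by omega), hder j (by omega) hj.1]
    rw [h1, hept m (by omega), (hval () (Finset.mem_univ _)).2]
    ring
  rw [hLD1, hLD2, hLD]
  intro h
  have : sg (w m).2 * a = 0 := by linarith
  rcases mul_eq_zero.mp this with h | h
  · exact sg_ne_zero _ h
  · exact ha0.ne' h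

/-- Lemma G -/
lemma generic (w : Wd) (n : ℕ) (hr : Red w n) (b : ℕ) (hb : b ≤ n) {O : Set ℝ} (hO : IsOpen O)
    (hOne : O.Nonempty) {F : Finset ℝ} (hF0 : (0 : ℝ) ∈ F)
    (hFb : ∀ y : ℝ, |sin (π * y)| = 1 / 4 → ∃ q ∈ F, dd y q = 0)
    {P : Finset (Fin 3 × ℝ)} (hP : ∀ e ∈ P, e.2 ∈ F)
    {s : Sys} (hs : Adm s) (hctr : Contr s) (t : ℕ) :
    t ≤ n → ∀ {ε : ℝ}, 0 < ε → ∃ (s' : Sys) (x : ℝ), Step P ε s s' ∧ pos s' w x b ∈ O ∧
      (∀ j ≤ t, ∀ q ∈ F, dd (pos s' w x j) q ≠ 0) ∧
      (∀ i j, i < j → j ≤ t → dd (pos s' w x i) (pos s' w x j) ≠ 0) := by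
  induction t with
  | zero =>
    intro _ ε hε
    obtain ⟨y, hy⟩ := hOne
    obtain ⟨x0, hx0⟩ := pos_surj (s := s) w b y
    have h1 : ∀ᶠ x in 𝓝[≠] x0, pos s w x b ∈ O := by
      have hc : ContinuousAt (fun x => pos s w x b) x0 := (hasDerivAt_pos hs w x0 b).continuousAt
      have : O ∈ 𝓝 (pos s w x0 b) := hO.mem_nhds (by rw [hx0]; exact hy)
      exact (hc.eventually this).filter_mono nhdsWithin_le_nhds
    have h2 : ∀ᶠ x in 𝓝[≠] x0, ∀ q ∈ F, dd x q ≠ 0 := by
      rw [Filter.eventually_all_finset]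
      intro q _
      exact ev_const (hasDerivAt_id x0) one_ne_zero q
    obtain ⟨x, hx1, hx2⟩ := (h1.and h2).exists
    refine ⟨s, x, Step.refl hε.le hs, hx1, ?_, ?_⟩
    · intro j hj
      have : j = 0 := by omega
      subst this
      exact hx2
    · intro i j hij hj
      omega
  | succ t ih =>
    intro ht ε hε
    obtain ⟨s1, x1, hst1, hO1, hav1, hd1⟩ := ih (by omega) (half_pos hε)
    have hctr1 : Contr s1 := hst1.contr hctr
    -- it suffices to have no tie
    have key : ∀ s2 : Sys, Adm s2 → Step P (ε / 2) s1 s2 →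
        (∀ j ≤ n, pos s2 w x1 j = pos s1 w x1 j) →
        (∀ j ≤ t, dd (pos s2 w x1 j) (pos s2 w x1 (t + 1)) = 0 →
          LD s2 w (pos s2 w x1) j ≠ LD s2 w (pos s2 w x1) (t + 1)) →
        ∃ (s' : Sys) (x : ℝ), Step P ε s s' ∧ pos s' w x b ∈ O ∧
          (∀ j ≤ t + 1, ∀ q ∈ F, dd (pos s' w x j) q ≠ 0) ∧
          (∀ i j, i < j → j ≤ t + 1 → dd (pos s' w x i) (pos s' w x j) ≠ 0) := by
      intro s2 hs2 hst2 hpos hno
      have e1 : ∀ᶠ x in 𝓝[≠] x1, pos s2 w x b ∈ O := by
        have hc : ContinuousAt (fun x => pos s2 w x b) x1 :=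
          (hasDerivAt_pos hs2 w x1 b).continuousAt
        have : O ∈ 𝓝 (pos s2 w x1 b) := hO.mem_nhds (by rw [hpos b hb]; exact hO1)
        exact (hc.eventually this).filter_mono nhdsWithin_le_nhds
      have e2 : ∀ᶠ x in 𝓝[≠] x1, ∀ j ∈ Finset.range (t + 2), ∀ q ∈ F,
          dd (pos s2 w x j) q ≠ 0 := by
        rw [Filter.eventually_all_finset]
        intro j _
        rw [Filter.eventually_all_finset]
        intro q _
        exact ev_const (hasDerivAt_pos hs2 w x1 j) (Real.exp_pos _).ne' q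
      have e3 : ∀ᶠ x in 𝓝[≠] x1, ∀ j ∈ Finset.range (t + 2), ∀ i ∈ Finset.range j,
          dd (pos s2 w x i) (pos s2 w x j) ≠ 0 := by
        rw [Filter.eventually_all_finset]
        intro j hj
        rw [Filter.eventually_all_finset]
        intro i hi
        rw [Finset.mem_range] at hj hi
        refine ev_pair (hasDerivAt_pos hs2 w x1 i) (hasDerivAt_pos hs2 w x1 j) ?_
        intro h0
        rcases Nat.lt_or_ge t j with h1 | h1
        · have hj' : j = t + 1 := by omega
          subst hj'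
          intro h2
          exact hno i (by omega) h0 (Real.exp_injective h2)
        · exfalso
          rw [hpos i (by omega), hpos j (by omega)] at h0
          exact hd1 i j hi h1 h0
      obtain ⟨x, hx1, hx2, hx3⟩ := (e1.and (e2.and e3)).exists
      refine ⟨s2, x, ?_, hx1, ?_, ?_⟩
      · have := hst1.trans hst2
        rwa [add_halves] at this
      · intro j hj
        exact hx2 j (Finset.mem_range.mpr (by omega))
      · intro i j hij hj
        exact hx3 j (Finset.mem_range.mpr (by omega)) i (Finset.mem_range.mpr hij)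
    by_cases htie : ∃ j ≤ t, dd (pos s1 w x1 j) (pos s1 w x1 (t + 1)) = 0 ∧
        LD s1 w (pos s1 w x1) j = LD s1 w (pos s1 w x1) (t + 1)
    · obtain ⟨j0, hj0, hret, hLD⟩ := htie
      obtain ⟨s2, hst2, hpos2, hne⟩ := break_tie hst1.adm hctr1 hr hF0 hFb hP (by omega) hj0
        hret hLD hav1 hd1 (half_pos hε)
      refine key s2 hst2.adm hst2 hpos2 ?_
      intro j hj h0
      by_cases hjj : j = j0
      · subst hjj; exact hne
      · exfalso
        rw [hpos2 j (by omega), hpos2 (t + 1) ht] at h0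
        have h1 : dd (pos s1 w x1 j) (pos s1 w x1 j0) = 0 :=
          dd_eq_zero_trans h0 (dd_eq_zero_symm hret)
        rcases lt_or_gt_of_ne hjj with h | h
        · exact hd1 j j0 h hj0 h1
        · exact hd1 j0 j h hj (dd_eq_zero_symm h1)
    · push Not at htie
      exact key s1 hst1.adm (Step.refl (half_pos hε).le hst1.adm) (fun _ _ => rfl) htie

end Pool.Agent.Y329.DL
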