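import Pool.Agent.Y329.DL.Limit

/-!
The initial system.
-/

namespace Pool.Agent.Y329.DL

open Real Set Filter Topology

/-- the profile -/
noncomputable def hh (t : ℝ) : ℝ := max (sin (π * t) ^ 2 - 1 / 16) 0

noncomputable def KK : ℝ := ∫ t in (0:ℝ)..1, hh t

/-- derivative of the initial first generator -/
noncomputable def phi (t : ℝ) : ℝ := 1 / 2 + (1 / 2) / KK * hh t

noncomputable def gam (x : ℝ) : ℝ := ∫ t in (0:ℝ)..x, phi t

lemma hh_cont : Continuous hh := by unfold hh; fun_prop

lemma hh_nonneg (t : ℝ) : 0 ≤ hh t := le_max_right _ _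

lemma hh_le (t : ℝ) : hh t ≤ 15 / 16 := by
  unfold hh
  refine max_le ?_ (by norm_num)
  have := Real.sin_sq_le_one (π * t)
  linarith

lemma int_sin_sq : ∫ t in (0:ℝ)..1, sin (π * t) ^ 2 = 1 / 2 := by
  have h := intervalIntegral.integral_comp_mul_left (f := fun x => sin x ^ 2) (a := 0) (b := 1)
    Real.pi_ne_zero
  simp only [mul_zero, mul_one] at h
  rw [h, integral_sin_sq]
  simp only [sin_zero, cos_zero, sin_pi, cos_pi, smul_eq_mul]
  have := Real.pi_ne_zero
  field_simp
  ring

lemma KK_lower : 7 / 16 ≤ KK := by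
  have h1 : ∫ t in (0:ℝ)..1, (sin (π * t) ^ 2 - 1 / 16) = 7 / 16 := by
    rw [intervalIntegral.integral_sub, int_sin_sq]
    · simp; norm_num
    · apply Continuous.intervalIntegrable; fun_prop
    · apply Continuous.intervalIntegrable; fun_prop
  rw [← h1]
  apply intervalIntegral.integral_mono_on (by norm_num)
  · apply Continuous.intervalIntegrable; fun_prop
  · exact hh_cont.intervalIntegrable _ _
  · intro t _; exact le_max_left _ _

lemma KK_upper : KK ≤ 1 / 2 := by
  rw [← int_sin_sq]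
  apply intervalIntegral.integral_mono_on (by norm_num)
  · exact hh_cont.intervalIntegrable _ _
  · apply Continuous.intervalIntegrable; fun_prop
  · intro t _
    unfold hh
    refine max_le ?_ (sq_nonneg _)
    linarith

lemma KK_pos : 0 < KK := lt_of_lt_of_le (by norm_num) KK_lower

lemma phi_cont : Continuous phi := by
  have := hh_cont
  unfold phi; fun_prop

lemma phi_ge_half (t : ℝ) : 1 / 2 ≤ phi t := by
  unfold phi
  have := hh_nonneg t
  have := KK_pos
  have : 0 ≤ 1 / 2 / KK * hh t := by positivity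
  linarith

lemma cc_bounds : 1 ≤ 1 / 2 / KK ∧ 1 / 2 / KK ≤ 8 / 7 := by
  have h1 := KK_lower
  have h2 := KK_upper
  have h3 := KK_pos
  constructor
  · rw [le_div_iff₀ h3]; linarith
  · rw [div_le_iff₀ h3]; linarith

lemma phi_le (t : ℝ) : phi t ≤ 11 / 7 := by
  unfold phi
  have h1 := cc_bounds
  have h2 := hh_le t
  have h3 := hh_nonneg t
  have : 1 / 2 / KK * hh t ≤ 8 / 7 * (15 / 16) := by
    apply mul_le_mul h1.2 h2 h3 (by norm_num)
  linarith

lemma hh_per : Function.Periodic hh 1 := by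
  intro t
  unfold hh
  have : π * (t + 1) = π * t + π := by ring
  rw [this, Real.sin_add_pi]
  simp

lemma hh_even (t : ℝ) : hh (-t) = hh t := by
  unfold hh
  rw [mul_neg, Real.sin_neg]; simp

lemma phi_per : Function.Periodic phi 1 := by
  intro t
  unfold phi
  rw [hh_per t]

lemma phi_even (t : ℝ) : phi (-t) = phi t := by
  unfold phi
  rw [hh_even t]

lemma int_phi : ∫ t in (0:ℝ)..1, phi t = 1 := by
  unfold phi
  rw [intervalIntegral.integral_add, intervalIntegral.integral_const_mul]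
  · show (∫ _ in (0:ℝ)..1, (1 / 2 : ℝ)) + 1 / 2 / KK * KK = 1
    have := KK_pos.ne'
    simp
    field_simp
    norm_num
  · apply Continuous.intervalIntegrable; fun_prop
  · apply Continuous.intervalIntegrable
    have := hh_cont
    fun_prop

lemma gam_hasDerivAt (x : ℝ) : HasDerivAt gam (phi x) x :=
  intervalIntegral.integral_hasDerivAt_right (phi_cont.intervalIntegrable _ _)
    (phi_cont.stronglyMeasurableAtFilter _ _) phi_cont.continuousAt

lemma gam_per (x : ℝ) : gam (x + 1) = gam x + 1 := by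
  unfold gam
  rw [← intervalIntegral.integral_add_adjacent_intervals (b := x)
    (phi_cont.intervalIntegrable _ _) (phi_cont.intervalIntegrable _ _)]
  rw [phi_per.intervalIntegral_add_eq x 0, zero_add, int_phi]

lemma gam_zero : gam 0 = 0 := by simp [gam]

lemma gam_neg (x : ℝ) : gam (-x) = - gam x := by
  unfold gam
  have h := intervalIntegral.integral_comp_neg (f := phi) (a := -x) (b := 0)
  rw [neg_neg, neg_zero] at h
  have h2 : ∫ t in (-x)..0, phi (-t) = ∫ t in (-x)..0, phi t := by
    congr 1; funext t; exact phi_even t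
  rw [h2] at h
  rw [intervalIntegral.integral_symm, h]

lemma gam_half : gam (1 / 2) = 1 / 2 := by
  have h1 := gam_per (-(1 / 2))
  rw [gam_neg] at h1
  norm_num at h1
  linarith

lemma sin_mono_abs {t x : ℝ} (htx : |t| ≤ |x|) (hx : |x| ≤ 1 / 2) :
    |sin (π * t)| ≤ |sin (π * x)| := by
  have key : ∀ y : ℝ, |y| ≤ 1 / 2 → |sin (π * y)| = sin (π * |y|) := by
    intro y hy
    have hp := Real.pi_pos
    have h0 : 0 ≤ sin (π * |y|) := by
      apply Real.sin_nonneg_of_nonneg_of_le_pi
      · positivity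
      · have := abs_nonneg y; nlinarith
    rcases abs_cases y with h | h
    · rw [h.1] at h0 ⊢
      exact abs_of_nonneg h0
    · rw [h.1] at h0 ⊢
      rw [mul_neg, Real.sin_neg] at h0 ⊢
      exact abs_of_nonpos (by linarith)
  rw [key t (htx.trans hx), key x hx]
  have hp := Real.pi_pos
  apply Real.sin_le_sin_of_le_of_le_pi_div_two
  · have := abs_nonneg t; nlinarith
  · nlinarith
  · gcongr

lemma gam_lin {x : ℝ} (hx : |x| ≤ 1 / 2) (hx2 : |sin (π * x)| < 1 / 4) : gam x = x / 2 := by
  unfold gam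
  have : ∫ t in (0:ℝ)..x, phi t = ∫ _ in (0:ℝ)..x, (1 / 2 : ℝ) := by
    apply intervalIntegral.integral_congr
    intro t ht
    have h1 : |t| ≤ |x| := by
      have := abs_sub_left_of_mem_uIcc ht
      simpa using this
    have h2 := sin_mono_abs h1 hx
    have h3 : sin (π * t) ^ 2 < 1 / 16 := by
      rw [← sq_abs]
      have : |sin (π * t)| < 1 / 4 := lt_of_le_of_lt h2 hx2
      have h0 := abs_nonneg (sin (π * t))
      nlinarith
    show phi t = 1 / 2
    unfold phi hh
    rw [max_eq_right (by linarith), mul_zero, add_zero]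
  rw [this]
  simp
  ring

lemma phi_mid {y : ℝ} (h1 : 1 / 3 ≤ y) (h2 : y ≤ 2 / 3) : 117 / 100 ≤ phi y := by
  have h3 : sin (π * y) = cos (π * (y - 1 / 2)) := by
    rw [show π * (y - 1 / 2) = π * y - π / 2 by ring, Real.cos_sub_pi_div_two]
  have h4 := Real.one_sub_sq_div_two_le_cos (x := π * (y - 1 / 2))
  have h5 : (π * (y - 1 / 2)) ^ 2 ≤ 0.277 := by
    have hp := Real.pi_lt_d2
    have hp0 := Real.pi_pos
    have h6 : (y - 1 / 2) ^ 2 ≤ 1 / 36 := by nlinarith
    have h7 : π ^ 2 ≤ 9.95 := by nlinarith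
    rw [mul_pow]
    have : 0 ≤ (y - 1 / 2) ^ 2 := by positivity
    nlinarith
  have h6 : 0.861 ≤ sin (π * y) := by rw [h3]; linarith
  have h7 : 0.74 ≤ sin (π * y) ^ 2 := by nlinarith
  have h8 : 0.6775 ≤ hh y := by
    unfold hh
    refine le_trans ?_ (le_max_left _ _)
    linarith
  have h9 := cc_bounds
  unfold phi
  have : 1 * 0.6775 ≤ 1 / 2 / KK * hh y := by
    apply mul_le_mul h9.1 h8 (by norm_num) (by linarith [h9.1])
  linarith

lemma phi_mono : MonotoneOn phi (Icc 0 (1 / 2)) := by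
  intro a ha b hb hab
  have h1 : |sin (π * a)| ≤ |sin (π * b)| := by
    apply sin_mono_abs
    · rw [abs_of_nonneg ha.1, abs_of_nonneg hb.1]; exact hab
    · rw [abs_of_nonneg hb.1]; exact hb.2
  have h2 : sin (π * a) ^ 2 ≤ sin (π * b) ^ 2 := by
    rw [← sq_abs, ← sq_abs (sin (π * b))]
    exact pow_le_pow_left₀ (abs_nonneg _) h1 2
  have h3 : hh a ≤ hh b := by
    unfold hh
    exact max_le_max (by linarith) le_rfl
  unfold phi
  have := cc_bounds.1
  have : (0 : ℝ) ≤ 1 / 2 / KK := by linarith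
  have := mul_le_mul_of_nonneg_left h3 this
  linarith

lemma gam_third : gam (1 / 3) ≤ 0.305 := by
  have h1 : 117 / 100 * (1 / 2 - 1 / 3) ≤ gam (1 / 2) - gam (1 / 3) := by
    refine (convex_Icc (1 / 3 : ℝ) (2 / 3)).mul_sub_le_image_sub_of_le_deriv
      (fun x _ => (gam_hasDerivAt x).continuousAt.continuousWithinAt)
      (fun x _ => (gam_hasDerivAt x).differentiableAt.differentiableWithinAt) ?_ _
      ⟨le_rfl, by norm_num⟩ _ ⟨by norm_num, by norm_num⟩ (by norm_num)
    intro x hx
    have := interior_subset hx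
    rw [(gam_hasDerivAt x).deriv]
    exact phi_mid this.1 this.2
  rw [gam_half] at h1
  norm_num at h1 ⊢
  linarith

lemma gam_conv {x : ℝ} (h0 : 0 ≤ x) (h1 : x ≤ 1 / 3) : gam x ≤ 0.915 * x := by
  have hconv : ConvexOn ℝ (Icc 0 (1 / 2)) gam := by
    apply MonotoneOn.convexOn_of_deriv (convex_Icc _ _)
    · exact fun x _ => (gam_hasDerivAt x).continuousAt.continuousWithinAt
    · exact fun x _ => (gam_hasDerivAt x).differentiableAt.differentiableWithinAt
    · intro a ha b hb hab
      rw [(gam_hasDerivAt a).deriv, (gam_hasDerivAt b).deriv]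
      exact phi_mono (interior_subset ha) (interior_subset hb) hab
  have m1 : (1 / 3 : ℝ) ∈ Icc (0 : ℝ) (1 / 2) := ⟨by norm_num, by norm_num⟩
  have m2 : (0 : ℝ) ∈ Icc (0 : ℝ) (1 / 2) := ⟨le_rfl, by norm_num⟩
  have w1 : 0 ≤ 3 * x := by linarith
  have w2 : 0 ≤ 1 - 3 * x := by linarith
  have h2 := hconv.2 m1 m2 w1 w2 (by ring)
  simp only [smul_eq_mul, mul_zero, add_zero, gam_zero] at h2
  have h3 := gam_third
  have h4 : 3 * x * (1 / 3) = x := by ring
  rw [h4] at h2
  nlinarith

/-- the properties of the final system -/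
structure Final (δ : ℝ) (S : Sys) : Prop where
  adm : Adm S
  g_lin : ∀ x, |x| ≤ 1 / 20 → S 0 x = x / 2
  g_half : S 0 (1 / 2) = 1 / 2
  g_exp : ∀ y ∈ Icc (1 / 3 : ℝ) (2 / 3), 116 / 100 ≤ deriv (S 0) y
  g_dyn1 : ∀ x, 0 < x → x < 1 / 2 → S 0 x < x
  g_dyn2 : ∀ x, -(1 / 2) < x → x < 0 → x < S 0 x
  f_zero : S 1 0 = 0
  f_der : deriv (S 1) 0 = 1
  f_nt : ∀ O : Set ℝ, IsOpen O → O.Nonempty → ∃ x ∈ O, dd x (S 1 x) ≠ 0
  r_close : ∀ x, |S 2 x - (x + 1 / 12)| ≤ 1 / 500
  r_der : ∀ x, |deriv (S 2) x - 1| ≤ 1 / 500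
  disc : ∀ l : List (Fin 3 × Bool), l ≠ [] → Red (toW l) l.length →
        ∃ p : ℕ → ℝ, Chain S (toW l) l.length p ∧ δ ≤ |LD S (toW l) p l.length|

lemma sin_small {x : ℝ} (hx : |x| ≤ 1 / 20) : |sin (π * x)| < 1 / 4 := by
  have h1 : |sin (π * x)| ≤ |π * x| := Real.abs_sin_le_abs
  rw [abs_mul, abs_of_pos Real.pi_pos] at h1
  have := Real.pi_lt_d2
  have : π * |x| ≤ 3.15 * (1 / 20) := by
    apply mul_le_mul this.le hx (abs_nonneg _) (by norm_num)
  norm_num at this ⊢
  linarith

theorem exists_final : ∃ S : Sys, Final (1 / 10000) S := by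
  obtain ⟨g, hg, hgD, hg'⟩ := exists_perm gam_hasDerivAt phi_cont
    (fun x => lt_of_lt_of_le (by norm_num) (phi_ge_half x)) gam_per
  obtain ⟨r, hr, hrD, hr'⟩ := exists_perm (f := fun x => x + 1 / 12) (f' := fun _ => 1)
    (fun x => (hasDerivAt_id x).add_const _) continuous_const (fun _ => one_pos)
    (fun x => by ring)
  let s0 : Sys := ![g, 1, r]
  have e0 : s0 0 = g := rfl
  have e1 : s0 1 = 1 := rfl
  have e2 : s0 2 = r := rfl
  have h1d : ∀ x, deriv (1 : Equiv.Perm ℝ) x = 1 := by
    intro x; rw [Equiv.Perm.coe_one]; simp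
  have hadm : Adm s0 := by
    intro i
    fin_cases i
    · exact hgD
    · exact IsD1.one
    · exact hrD
  have hctr : Contr s0 := by
    intro y hy hy0
    rw [e0]
    -- reduce to `|y| ≤ 1 / 2`
    have hy1 : |y - round y| ≤ 1 / 2 := abs_sub_round y
    have hdd : dd y (y - round y) = 0 := dd_eq_zero_iff.mpr ⟨round y, by ring⟩
    have hs := abs_sin_eq_of_dd hdd
    have hdd2 : dd (g y) (g (y - round y)) = 0 := hgD.dd_map.mpr hdd
    have hs2 := abs_sin_eq_of_dd hdd2
    set t := y - round y with ht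
    rw [hs2, hs, hg, gam_lin hy1 (by rw [← hs]; exact hy)]
    have ht0 : sin (π * t) ≠ 0 := by
      intro h
      rw [h, abs_zero, abs_eq_zero] at hs
      exact hy0 hs
    have h2 : sin (π * t) = 2 * sin (π * (t / 2)) * cos (π * (t / 2)) := by
      rw [← Real.sin_two_mul]; congr 1; ring
    have h3 : sin (π * (t / 2)) ≠ 0 := by
      intro h; rw [h] at h2; simp at h2; exact ht0 h2
    have h4 : 1 / 2 < cos (π * (t / 2)) := by
      have h5 := Real.one_sub_sq_div_two_le_cos (x := π * (t / 2))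
      have h6 : (π * (t / 2)) ^ 2 ≤ 0.63 := by
        have hp := Real.pi_lt_d2
        have hp0 := Real.pi_pos
        have h7 : π ^ 2 ≤ 9.95 := by nlinarith
        have h8 : (t / 2) ^ 2 ≤ 1 / 16 := by
          rw [abs_le] at hy1
          nlinarith [hy1.1, hy1.2]
        rw [mul_pow]
        have : 0 ≤ (t / 2) ^ 2 := by positivity
        nlinarith
      linarith
    rw [h2, abs_mul, abs_mul, abs_of_pos (show (0 : ℝ) < 2 by norm_num),
      abs_of_pos (show (0 : ℝ) < cos (π * (t / 2)) by linarith)]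
    have : 0 < |sin (π * (t / 2))| := abs_pos.mpr h3
    nlinarith
  have hHyp : Hyp (17 / 100) s0 := by
    refine ⟨hadm, hctr, ?_, ?_, ?_⟩
    · intro i x
      fin_cases i
      · show deriv g x ≤ _
        rw [hg']; have := phi_le x; norm_num at this ⊢; linarith
      · show deriv (1 : Equiv.Perm ℝ) x ≤ _
        rw [h1d]; norm_num
      · show deriv r x ≤ _
        rw [hr']; norm_num
    · rw [e0, hg, gam_half]
    · intro y hy
      rw [e0, hg']
      have := phi_mid (by linarith [hy.1]) hy.2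
      norm_num at this ⊢
      linarith
  obtain ⟨S, hS1, hS2, hS3, hS4, hS5, hS6, hS7⟩ := core (δ := 1 / 10000) (by norm_num)
    (by norm_num) (c0 := 17 / 100) (by norm_num) s0 hHyp (m := 1 / 2) (by norm_num)
    (by
      intro i x
      fin_cases i
      · show _ ≤ deriv g x
        rw [hg']; exact phi_ge_half x
      · show _ ≤ deriv (1 : Equiv.Perm ℝ) x
        rw [h1d]; norm_num
      · show _ ≤ deriv r x
        rw [hr']; norm_num)
    {((0 : Fin 3), (1 / 2 : ℝ)), ((1 : Fin 3), (0 : ℝ))} (by simp)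
  have hghalf : S 0 (1 / 2) = 1 / 2 := by
    have := (hS4 ((0 : Fin 3), (1 / 2 : ℝ)) (by simp)).1
    simp only at this
    rw [this, e0, hg, gam_half]
  have hglin : ∀ x, |x| ≤ 1 / 20 → S 0 x = x / 2 := by
    intro x hx
    rw [hS5 x (sin_small hx), e0, hg, gam_lin (hx.trans (by norm_num)) (sin_small hx)]
  have hgexp : ∀ y ∈ Icc (1 / 3 : ℝ) (2 / 3), 116 / 100 ≤ deriv (S 0) y := by
    intro y hy
    have h1 := hS2 0 y
    rw [e0, hg', abs_le] at h1
    have h2 := phi_mid hy.1 hy.2
    norm_num at h1 h2 ⊢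
    linarith [h1.1]
  have hgc : ∀ x, |S 0 x - gam x| ≤ 12 * (1 / 10000) := by
    intro x
    have := hS3 0 x
    rwa [e0, hg] at this
  refine ⟨S, hS1, hglin, hghalf, hgexp, ?_, ?_, ?_, ?_, hS7, ?_, ?_, hS6⟩
  · intro x hx0 hx1
    rcases le_or_gt x (1 / 20) with h | h
    · rw [hglin x (by rw [abs_of_pos hx0]; exact h)]; linarith
    · rcases le_or_gt x (1 / 3) with h' | h'
      · have h2 := gam_conv hx0.le h'
        have h3 := hgc x
        rw [abs_le] at h3
        norm_num at h2 h3
        linarith [h3.2]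
      · have h2 : 116 / 100 * (1 / 2 - x) ≤ S 0 (1 / 2) - S 0 x := by
          refine (convex_Icc (1 / 3 : ℝ) (2 / 3)).mul_sub_le_image_sub_of_le_deriv
            (hS1 0).continuous.continuousOn (hS1 0).differentiable.differentiableOn ?_ _
            ⟨h'.le, by linarith⟩ _ ⟨by norm_num, by norm_num⟩ hx1.le
          intro y hy
          exact hgexp y (interior_subset hy)
        rw [hghalf] at h2
        linarith
  · intro x hx0 hx1
    rcases le_or_gt (-(1 / 20)) x with h | h
    · rw [hglin x (by rw [abs_of_neg hx1]; linarith)]; linarith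
    · rcases le_or_gt (-(1 / 3)) x with h' | h'
      · have h2 := gam_conv (x := -x) (by linarith) (by linarith)
        rw [gam_neg] at h2
        have h3 := hgc x
        rw [abs_le] at h3
        norm_num at h2 h3
        linarith [h3.1]
      · have h2 : 116 / 100 * (x + 1 - 1 / 2) ≤ S 0 (x + 1) - S 0 (1 / 2) := by
          refine (convex_Icc (1 / 3 : ℝ) (2 / 3)).mul_sub_le_image_sub_of_le_deriv
            (hS1 0).continuous.continuousOn (hS1 0).differentiable.differentiableOn ?_ _
            ⟨by norm_num, by norm_num⟩ _ ⟨by linarith, by linarith⟩ (by linarith)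
          intro y hy
          exact hgexp y (interior_subset hy)
        rw [hghalf, (hS1 0).per] at h2
        linarith
  · have := (hS4 ((1 : Fin 3), (0 : ℝ)) (by simp)).1
    simp only at this
    rw [this, e1]; simp
  · have := (hS4 ((1 : Fin 3), (0 : ℝ)) (by simp)).2
    simp only at this
    rw [this, e1, h1d]
  · intro x
    have := hS3 2 x
    rw [e2, hr] at this
    exact this.trans (by norm_num)
  · intro x
    have := hS2 2 x
    rw [e2, hr'] at this
    exact this.trans (by norm_num)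

end Pool.Agent.Y329.DL
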