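import Pool.Agent.Y329.DL.Stage2

/-!
The limit system.
-/

namespace Pool.Agent.Y329.DL

open Real Set Filter Topology

/-- telescoping limits -/
lemma tele_tendsto {f : ℕ → ℝ} {u : ℕ → ℝ} (hu : Summable u)
    (hf : ∀ n, |f (n + 1) - f n| ≤ u n) :
    Tendsto f atTop (𝓝 (f 0 + ∑' n, (f (n + 1) - f n))) ∧
      |f 0 + (∑' n, (f (n + 1) - f n)) - f 0| ≤ ∑' n, u n := by
  have hs : Summable fun n => f (n + 1) - f n :=
    Summable.of_norm_bounded hu fun n => by rw [Real.norm_eq_abs]; exact hf n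
  constructor
  · have h1 := hs.hasSum.tendsto_sum_nat
    have h2 : (fun n => ∑ i ∈ Finset.range n, (f (i + 1) - f i)) = fun n => f n - f 0 := by
      funext n; exact Finset.sum_range_sub f n
    rw [h2] at h1
    have h3 := h1.const_add (f 0)
    simpa using h3
  · rw [add_sub_cancel_left]
    exact tsum_of_norm_bounded hu.hasSum fun n => by rw [Real.norm_eq_abs]; exact hf n

theorem core {δ : ℝ} (hδ : 0 < δ) (hδ1 : δ ≤ 1 / 4) {c0 : ℝ} (hc0 : 12 * δ ≤ c0) (s0 : Sys)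
    (h0 : Hyp c0 s0) {m : ℝ} (hm : 12 * δ < m) (hlow : ∀ i x, m ≤ deriv (s0 i) x)
    (P0 : Finset (Fin 3 × ℝ)) (hP0 : ((0 : Fin 3), (1 / 2 : ℝ)) ∈ P0) :
    ∃ S : Sys, Adm S ∧ (∀ i x, |deriv (S i) x - deriv (s0 i) x| ≤ 12 * δ) ∧
      (∀ i x, |S i x - s0 i x| ≤ 12 * δ) ∧
      (∀ e ∈ P0, S e.1 e.2 = s0 e.1 e.2 ∧ deriv (S e.1) e.2 = deriv (s0 e.1) e.2) ∧
      (∀ x, |sin (π * x)| < 1 / 4 → S 0 x = s0 0 x) ∧
      (∀ l : List (Fin 3 × Bool), l ≠ [] → Red (toW l) l.length →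
        ∃ p : ℕ → ℝ, Chain S (toW l) l.length p ∧ δ ≤ |LD S (toW l) p l.length|) ∧
      (∀ O : Set ℝ, IsOpen O → O.Nonempty → ∃ x ∈ O, dd x (S 1 x) ≠ 0) := by
  classical
  -- enumeration of the rational intervals
  have : Nonempty {q : ℚ × ℚ // q.1 < q.2} := ⟨⟨(0, 1), by norm_num⟩⟩
  obtain ⟨q, hq⟩ := exists_surjective_nat {q : ℚ × ℚ // q.1 < q.2}
  let O : ℕ → Set ℝ := fun k => Ioo (((q k).1.1 : ℚ) : ℝ) (((q k).1.2 : ℚ) : ℝ)
  have hO : ∀ k, IsOpen (O k) := fun k => isOpen_Ioo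
  have hOne : ∀ k, (O k).Nonempty := by
    intro k
    rw [Set.nonempty_Ioo]
    exact_mod_cast (q k).2
  -- the recursion
  let c : ℕ → ℝ := fun k => c0 - 12 * δ * (1 - 1 / 2 ^ k)
  have hc : ∀ k, 6 * δ / 2 ^ k ≤ c k := by
    intro k
    show 6 * δ / 2 ^ k ≤ c0 - 12 * δ * (1 - 1 / 2 ^ k)
    have h2 : (0 : ℝ) < 1 / 2 ^ k := by positivity
    have h3 : 6 * δ / 2 ^ k = 6 * δ * (1 / 2 ^ k) := by ring
    rw [h3]
    nlinarith
  have hcs : ∀ k, c k - 6 * δ / 2 ^ k = c (k + 1) := by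
    intro k
    show c0 - 12 * δ * (1 - 1 / 2 ^ k) - 6 * δ / 2 ^ k = c0 - 12 * δ * (1 - 1 / 2 ^ (k + 1))
    rw [pow_succ]
    field_simp
    ring
  have hstep : ∀ (k : ℕ) (X : Sys × Finset (Fin 3 × ℝ)), Hyp (c k) X.1 ∧ P0 ⊆ X.2 →
      ∃ Y : Sys × Finset (Fin 3 × ℝ), (Hyp (c (k + 1)) Y.1 ∧ P0 ⊆ Y.2) ∧
        X.2 ⊆ Y.2 ∧ Step X.2 (6 * δ / 2 ^ k) X.1 Y.1 ∧
      (∀ l : List (Fin 3 × Bool), 4 ^ k ≤ l.length → l.length < 4 ^ (k + 1) →
        Red (toW l) l.length → ∃ p : ℕ → ℝ, Chain Y.1 (toW l) l.length p ∧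
          (∀ j < l.length, ((toW l j).1, ept (toW l) p j) ∈ Y.2) ∧
          δ ≤ |LD Y.1 (toW l) p l.length|) ∧
      ∃ x ∈ O k, ((1 : Fin 3), x) ∈ Y.2 ∧ dd x (Y.1 1 x) ≠ 0 := by
    intro k X hX
    obtain ⟨s', P', h1, h2, h3, h4⟩ := stage k hδ hδ1 hX.1 (hc k) (hX.2 hP0) (hO k) (hOne k)
    refine ⟨(s', P'), ⟨?_, hX.2.trans h1⟩, h1, h2, h3, h4⟩
    have := hX.1.step h2 (hX.2 hP0)
    rw [hcs] at this
    exact this
  choose! next hnext1 hnext2 hnext3 hnext4 hnext5 using hstep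
  let X : ℕ → Sys × Finset (Fin 3 × ℝ) := fun n => Nat.rec (s0, P0) (fun k Y => next k Y) n
  have hXs : ∀ k, X (k + 1) = next k (X k) := fun k => rfl
  have hX : ∀ k, Hyp (c k) (X k).1 ∧ P0 ⊆ (X k).2 := by
    intro k
    induction k with
    | zero =>
      refine ⟨?_, Finset.Subset.refl _⟩
      show Hyp (c0 - 12 * δ * (1 - 1 / 2 ^ 0)) s0
      have : c0 - 12 * δ * (1 - 1 / 2 ^ 0) = c0 := by norm_num
      rw [this]; exact h0
    | succ k ih =>
      rw [hXs]; exact hnext1 k (X k) ih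
  have hsub : ∀ k, (X k).2 ⊆ (X (k + 1)).2 := fun k => by
    rw [hXs]; exact hnext2 k (X k) (hX k)
  have hst : ∀ k, Step (X k).2 (6 * δ / 2 ^ k) (X k).1 (X (k + 1)).1 := fun k => by
    rw [hXs]; exact hnext3 k (X k) (hX k)
  have hword : ∀ k, ∀ l : List (Fin 3 × Bool), 4 ^ k ≤ l.length → l.length < 4 ^ (k + 1) →
        Red (toW l) l.length → ∃ p : ℕ → ℝ, Chain (X (k + 1)).1 (toW l) l.length p ∧
          (∀ j < l.length, ((toW l j).1, ept (toW l) p j) ∈ (X (k + 1)).2) ∧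
          δ ≤ |LD (X (k + 1)).1 (toW l) p l.length| := fun k => by
    rw [hXs]; exact hnext4 k (X k) (hX k)
  have hnt : ∀ k, ∃ x ∈ O k, ((1 : Fin 3), x) ∈ (X (k + 1)).2 ∧ dd x ((X (k + 1)).1 1 x) ≠ 0 :=
    fun k => by rw [hXs]; exact hnext5 k (X k) (hX k)
  have hmono : ∀ k n, k ≤ n → (X k).2 ⊆ (X n).2 := by
    intro k n hkn
    induction n, hkn using Nat.le_induction with
    | base => exact Finset.Subset.refl _
    | succ n _ ih => exact ih.trans (hsub n)
  have hpersist : ∀ k, ∀ e ∈ (X k).2, ∀ n, k ≤ n → (X n).1 e.1 e.2 = (X k).1 e.1 e.2 ∧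
      deriv ((X n).1 e.1) e.2 = deriv ((X k).1 e.1) e.2 := by
    intro k e he n hkn
    induction n, hkn using Nat.le_induction with
    | base => exact ⟨rfl, rfl⟩
    | succ n hn ih =>
      have h1 := (hst n).prot e (hmono k n hn he)
      exact ⟨h1.1.trans ih.1, h1.2.trans ih.2⟩
  -- summability
  let u : ℕ → ℝ := fun n => 6 * δ / 2 ^ n
  have hgeo : HasSum (fun n : ℕ => (1 / 2 : ℝ) ^ n) 2 := hasSum_geometric_two
  have hu' : HasSum u (6 * δ * 2) := by
    have h1 := hgeo.mul_left (6 * δ)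
    have h2 : (fun n : ℕ => 6 * δ * (1 / 2 : ℝ) ^ n) = u := by
      funext n
      show 6 * δ * (1 / 2 : ℝ) ^ n = 6 * δ / 2 ^ n
      rw [one_div, inv_pow]; rfl
    rwa [h2] at h1
  have hu : Summable u := hu'.summable
  have husum : ∑' n, u n = 12 * δ := by rw [hu'.tsum_eq]; ring
  -- the limits
  let L : Fin 3 → ℝ → ℝ := fun i x =>
    (X 0).1 i x + ∑' n, ((X (n + 1)).1 i x - (X n).1 i x)
  let D : Fin 3 → ℝ → ℝ := fun i x =>
    deriv ((X 0).1 i) x + ∑' n, (deriv ((X (n + 1)).1 i) x - deriv ((X n).1 i) x)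
  have hL := fun i x => tele_tendsto (f := fun n => (X n).1 i x) hu (fun n => (hst n).d0 i x)
  have hD := fun i x => tele_tendsto (f := fun n => deriv ((X n).1 i) x) hu
    (fun n => (hst n).d1 i x)
  have hLt : ∀ i x, Tendsto (fun n => (X n).1 i x) atTop (𝓝 (L i x)) := fun i x => (hL i x).1
  have hDt : ∀ i x, Tendsto (fun n => deriv ((X n).1 i) x) atTop (𝓝 (D i x)) :=
    fun i x => (hD i x).1
  have hLb : ∀ i x, |L i x - s0 i x| ≤ 12 * δ := fun i x => by
    rw [← husum]; exact (hL i x).2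
  have hDb : ∀ i x, |D i x - deriv (s0 i) x| ≤ 12 * δ := fun i x => by
    rw [← husum]; exact (hD i x).2
  have hadm : ∀ n, Adm (X n).1 := fun n => (hX n).1.adm
  have hLD : ∀ i x, HasDerivAt (L i) (D i x) x := by
    intro i x
    refine ((hadm 0 i).hasDerivAt x).add ?_
    refine hasDerivAt_tsum (𝕜 := ℝ) (F := ℝ) (u := u)
      (g := fun n y => (X (n + 1)).1 i y - (X n).1 i y)
      (g' := fun n y => deriv ((X (n + 1)).1 i) y - deriv ((X n).1 i) y) (y₀ := 0) hu
      (fun n y => ?_) (fun n y => ?_) ?_ x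
    · exact ((hadm (n + 1) i).hasDerivAt y).sub ((hadm n i).hasDerivAt y)
    · rw [Real.norm_eq_abs]; exact (hst n).d1 i y
    · exact Summable.of_norm_bounded hu fun n => by
        rw [Real.norm_eq_abs]; exact (hst n).d0 i 0
  have hDc : ∀ i, Continuous (D i) := by
    intro i
    refine (hadm 0 i).continuous_deriv.add ?_
    refine continuous_tsum (u := u) (fun n => ?_) hu (fun n y => ?_)
    · exact (hadm (n + 1) i).continuous_deriv.sub (hadm n i).continuous_deriv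
    · rw [Real.norm_eq_abs]; exact (hst n).d1 i y
  have hDpos : ∀ i x, 0 < D i x := by
    intro i x
    have h1 := hDb i x
    have h2 := hlow i x
    rw [abs_le] at h1
    linarith [h1.1]
  have hLper : ∀ i x, L i (x + 1) = L i x + 1 := by
    intro i x
    have h1 := hLt i (x + 1)
    have h2 := (hLt i x).add_const 1
    have h3 : (fun n => (X n).1 i (x + 1)) = fun n => (X n).1 i x + 1 := by
      funext n; exact (hadm n i).per x
    rw [h3] at h1
    exact tendsto_nhds_unique h1 h2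
  choose S hS1 hS2 hS3 using fun i => exists_perm (hLD i) (hDc i) (hDpos i) (hLper i)
  have hSe : ∀ k, ∀ e ∈ (X k).2, S e.1 e.2 = (X k).1 e.1 e.2 ∧
      deriv (S e.1) e.2 = deriv ((X k).1 e.1) e.2 := by
    intro k e he
    rw [hS1, hS3]
    constructor
    · refine tendsto_nhds_unique (hLt e.1 e.2) ?_
      refine tendsto_const_nhds.congr' ?_
      filter_upwards [eventually_ge_atTop k] with n hn
      exact (hpersist k e he n hn).1.symm
    · refine tendsto_nhds_unique (hDt e.1 e.2) ?_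
      refine tendsto_const_nhds.congr' ?_
      filter_upwards [eventually_ge_atTop k] with n hn
      exact (hpersist k e he n hn).2.symm
  refine ⟨S, hS2, ?_, ?_, ?_, ?_, ?_, ?_⟩
  · intro i x
    rw [hS3]; exact hDb i x
  · intro i x
    rw [hS1]; exact hLb i x
  · intro e he
    exact hSe 0 e he
  · intro x hx
    rw [hS1]
    refine tendsto_nhds_unique (hLt 0 x) ?_
    refine tendsto_const_nhds.congr' ?_
    refine Filter.Eventually.of_forall fun n => ?_
    show s0 0 x = (X n).1 0 x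
    induction n with
    | zero => rfl
    | succ n ih => rw [(hst n).rig x hx]; exact ih
  · intro l hl hred
    have hlen : 1 ≤ l.length := by
      have := List.length_pos_iff.mpr hl
      omega
    -- the stage of the word
    have hk1 : 4 ^ (Nat.log 4 l.length) ≤ l.length := Nat.pow_log_le_self 4 (by omega)
    have hk2 : l.length < 4 ^ (Nat.log 4 l.length + 1) := Nat.lt_pow_succ_log_self (by norm_num) _
    obtain ⟨p, hp1, hp2, hp3⟩ := hword _ l hk1 hk2 hred
    refine ⟨p, ?_, ?_⟩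
    · intro j hj
      rw [← hp1 j hj]
      exact (hSe (Nat.log 4 l.length + 1) ((toW l j).1, ept (toW l) p j) (hp2 j hj)).1
    · have : LD S (toW l) p l.length = LD (X (Nat.log 4 l.length + 1)).1 (toW l) p l.length := by
        unfold LD
        refine Finset.sum_congr rfl fun j hj => ?_
        rw [Finset.mem_range] at hj
        have h9 := (hSe (Nat.log 4 l.length + 1) ((toW l j).1, ept (toW l) p j) (hp2 j hj)).2
        simp only at h9
        rw [h9]
      rw [this]; exact hp3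
  · intro U hU hUne
    obtain ⟨y, hy⟩ := hUne
    obtain ⟨r, hr, hball⟩ := Metric.isOpen_iff.mp hU y hy
    obtain ⟨a, ha1, ha2⟩ := exists_rat_btwn (show y - r < y by linarith)
    obtain ⟨b, hb1, hb2⟩ := exists_rat_btwn (show y < y + r by linarith)
    have hab : a < b := by
      have : (a : ℝ) < b := ha2.trans hb1
      exact_mod_cast this
    obtain ⟨k, hk⟩ := hq ⟨(a, b), hab⟩
    obtain ⟨x, hx1, hx2, hx3⟩ := hnt k
    refine ⟨x, ?_, ?_⟩
    · apply hball
      have : x ∈ Ioo (((q k).1.1 : ℚ) : ℝ) (((q k).1.2 : ℚ) : ℝ) := hx1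
      rw [hk] at this
      rw [Real.ball_eq_Ioo]
      exact ⟨ha1.trans this.1, this.2.trans hb2⟩
    · have h9 := (hSe (k + 1) ((1 : Fin 3), x) hx2).1
      simp only at h9
      rw [h9]; exact hx3

end Pool.Agent.Y329.DL
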