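import Pool.Agent.Y329.DL.Dyn

/-!
Sequences converging to the identity on arcs.
-/

namespace Pool.Agent.Y329.DL

open Real Set Filter Topology

lemma unif_of_tendsto {F : ℕ → ℝ → ℝ} {f : ℝ → ℝ} {a b : ℝ} (hf : Continuous f)
    (h : ∀ x ∈ Icc a b, Tendsto (fun p : ℕ × ℝ => F p.1 p.2) (atTop ×ˢ 𝓝[Icc a b] x) (𝓝 (f x))) :
    TendstoUniformlyOn F f atTop (Icc a b) := by
  rw [← tendstoLocallyUniformlyOn_iff_tendstoUniformlyOn_of_compact isCompact_Icc,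
    tendstoLocallyUniformlyOn_iff_forall_tendsto]
  intro x hx
  have h1 : Tendsto (fun p : ℕ × ℝ => f p.2) (atTop ×ˢ 𝓝[Icc a b] x) (𝓝 (f x)) := by
    have : Tendsto (fun p : ℕ × ℝ => p.2) ((atTop : Filter ℕ) ×ˢ 𝓝[Icc a b] x) (𝓝 x) :=
      tendsto_snd.mono_right nhdsWithin_le_nhds
    exact (hf.tendsto x).comp this
  have h2 := h1.prodMk_nhds (h x hx)
  exact h2.mono_right (nhds_le_uniformity (f x))

section

variable {δ : ℝ} {S : Sys}

lemma f_near (hS : Final δ S) {ε : ℝ} (hε : 0 < ε) :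
    ∃ η > 0, ∀ τ, |τ| ≤ η → |S 1 τ - τ| ≤ ε * |τ| ∧ |deriv (S 1) τ - 1| ≤ ε := by
  have hc := (hS.adm 1).continuous_deriv.continuousAt (x := 0)
  rw [Metric.continuousAt_iff] at hc
  obtain ⟨η, hη, H⟩ := hc ε hε
  rw [hS.f_der] at H
  have hd : ∀ τ, |τ| ≤ η / 2 → |deriv (S 1) τ - 1| ≤ ε := by
    intro τ hτ
    have := H (x := τ) (by rw [Real.dist_eq, sub_zero]; linarith)
    rw [Real.dist_eq] at this
    exact this.le
  refine ⟨η / 2, half_pos hη, fun τ hτ => ⟨?_, hd τ hτ⟩⟩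
  have h1 : ∀ y ∈ Icc (-(η / 2)) (η / 2), ‖deriv (fun x => S 1 x - x) y‖ ≤ ε := by
    intro y hy
    have h2 : HasDerivAt (fun x => S 1 x - x) (deriv (S 1) y - 1) y :=
      ((hS.adm 1).hasDerivAt y).sub (hasDerivAt_id y)
    rw [h2.deriv, Real.norm_eq_abs]
    exact hd y (abs_le.mpr hy)
  have h2 := (convex_Icc (-(η / 2)) (η / 2)).norm_image_sub_le_of_norm_deriv_le
    (f := fun x => S 1 x - x) (C := ε) (x := 0) (y := τ)
    (fun y _ => (((hS.adm 1).hasDerivAt y).sub (hasDerivAt_id y)).differentiableAt) h1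
    ⟨by linarith, by linarith⟩ (abs_le.mp hτ)
  simp only [hS.f_zero, sub_zero, Real.norm_eq_abs] at h2
  exact h2

lemma g_pow (hS : Final δ S) (m : ℤ) (n : ℕ) {t : ℝ} (ht : |t| ≤ 1 / 20) :
    ((S 0) ^ n) (m + t) = m + t / 2 ^ n := by
  induction n with
  | zero => simp
  | succ n ih =>
    rw [pow_succ', Equiv.Perm.mul_apply, ih]
    have h1 : |t / 2 ^ n| ≤ 1 / 20 := by
      rw [abs_div, abs_of_pos (show (0 : ℝ) < 2 ^ n by positivity)]
      exact (div_le_self (abs_nonneg _) (one_le_pow₀ (by norm_num))).trans ht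
    have h2 := (hS.adm 0).per_int (t / 2 ^ n) m
    rw [add_comm, h2, hS.g_lin _ h1, pow_succ]
    ring

lemma G_formula (hS : Final δ S) (m : ℤ) : ∃ N : ℕ, ∀ n ≥ N, ∀ t : ℝ, |t| ≤ 1 / 40 →
    (((S 0) ^ n)⁻¹ * S 1 * (S 0) ^ n) (m + t) = m + 2 ^ n * S 1 (t / 2 ^ n) := by
  obtain ⟨η, hη, H⟩ := f_near hS one_pos
  obtain ⟨N, hN⟩ := exists_pow_lt_of_lt_one hη (show (1 / 2 : ℝ) < 1 by norm_num)
  refine ⟨N, fun n hn t ht => ?_⟩
  have h2n : (0 : ℝ) < 2 ^ n := by positivity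
  have hτ : |t / 2 ^ n| ≤ η := by
    rw [abs_div, abs_of_pos h2n]
    have h1 : |t| / 2 ^ n ≤ 1 / 2 ^ n := by gcongr; linarith
    have h2 : (1 : ℝ) / 2 ^ n ≤ (1 / 2) ^ N := by
      rw [one_div_pow]
      apply one_div_le_one_div_of_le (by positivity)
      exact pow_le_pow_right₀ (by norm_num) hn
    linarith
  have h3 := (H _ hτ).1
  have h4 : |2 ^ n * S 1 (t / 2 ^ n)| ≤ 1 / 20 := by
    have h5 : |S 1 (t / 2 ^ n)| ≤ 2 * |t / 2 ^ n| := by
      have : S 1 (t / 2 ^ n) = (S 1 (t / 2 ^ n) - t / 2 ^ n) + t / 2 ^ n := by ring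
      rw [this]
      refine (abs_add_le _ _).trans ?_
      linarith
    rw [abs_mul, abs_of_pos h2n]
    calc 2 ^ n * |S 1 (t / 2 ^ n)| ≤ 2 ^ n * (2 * |t / 2 ^ n|) := by gcongr
      _ = 2 * |t| := by
          rw [abs_div, abs_of_pos h2n]; field_simp
      _ ≤ 1 / 20 := by linarith
  rw [mul_assoc, Equiv.Perm.mul_apply, Equiv.Perm.mul_apply, g_pow hS m n (by linarith),
    Equiv.Perm.inv_eq_iff_eq, g_pow hS m n h4]
  have h5 := (hS.adm 1).per_int (t / 2 ^ n) m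
  rw [add_comm (m : ℝ) (t / 2 ^ n), h5]
  field_simp
  ring

lemma G_close (hS : Final δ S) (m : ℤ) {ε : ℝ} (hε : 0 < ε) : ∃ N : ℕ, ∀ n ≥ N, ∀ y : ℝ,
    |y - m| < 1 / 40 →
    |(((S 0) ^ n)⁻¹ * S 1 * (S 0) ^ n) y - y| ≤ ε ∧
    |deriv (((S 0) ^ n)⁻¹ * S 1 * (S 0) ^ n : Equiv.Perm ℝ) y - 1| ≤ ε := by
  obtain ⟨N1, hN1⟩ := G_formula hS m
  obtain ⟨η, hη, H⟩ := f_near hS hε
  obtain ⟨N, hN⟩ := exists_pow_lt_of_lt_one hη (show (1 / 2 : ℝ) < 1 by norm_num)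
  refine ⟨max N1 N, fun n hn y hy => ?_⟩
  have hn1 : N1 ≤ n := (le_max_left _ _).trans hn
  have hn2 : N ≤ n := (le_max_right _ _).trans hn
  have h2n : (0 : ℝ) < 2 ^ n := by positivity
  have hτ : |(y - m) / 2 ^ n| ≤ η := by
    rw [abs_div, abs_of_pos h2n]
    have h1 : |y - m| / 2 ^ n ≤ 1 / 2 ^ n := by gcongr; linarith
    have h2 : (1 : ℝ) / 2 ^ n ≤ (1 / 2) ^ N := by
      rw [one_div_pow]
      apply one_div_le_one_div_of_le (by positivity)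
      exact pow_le_pow_right₀ (by norm_num) hn2
    linarith
  have hform : ∀ z : ℝ, |z - m| < 1 / 40 → (((S 0) ^ n)⁻¹ * S 1 * (S 0) ^ n) z =
      m + 2 ^ n * S 1 ((z - m) / 2 ^ n) := by
    intro z hz
    have := hN1 n hn1 (z - m) hz.le
    rwa [add_sub_cancel] at this
  obtain ⟨h3, h4⟩ := H _ hτ
  constructor
  · rw [hform y hy]
    have : (m : ℝ) + 2 ^ n * S 1 ((y - m) / 2 ^ n) - y =
        2 ^ n * (S 1 ((y - m) / 2 ^ n) - (y - m) / 2 ^ n) := by field_simp; ring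
    rw [this, abs_mul, abs_of_pos h2n]
    calc 2 ^ n * |S 1 ((y - m) / 2 ^ n) - (y - m) / 2 ^ n|
        ≤ 2 ^ n * (ε * |(y - m) / 2 ^ n|) := by gcongr
      _ = ε * |y - m| := by rw [abs_div, abs_of_pos h2n]; field_simp
      _ ≤ ε * 1 := by gcongr; linarith
      _ = ε := mul_one _
  · have hd : HasDerivAt (((S 0) ^ n)⁻¹ * S 1 * (S 0) ^ n : Equiv.Perm ℝ)
        (deriv (S 1) ((y - m) / 2 ^ n)) y := by
      have h5 : HasDerivAt (fun z : ℝ => (z - m) / 2 ^ n) (1 / 2 ^ n) y :=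
        ((hasDerivAt_id y).sub_const _).div_const _
      have h6 := (((hS.adm 1).hasDerivAt ((y - m) / 2 ^ n)).comp y h5).const_mul (2 ^ n)
      have h7 := h6.const_add (m : ℝ)
      have h8 : (2 : ℝ) ^ n * (deriv (S 1) ((y - m) / 2 ^ n) * (1 / 2 ^ n)) =
          deriv (S 1) ((y - m) / 2 ^ n) := by field_simp
      rw [h8] at h7
      refine h7.congr_of_eventuallyEq ?_
      have hopen : IsOpen {z : ℝ | |z - m| < 1 / 40} := by
        apply isOpen_lt _ continuous_const; fun_prop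
      filter_upwards [hopen.mem_nhds hy] with z hz
      exact hform z hz
    rw [hd.deriv]
    exact h4

/-- on every proper closed arc there is a sequence of elements of the group, none of which is the
identity on the arc, converging to the identity in the `C^1` topology on the arc -/
theorem local_id (hS : Final δ S) {a b : ℝ} (hab : a < b) (hab1 : b < a + 1) :
    ∃ g : ℕ → Equiv.Perm ℝ, (∀ n, g n ∈ HH S) ∧
      TendstoUniformlyOn (fun n x => g n x) (fun x => x) atTop (Icc a b) ∧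
      TendstoUniformlyOn (fun n x => deriv (g n) x) (fun _ => 1) atTop (Icc a b) ∧
      ∀ n, ∃ x ∈ Icc a b, dd (g n x) x ≠ 0 := by
  obtain ⟨u, hu, m, hum⟩ := center hS hab1
  have hD := HH_isD1 hS.adm hu
  let G : ℕ → Equiv.Perm ℝ := fun n => ((S 0) ^ n)⁻¹ * S 1 * (S 0) ^ n
  have hG : ∀ n, G n ∈ HH S := fun n => (HH S).mul_mem ((HH S).mul_mem
    ((HH S).inv_mem ((HH S).pow_mem (mem_HH S 0) n)) (mem_HH S 1)) ((HH S).pow_mem (mem_HH S 0) n)
  have hGD : ∀ n, IsD1 (G n) := fun n => HH_isD1 hS.adm (hG n)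
  -- joint convergence
  have hev : ∀ x0 ∈ Icc a b, ∀ᶠ p : ℕ × ℝ in atTop ×ˢ 𝓝[Icc a b] x0, |u p.2 - m| < 1 / 40 := by
    intro x0 _
    have h1 : ∀ᶠ x in 𝓝[Icc a b] x0, |u x - m| < 1 / 40 := by
      filter_upwards [self_mem_nhdsWithin] with x hx using hum x hx
    exact (tendsto_snd (f := (atTop : Filter ℕ))).eventually h1
  have hu2 : ∀ x0, Tendsto (fun p : ℕ × ℝ => u p.2) ((atTop : Filter ℕ) ×ˢ 𝓝[Icc a b] x0)
      (𝓝 (u x0)) := by
    intro x0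
    have : Tendsto (fun p : ℕ × ℝ => p.2) ((atTop : Filter ℕ) ×ˢ 𝓝[Icc a b] x0) (𝓝 x0) :=
      tendsto_snd.mono_right nhdsWithin_le_nhds
    exact (hD.continuous.tendsto x0).comp this
  have hG0 : ∀ x0 ∈ Icc a b, Tendsto (fun p : ℕ × ℝ => G p.1 (u p.2) - u p.2)
      ((atTop : Filter ℕ) ×ˢ 𝓝[Icc a b] x0) (𝓝 0) := by
    intro x0 hx0
    rw [Metric.tendsto_nhds]
    intro ε hε
    obtain ⟨N, hN⟩ := G_close hS m (half_pos hε)
    have h1 : ∀ᶠ p : ℕ × ℝ in atTop ×ˢ 𝓝[Icc a b] x0, N ≤ p.1 :=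
      (tendsto_fst (g := 𝓝[Icc a b] x0)).eventually (eventually_ge_atTop N)
    filter_upwards [h1, hev x0 hx0] with p hp1 hp2
    have := (hN p.1 hp1 (u p.2) hp2).1
    rw [Real.dist_eq, sub_zero]
    exact lt_of_le_of_lt this (half_lt_self hε)
  have hG1 : ∀ x0 ∈ Icc a b, Tendsto (fun p : ℕ × ℝ => deriv (G p.1) (u p.2))
      ((atTop : Filter ℕ) ×ˢ 𝓝[Icc a b] x0) (𝓝 1) := by
    intro x0 hx0
    rw [Metric.tendsto_nhds]
    intro ε hε
    obtain ⟨N, hN⟩ := G_close hS m (half_pos hε)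
    have h1 : ∀ᶠ p : ℕ × ℝ in atTop ×ˢ 𝓝[Icc a b] x0, N ≤ p.1 :=
      (tendsto_fst (g := 𝓝[Icc a b] x0)).eventually (eventually_ge_atTop N)
    filter_upwards [h1, hev x0 hx0] with p hp1 hp2
    have := (hN p.1 hp1 (u p.2) hp2).2
    rw [Real.dist_eq]
    exact lt_of_le_of_lt this (half_lt_self hε)
  have hGu : ∀ x0 ∈ Icc a b, Tendsto (fun p : ℕ × ℝ => G p.1 (u p.2))
      ((atTop : Filter ℕ) ×ˢ 𝓝[Icc a b] x0) (𝓝 (u x0)) := by
    intro x0 hx0
    have := (hG0 x0 hx0).add (hu2 x0)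
    simpa using this
  have hux : ∀ x, u⁻¹ (u x) = x := fun x => u.symm_apply_apply x
  have huy : ∀ y, u (u⁻¹ y) = y := fun y => u.apply_symm_apply y
  refine ⟨fun n => u⁻¹ * (G n * u), fun n => (HH S).mul_mem ((HH S).inv_mem hu)
    ((HH S).mul_mem (hG n) hu), ?_, ?_, ?_⟩
  · apply unif_of_tendsto continuous_id
    intro x0 hx0
    have h1 := (hD.inv.continuous.tendsto (u x0)).comp (hGu x0 hx0)
    rw [hux] at h1
    exact h1
  · apply unif_of_tendsto continuous_const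
    intro x0 hx0
    have h1 : ∀ n x, deriv (u⁻¹ * (G n * u) : Equiv.Perm ℝ) x =
        deriv (u⁻¹ : Equiv.Perm ℝ) (G n (u x)) * (deriv (G n) (u x) * deriv u x) := by
      intro n x
      rw [hD.inv.deriv_mul ((hGD n).mul hD), (hGD n).deriv_mul hD]
      rfl
    simp only [h1]
    have h2 := (hD.inv.continuous_deriv.tendsto (u x0)).comp (hGu x0 hx0)
    have h3 : Tendsto (fun p : ℕ × ℝ => deriv u p.2) ((atTop : Filter ℕ) ×ˢ 𝓝[Icc a b] x0)
        (𝓝 (deriv u x0)) := by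
      have : Tendsto (fun p : ℕ × ℝ => p.2) ((atTop : Filter ℕ) ×ˢ 𝓝[Icc a b] x0) (𝓝 x0) :=
        tendsto_snd.mono_right nhdsWithin_le_nhds
      exact (hD.continuous_deriv.tendsto x0).comp this
    have h4 := h2.mul ((hG1 x0 hx0).mul h3)
    have h5 : deriv (u⁻¹ : Equiv.Perm ℝ) (u x0) * (1 * deriv u x0) = 1 := by
      rw [one_mul, ← hD.inv.deriv_mul hD, inv_mul_cancel, Equiv.Perm.coe_one]
      simp
    rw [h5] at h4
    exact h4
  · intro n
    -- nontriviality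
    have hgn : (S 0) ^ n ∈ HH S := (HH S).pow_mem (mem_HH S 0) n
    have hDn := HH_isD1 hS.adm hgn
    have hDv : IsD1 ((S 0) ^ n * u) := hDn.mul hD
    set v : Equiv.Perm ℝ := (S 0) ^ n * u with hv
    obtain ⟨y, hy, hyd⟩ := hS.f_nt (Ioo (v a) (v b)) isOpen_Ioo
      (Set.nonempty_Ioo.mpr (hDv.strictMono hab))
    have hvx : ∀ x, v⁻¹ (v x) = x := fun x => v.symm_apply_apply x
    have hvy : ∀ y, v (v⁻¹ y) = y := fun y => v.apply_symm_apply y
    refine ⟨v⁻¹ y, ⟨?_, ?_⟩, ?_⟩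
    · rw [← hDv.strictMono.le_iff_le, hvy]; exact hy.1.le
    · rw [← hDv.strictMono.le_iff_le, hvy]; exact hy.2.le
    · intro h0
      have h1 := hDv.dd_map.mpr h0
      have h2 : v ((u⁻¹ * (G n * u)) (v⁻¹ y)) = S 1 y := by
        show ((S 0) ^ n * u * (u⁻¹ * (((S 0) ^ n)⁻¹ * S 1 * (S 0) ^ n * u))) (v⁻¹ y) = S 1 y
        have : (S 0) ^ n * u * (u⁻¹ * (((S 0) ^ n)⁻¹ * S 1 * (S 0) ^ n * u)) = S 1 * v := by
          rw [hv]; group
        rw [this, Equiv.Perm.mul_apply, hvy]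
      rw [h2, hvy, dd_comm] at h1
      exact hyd h1

end

end Pool.Agent.Y329.DL
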