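import Pool.Agent.Y329.DL.Local
import Pool.Agent.Y329.CircleGroups

/-!
From lifts to circle homeomorphisms: the main theorem.
-/

namespace Pool.Agent.Y329.DL

open Filter Topology MeasureTheory Set Pool.Agent.Y329.CircleGroups

/-! ### From lifts to circle homeomorphisms -/

lemma coe_eq_iff {x y : ℝ} : (x : UnitAddCircle) = (y : UnitAddCircle) ↔ dd x y = 0 := by
  rw [dd_eq_zero_iff]
  constructor
  · intro h
    have h1 : (((x - y : ℝ)) : UnitAddCircle) = 0 := by
      rw [AddCircle.coe_sub, h, sub_self]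
    rw [AddCircle.coe_eq_zero_iff] at h1
    obtain ⟨n, hn⟩ := h1
    refine ⟨n, ?_⟩
    simp at hn
    linarith
  · rintro ⟨m, hm⟩
    have h1 : (((x - y : ℝ)) : UnitAddCircle) = 0 := by
      rw [AddCircle.coe_eq_zero_iff]
      refine ⟨m, ?_⟩
      simp
      linarith
    rw [AddCircle.coe_sub, sub_eq_zero] at h1
    exact h1

lemma per_coe {u : Equiv.Perm ℝ} (h : IsD1 u) :
    Function.Periodic (fun x : ℝ => ((u x : ℝ) : UnitAddCircle)) 1 := by
  intro x
  show ((u (x + 1) : ℝ) : UnitAddCircle) = ((u x : ℝ) : UnitAddCircle)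
  rw [h.per, coe_eq_iff, dd_eq_zero_iff]
  exact ⟨1, by norm_num⟩

/-- the circle map defined by a lift -/
noncomputable def cmap (u : Equiv.Perm ℝ) (h : IsD1 u) : UnitAddCircle → UnitAddCircle :=
  (per_coe h).lift

lemma cmap_coe (u : Equiv.Perm ℝ) (h : IsD1 u) (x : ℝ) :
    cmap u h (x : UnitAddCircle) = ((u x : ℝ) : UnitAddCircle) := rfl

lemma cmap_cont (u : Equiv.Perm ℝ) (h : IsD1 u) : Continuous (cmap u h) := by
  have hq : IsQuotientMap (fun x : ℝ => (x : UnitAddCircle)) := isQuotientMap_quotient_mk'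
  rw [hq.continuous_iff]
  exact (AddCircle.continuous_mk' 1).comp h.continuous

lemma coe_surj (z : UnitAddCircle) : ∃ x : ℝ, (x : UnitAddCircle) = z :=
  QuotientAddGroup.mk_surjective z

/-- lifts of `C^1` diffeomorphisms form a group -/
def D1grp : Subgroup (Equiv.Perm ℝ) where
  carrier := {u | IsD1 u}
  mul_mem' := fun h h' => IsD1.mul h h'
  one_mem' := IsD1.one
  inv_mem' := fun h => IsD1.inv h

lemma isD1_of (u : D1grp) : IsD1 u.1 := u.2

/-- from lifts to circle homeomorphisms -/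
noncomputable def Phi : D1grp →* HomeoC where
  toFun u :=
    { toFun := cmap u.1 (isD1_of u)
      invFun := cmap (u⁻¹ : D1grp).1 (isD1_of u⁻¹)
      left_inv := by
        intro z
        obtain ⟨x, rfl⟩ := coe_surj z
        show ((u.1.symm (u.1 x) : ℝ) : UnitAddCircle) = (x : UnitAddCircle)
        rw [u.1.symm_apply_apply x]
      right_inv := by
        intro z
        obtain ⟨x, rfl⟩ := coe_surj z
        show ((u.1 (u.1.symm x) : ℝ) : UnitAddCircle) = (x : UnitAddCircle)
        rw [u.1.apply_symm_apply x]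
      continuous_toFun := cmap_cont _ _
      continuous_invFun := cmap_cont _ _ }
  map_one' := by
    ext z
    obtain ⟨x, rfl⟩ := coe_surj z
    rfl
  map_mul' := by
    intro u v
    ext z
    obtain ⟨x, rfl⟩ := coe_surj z
    rfl

lemma Phi_coe (u : D1grp) (x : ℝ) : Phi u (x : UnitAddCircle) = ((u.1 x : ℝ) : UnitAddCircle) :=
  rfl

lemma Phi_lift (u : D1grp) : IsLift (u.1) (Phi u) :=
  ⟨IsD1.continuous u.2, fun _ => rfl⟩

/-- generators -/
def gen {S : Sys} (hS : Adm S) (i : Fin 3) : D1grp := ⟨S i, hS i⟩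

/-- the group -/
noncomputable def GG {S : Sys} (hS : Adm S) : Subgroup HomeoC :=
  Subgroup.closure (Set.range fun i => Phi (gen hS i))

lemma GG_eq {S : Sys} (hS : Adm S) {g : HomeoC} (hg : g ∈ GG hS) :
    ∃ u : D1grp, u.1 ∈ HH S ∧ Phi u = g := by
  unfold GG at hg
  induction hg using Subgroup.closure_induction with
  | mem x hx =>
    obtain ⟨i, rfl⟩ := hx
    exact ⟨gen hS i, mem_HH S i, rfl⟩
  | one => exact ⟨1, (HH S).one_mem, map_one _⟩
  | mul x y _ _ hx hy =>
    obtain ⟨u, hu, rfl⟩ := hx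
    obtain ⟨v, hv, rfl⟩ := hy
    exact ⟨u * v, (HH S).mul_mem hu hv, map_mul _ _ _⟩
  | inv x _ hx =>
    obtain ⟨u, hu, rfl⟩ := hx
    exact ⟨u⁻¹, (HH S).inv_mem hu, map_inv _ _⟩

lemma GG_mem {S : Sys} (hS : Adm S) {u : Equiv.Perm ℝ} (hu : u ∈ HH S) :
    Phi ⟨u, HH_isD1 hS hu⟩ ∈ GG hS := by
  unfold HH at hu
  induction hu using Subgroup.closure_induction with
  | mem x hx =>
    obtain ⟨i, rfl⟩ := hx
    exact Subgroup.subset_closure ⟨i, rfl⟩
  | one =>
    have h1 := (GG hS).one_mem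
    rw [← map_one Phi] at h1
    exact h1
  | mul x y hx hy hx' hy' =>
    have h1 := (GG hS).mul_mem hx' hy'
    rw [← map_mul] at h1
    exact h1
  | inv x hx hx' =>
    have h1 := (GG hS).inv_mem hx'
    rw [← map_inv] at h1
    exact h1

lemma lift_deriv {F : ℝ → ℝ} {u : D1grp} (hF : IsLift F (Phi u)) (x : ℝ) :
    deriv F x = deriv u.1 x := by
  have h1 : ∀ y, ∃ m : ℤ, F y - u.1 y = m := by
    intro y
    have := hF.2 y
    rw [Phi_coe, coe_eq_iff, dd_eq_zero_iff] at this
    obtain ⟨m, hm⟩ := this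
    exact ⟨m, by rw [hm]; ring⟩
  choose m hm using h1
  have hmc : Continuous m := by
    have : Continuous fun y => ((m y : ℤ) : ℝ) := by
      have h2 : (fun y => ((m y : ℤ) : ℝ)) = fun y => F y - u.1 y := by
        funext y; exact (hm y).symm
      rw [h2]
      exact hF.1.sub (IsD1.continuous u.2)
    exact Int.isClosedEmbedding_coe_real.isInducing.continuous_iff.mpr this
  have hconst : ∀ y, m y = m 0 := fun y => PreconnectedSpace.constant inferInstance hmc
  have h3 : F = fun y => u.1 y + m 0 := by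
    funext y
    have := hm y
    rw [hconst y] at this
    linarith
  rw [h3]
  simp

lemma nat_le_one {i : ℕ} (hi : (i : ℕ∞) ≤ 1) : i = 0 ∨ i = 1 := by
  have : i ≤ 1 := by exact_mod_cast hi
  omega

/-- a sequence of lifts converging to the identity -/
lemma tendsToId_of {g : ℕ → Equiv.Perm ℝ} (hg : ∀ n, IsD1 (g n)) {A : Set ℝ}
    (h0 : TendstoUniformlyOn (fun n x => g n x) (fun x => x) atTop A)
    (h1 : TendstoUniformlyOn (fun n x => deriv (g n) x) (fun _ => 1) atTop A) :
    TendsToId 1 (fun n => Phi ⟨g n, hg n⟩) A := by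
  refine ⟨fun n => g n, fun n => ⟨Phi_lift ⟨g n, hg n⟩, (hg n).cd⟩, ?_⟩
  intro i hi
  rcases nat_le_one hi with rfl | rfl
  · simp only [iteratedDeriv_zero]
    rw [Metric.tendstoUniformlyOn_iff] at h0 ⊢
    intro ε hε
    filter_upwards [h0 ε hε] with n hn x hx
    have := hn x hx
    rw [Real.dist_eq] at this ⊢
    rw [zero_sub, abs_neg, ← abs_neg, neg_sub]
    exact this
  · simp only [iteratedDeriv_one]
    rw [Metric.tendstoUniformlyOn_iff] at h1 ⊢
    intro ε hε
    filter_upwards [h1 ε hε] with n hn x hx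
    have := hn x hx
    have hd : deriv (fun y => g n y - y) x = deriv (g n) x - 1 :=
      (((hg n).hasDerivAt x).sub (hasDerivAt_id x)).deriv
    rw [hd]
    rw [Real.dist_eq] at this ⊢
    rw [zero_sub, abs_neg, ← abs_neg, neg_sub]
    exact this

/-- Discreteness. -/
lemma discrete {δ : ℝ} (hδ : 0 < δ) {S : Sys} (hS : Final δ S) : DiscreteIn 1 (GG hS.adm) := by
  intro g hg hconv
  obtain ⟨F, hF, hlim⟩ := hconv
  have h1 := hlim 1 le_rfl
  simp only [iteratedDeriv_one] at h1
  choose u hu hug using fun n => GG_eq hS.adm (hg n)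
  -- logarithm near one
  have hlog : ∀ᶠ y in 𝓝 (1 : ℝ), |Real.log y| < δ := by
    have hc : ContinuousAt (fun y : ℝ => |Real.log y|) 1 :=
      (Real.continuousAt_log one_ne_zero).abs
    have h2 : |Real.log 1| < δ := by rw [Real.log_one, abs_zero]; exact hδ
    exact hc.eventually (Iio_mem_nhds h2)
  rw [Metric.eventually_nhds_iff] at hlog
  obtain ⟨ε, hε, H⟩ := hlog
  rw [Metric.tendstoUniformlyOn_iff] at h1
  filter_upwards [h1 ε hε] with n hn
  have hone : (u n).1 = 1 := by
    by_contra hne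
    obtain ⟨x, hx⟩ := disc_lift hS (hu n) hne
    have h2 := hn x (mem_univ _)
    have hlift : IsLift (F n) (Phi (u n)) := by rw [hug]; exact (hF n).1
    have hdiff : DifferentiableAt ℝ (F n) x :=
      (hF n).2.differentiable (by norm_num) x
    have h3 : deriv (fun y => F n y - y) x = deriv (u n).1 x - 1 := by
      have h5 : HasDerivAt (fun y => F n y - y) (deriv (F n) x - 1) x :=
        hdiff.hasDerivAt.sub (hasDerivAt_id x)
      rw [h5.deriv, lift_deriv hlift]
    rw [h3, Real.dist_eq, zero_sub, abs_neg] at h2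
    have h4 := H (y := deriv (u n).1 x) (by rw [Real.dist_eq]; exact h2)
    linarith
  rw [← hug]
  have : u n = 1 := Subtype.ext hone
  rw [this, map_one]

/-- Sequences converging to the identity on arcs. -/
lemma seq_arc {δ : ℝ} {S : Sys} (hS : Final δ S) {a b : ℝ} (hab : a < b) (hab1 : b < a + 1) :
    ∃ g : ℕ → HomeoC, (∀ n, g n ∈ GG hS.adm) ∧ TendsToId 1 g (Icc a b) ∧
      ∀ n, ∃ x ∈ arc a b, g n x ≠ x := by
  obtain ⟨g, hg, h0, h1, h2⟩ := local_id hS hab hab1
  have hD : ∀ n, IsD1 (g n) := fun n => HH_isD1 hS.adm (hg n)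
  refine ⟨fun n => Phi ⟨g n, hD n⟩, fun n => GG_mem hS.adm (hg n), tendsToId_of hD h0 h1, ?_⟩
  intro n
  obtain ⟨x, hx, hxd⟩ := h2 n
  refine ⟨(x : UnitAddCircle), ⟨x, hx, rfl⟩, ?_⟩
  rw [Phi_coe]
  intro h
  exact hxd (coe_eq_iff.mp h)

/-- Minimality. -/
lemma limitSet_univ {δ : ℝ} {S : Sys} (hS : Final δ S) : IsLimitSet (GG hS.adm) Set.univ := by
  refine ⟨⟨0, trivial⟩, isCompact_univ, ?_, ?_⟩
  · intro g _
    exact Set.image_univ_of_surjective g.surjective
  · intro z _ w _
    obtain ⟨x, rfl⟩ := coe_surj z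
    obtain ⟨y, rfl⟩ := coe_surj w
    rw [mem_closure_iff_nhds]
    intro U hU
    have h1 : (fun t : ℝ => (t : UnitAddCircle)) ⁻¹' U ∈ 𝓝 y :=
      (AddCircle.continuous_mk' 1).continuousAt hU
    obtain ⟨r, hr, hball⟩ := Metric.mem_nhds_iff.mp h1
    obtain ⟨v, hv, k, hk1, hk2⟩ := minimal_lift hS x (show y - r < y + r by linarith)
    have h2 : v x + k ∈ Metric.ball y r := by
      rw [Real.ball_eq_Ioo]; exact ⟨hk1, hk2⟩
    have h3 := hball h2
    refine ⟨((v x + k : ℝ) : UnitAddCircle), h3, Phi ⟨v, HH_isD1 hS.adm hv⟩,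
      GG_mem hS.adm hv, ?_⟩
    rw [Phi_coe, coe_eq_iff, dd_eq_zero_iff]
    exact ⟨-k, by push_cast; ring⟩

/-- No invariant probability measure. -/
lemma nonElementary {δ : ℝ} {S : Sys} (hS : Final δ S) : NonElementary (GG hS.adm) := by
  rintro ⟨μ, hμ, hinv⟩
  set γ := Phi (gen hS.adm 0) with hγ
  set ρ := Phi (gen hS.adm 2) with hρ
  have hγG : γ ∈ GG hS.adm := Subgroup.subset_closure ⟨0, rfl⟩
  have hρG : ρ ∈ GG hS.adm := Subgroup.subset_closure ⟨2, rfl⟩
  have hmp : MeasurePreserving γ μ μ := ⟨γ.continuous.measurable, hinv γ hγG⟩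
  have hrec := hmp.conservative.ae_frequently_mem_of_mem_nhds
  set h : UnitAddCircle := ((1 / 2 : ℝ) : UnitAddCircle) with hh
  let K : Set UnitAddCircle := {0, h}
  have hK : ∀ᵐ x ∂μ, x ∈ K := by
    filter_upwards [hrec] with z hz
    by_contra hzK
    obtain ⟨x, rfl⟩ := coe_surj z
    -- representative in `(-1/2, 1/2]`
    set t := x - round x with ht
    have htx : (x : UnitAddCircle) = (t : UnitAddCircle) := by
      rw [coe_eq_iff, dd_eq_zero_iff]; exact ⟨round x, by rw [ht]; ring⟩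
    rw [htx] at hz hzK
    have ht2 : |t| ≤ 1 / 2 := abs_sub_round x
    have ht1 : |t| < 1 / 2 := by
      refine lt_of_le_of_ne ht2 fun heq => hzK ?_
      right
      rcases abs_cases t with h1 | h1
      · rw [← h1.1, heq]; exact rfl
      · have : t = -(1 / 2) := by linarith [h1.1]
        rw [this]
        show ((-(1 / 2) : ℝ) : UnitAddCircle) = ((1 / 2 : ℝ) : UnitAddCircle)
        rw [coe_eq_iff, dd_eq_zero_iff]
        exact ⟨-1, by norm_num⟩
    have hlim := iter_all hS ht1
    have hiter : ∀ n, γ^[n] (t : UnitAddCircle) = (((S 0)^[n] t : ℝ) : UnitAddCircle) := by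
      intro n
      induction n with
      | zero => rfl
      | succ n ih =>
        rw [Function.iterate_succ_apply', ih, Function.iterate_succ_apply']
        rfl
    have hlim2 : Tendsto (fun n => γ^[n] (t : UnitAddCircle)) atTop (𝓝 (0 : UnitAddCircle)) := by
      simp only [hiter]
      have := ((AddCircle.continuous_mk' (1 : ℝ)).tendsto 0).comp hlim
      exact this
    have hne : (t : UnitAddCircle) ≠ 0 := fun h0 => hzK (Or.inl h0)
    obtain ⟨U, V, hU, hV, htU, h0V, hUV⟩ := t2_separation hne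
    have e1 := hz U (hU.mem_nhds htU)
    have e2 := hlim2.eventually (hV.mem_nhds h0V)
    obtain ⟨n, hn1, hn2⟩ := (e1.and_eventually e2).exists
    exact Set.disjoint_left.mp hUV hn1 hn2
  have hKc : μ Kᶜ = 0 := by
    rw [ae_iff] at hK
    exact hK
  have hKm : MeasurableSet K := (Set.toFinite K).measurableSet
  have hK1 : μ K = 1 := by
    have := prob_compl_eq_zero_iff (μ := μ) hKm
    exact this.mp hKc
  have hpre : μ (ρ ⁻¹' K) = 1 := by
    have h1 : μ.map ρ K = μ K := by rw [hinv ρ hρG]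
    rw [Measure.map_apply ρ.continuous.measurable hKm] at h1
    rw [h1, hK1]
  have hdisj : ρ ⁻¹' K ⊆ Kᶜ := by
    intro z hz hzK
    have hr : ∀ x, x + 1 / 12 - 1 / 500 ≤ S 2 x ∧ S 2 x ≤ x + 1 / 12 + 1 / 500 := by
      intro x
      have := hS.r_close x
      rw [abs_le] at this
      constructor <;> linarith [this.1, this.2]
    have key : ∀ x y : ℝ, (x = 0 ∨ x = 1 / 2) → (y = 0 ∨ y = 1 / 2) →
        ((S 2 x : ℝ) : UnitAddCircle) ≠ (y : UnitAddCircle) := by
      intro x y hx hy heq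
      rw [coe_eq_iff, dd_eq_zero_iff] at heq
      obtain ⟨m, hm⟩ := heq
      have h1 := hr x
      rw [hm] at h1
      have h2 : (-1 : ℝ) < 2 * m := by
        rcases hx with rfl | rfl <;> rcases hy with rfl | rfl <;> linarith [h1.1]
      have h3 : (2 * m : ℝ) < 2 := by
        rcases hx with rfl | rfl <;> rcases hy with rfl | rfl <;> linarith [h1.2]
      have h4 : (-1 : ℤ) < 2 * m := by exact_mod_cast h2
      have h5 : 2 * m < (2 : ℤ) := by exact_mod_cast h3
      have h6 : m = 0 := by omega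
      rw [h6] at h1
      simp only [Int.cast_zero, add_zero] at h1
      rcases hx with rfl | rfl <;> rcases hy with rfl | rfl <;> linarith [h1.1, h1.2]
    have hzx : ∃ x : ℝ, (x = 0 ∨ x = 1 / 2) ∧ z = (x : UnitAddCircle) := by
      rcases hzK with h1 | h1
      · exact ⟨0, Or.inl rfl, h1⟩
      · exact ⟨1 / 2, Or.inr rfl, h1⟩
    obtain ⟨x, hx, rfl⟩ := hzx
    have hz' : ρ (x : UnitAddCircle) ∈ K := hz
    rcases hz' with h1 | h1
    · exact key x 0 hx (Or.inl rfl) h1
    · exact key x (1 / 2) hx (Or.inr rfl) h1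
  have : μ (ρ ⁻¹' K) ≤ 0 := (measure_mono hdisj).trans hKc.le
  rw [hpre] at this
  simp at this

/-- **Main theorem.** There is a finitely generated non-elementary group `G` of `C^1`
diffeomorphisms of the circle, acting minimally (its limit set is the whole circle), which is
discrete in the `C^1` topology but is not locally discrete in the `C^1` topology. Moreover on every
proper closed arc some sequence of elements of `G`, none of which is the identity on the arc,
converges to the identity in the `C^1` topology on the arc. -/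
theorem main_c1 : ∃ G : Subgroup HomeoC, InDiff 1 G ∧ G.FG ∧ NonElementary G ∧
    IsLimitSet G Set.univ ∧ DiscreteIn 1 G ∧ ¬ LocallyDiscreteIn 1 G ∧
    ∀ a b : ℝ, a < b → b < a + 1 → ∃ g : ℕ → HomeoC, (∀ n, g n ∈ G) ∧
      TendsToId 1 g (Icc a b) ∧ ∀ n, ∃ x ∈ arc a b, g n x ≠ x := by
  obtain ⟨S, hS⟩ := exists_final
  refine ⟨GG hS.adm, ?_, ?_, nonElementary hS, limitSet_univ hS, discrete (by norm_num) hS, ?_,
    fun a b hab hab1 => seq_arc hS hab hab1⟩
  · intro g hg
    obtain ⟨u, _, rfl⟩ := GG_eq hS.adm hg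
    exact ⟨u.1, Phi_lift u, IsD1.cd u.2⟩
  · rw [Subgroup.fg_iff]
    exact ⟨_, rfl, Set.finite_range _⟩
  · rintro ⟨Λ, hΛ, I, hI1, hI2, hI3⟩
    obtain ⟨z, hz⟩ := hΛ.1
    have h1 := hI2 hz
    simp only [Set.mem_iUnion] at h1
    obtain ⟨J, hJ, _⟩ := h1
    obtain ⟨g, hg, hconv, hne⟩ := seq_arc hS (hI1 J hJ).1 (hI1 J hJ).2
    obtain ⟨n, hn⟩ := (hI3 J hJ g hg hconv).exists
    obtain ⟨x, hx, hxn⟩ := hne n
    exact hxn (hn x hx)

end Pool.Agent.Y329.DL
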