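import Pool.Agent.Y329.DL.Bump

/-!
Words, paths and derivatives along paths.
-/

namespace Pool.Agent.Y329.DL

open Real Set Filter Topology

/-- a triple of lifts -/
abbrev Sys := Fin 3 → Equiv.Perm ℝ

/-- all three are `C^1` -/
def Adm (s : Sys) : Prop := ∀ i, IsD1 (s i)

/-- infinite words -/
abbrev Wd := ℕ → Fin 3 × Bool

/-- action of a letter -/
def act (s : Sys) (l : Fin 3 × Bool) : Equiv.Perm ℝ := if l.2 then s l.1 else (s l.1)⁻¹

/-- positions along a path -/
def pos (s : Sys) (w : Wd) (x : ℝ) : ℕ → ℝ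
  | 0 => x
  | t + 1 => act s (w t) (pos s w x t)

/-- the point at which the generator is evaluated -/
def ept (w : Wd) (p : ℕ → ℝ) (j : ℕ) : ℝ := if (w j).2 then p j else p (j + 1)

/-- the value of the generator there -/
def opt (w : Wd) (p : ℕ → ℝ) (j : ℕ) : ℝ := if (w j).2 then p (j + 1) else p j

/-- a path described by the values of generators only -/
def Chain (s : Sys) (w : Wd) (n : ℕ) (p : ℕ → ℝ) : Prop :=
  ∀ j < n, s (w j).1 (ept w p j) = opt w p j

/-- sign -/
def sg (b : Bool) : ℝ := if b then 1 else -1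

/-- logarithmic derivative along the path -/
noncomputable def LD (s : Sys) (w : Wd) (p : ℕ → ℝ) (n : ℕ) : ℝ :=
  ∑ j ∈ Finset.range n, sg (w j).2 * Real.log (deriv (s (w j).1) (ept w p j))

lemma sg_ne_zero (b : Bool) : sg b ≠ 0 := by cases b <;> simp [sg]

lemma sg_mul_self (b : Bool) : sg b * sg b = 1 := by cases b <;> simp [sg]

lemma abs_sg (b : Bool) : |sg b| = 1 := by cases b <;> simp [sg]

lemma chain_pos (s : Sys) (w : Wd) (n : ℕ) (x : ℝ) : Chain s w n (pos s w x) := by
  intro j _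
  unfold ept opt
  by_cases h : (w j).2 = true
  · simp [h, pos, act]
  · simp [h, pos, act]

lemma chain_step {s : Sys} {w : Wd} {n : ℕ} {p : ℕ → ℝ} (h : Chain s w n p) {j : ℕ} (hj : j < n) :
    p (j + 1) = act s (w j) (p j) := by
  have := h j hj
  unfold ept opt at this
  unfold act
  by_cases hb : (w j).2 = true
  · simp only [hb, if_true] at this ⊢
    exact this.symm
  · simp only [hb] at this ⊢
    simp only [Bool.false_eq_true, if_false] at this ⊢
    rw [← this]
    simp

lemma chain_eq_pos {s : Sys} {w : Wd} {n : ℕ} {p : ℕ → ℝ} (h : Chain s w n p) :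
    ∀ j ≤ n, p j = pos s w (p 0) j := by
  intro j
  induction j with
  | zero => intro _; rfl
  | succ j ih =>
    intro hj
    rw [chain_step h hj, ih (by omega)]
    rfl

lemma act_isD1 {s : Sys} (hs : Adm s) (l : Fin 3 × Bool) : IsD1 (act s l) := by
  unfold act
  split_ifs
  · exact hs _
  · exact (hs _).inv

lemma hasDerivAt_act {s : Sys} (hs : Adm s) (w : Wd) (x : ℝ) (t : ℕ) :
    HasDerivAt (act s (w t))
      (exp (sg (w t).2 * Real.log (deriv (s (w t).1) (ept w (pos s w x) t)))) (pos s w x t) := by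
  unfold act ept sg
  by_cases hb : (w t).2 = true
  · simp only [hb, if_true, one_mul]
    rw [Real.exp_log ((hs _).dpos _)]
    exact (hs _).hasDerivAt _
  · simp only [hb, Bool.false_eq_true, if_false]
    rw [neg_one_mul, Real.exp_neg, Real.exp_log ((hs _).dpos _)]
    have : pos s w x (t + 1) = (s (w t).1).symm (pos s w x t) := by
      show act s (w t) (pos s w x t) = _
      unfold act
      simp only [hb, Bool.false_eq_true, if_false]
      rfl
    rw [this]
    exact (hs _).hasDerivAt_symm _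

lemma hasDerivAt_pos {s : Sys} (hs : Adm s) (w : Wd) (x : ℝ) (t : ℕ) :
    HasDerivAt (fun y => pos s w y t) (exp (LD s w (pos s w x) t)) x := by
  induction t with
  | zero =>
    simp only [pos, LD, Finset.range_zero, Finset.sum_empty, Real.exp_zero]
    exact hasDerivAt_id x
  | succ t ih =>
    have h1 := (hasDerivAt_act hs w x t).comp x ih
    have h2 : LD s w (pos s w x) (t + 1) = LD s w (pos s w x) t +
      sg (w t).2 * Real.log (deriv (s (w t).1) (ept w (pos s w x) t)) := by
      unfold LD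
      rw [Finset.sum_range_succ]
    rw [h2, Real.exp_add, mul_comm]
    exact h1

lemma pos_surj {s : Sys} (w : Wd) (t : ℕ) (y : ℝ) : ∃ x, pos s w x t = y := by
  induction t generalizing y with
  | zero => exact ⟨y, rfl⟩
  | succ t ih =>
    obtain ⟨x, hx⟩ := ih ((act s (w t)).symm y)
    refine ⟨x, ?_⟩
    show act s (w t) (pos s w x t) = y
    rw [hx]; simp

/-- reduced words -/
def Red (w : Wd) (n : ℕ) : Prop :=
  ∀ t, t + 1 < n → (w t).1 = (w (t + 1)).1 → (w t).2 = (w (t + 1)).2

lemma edge_distinct {s : Sys} (hs : Adm s) {w : Wd} {n : ℕ} {p : ℕ → ℝ} (hc : Chain s w n p)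
    (hr : Red w n) {t : ℕ} (ht : t < n)
    (hd : ∀ i j, i < j → j ≤ t → dd (p i) (p j) ≠ 0) {j m : ℕ} (hjm : j < m) (hm : m ≤ t)
    (hg : (w j).1 = (w m).1) : dd (ept w p j) (ept w p m) ≠ 0 := by
  intro h0
  have hcj := hc j (by omega)
  have hcm := hc m (by omega)
  have h1 : dd (opt w p j) (opt w p m) = 0 := by
    rw [← hcj, ← hcm, hg]
    exact (hs _).dd_map.mpr h0
  have key : dd (p (j + 1)) (p m) = 0 → (w j).2 = (w m).2 := by
    intro h
    by_cases hjm1 : j + 1 = m
    · subst hjm1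
      exact hr j (by omega) hg
    · exact absurd h (hd _ _ (by omega) hm)
  unfold ept at h0
  unfold opt at h1
  by_cases a : (w j).2 = true <;> by_cases b : (w m).2 = true
  · simp only [a, b, if_true] at h0
    exact hd j m hjm hm h0
  · simp only [a, b, if_true, Bool.false_eq_true, if_false] at h0 h1
    exact b (a ▸ (key h1).symm)
  · simp only [a, b, if_true, Bool.false_eq_true, if_false] at h0 h1
    exact a (b ▸ (key h0))
  · simp only [a, b, Bool.false_eq_true, if_false] at h0 h1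
    exact hd j m hjm hm h1

/-- `Step P A s s'`: `s'` is an `A`-small change of `s` in the `C^1` sense which does not change
the values and derivatives at the protected points. -/
structure Step (P : Finset (Fin 3 × ℝ)) (A : ℝ) (s s' : Sys) : Prop where
  adm : Adm s'
  d1 : ∀ i x, |deriv (s' i) x - deriv (s i) x| ≤ A
  d0 : ∀ i x, |s' i x - s i x| ≤ A
  prot : ∀ e ∈ P, s' e.1 e.2 = s e.1 e.2 ∧ deriv (s' e.1) e.2 = deriv (s e.1) e.2
  rig : ∀ x, |sin (π * x)| < 1 / 4 → s' 0 x = s 0 x

lemma Step.refl {P : Finset (Fin 3 × ℝ)} {A : ℝ} (hA : 0 ≤ A) {s : Sys} (hs : Adm s) :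
    Step P A s s :=
  ⟨hs, fun i x => by simpa using hA, fun i x => by simpa using hA, fun e _ => ⟨rfl, rfl⟩,
    fun x _ => rfl⟩

lemma Step.trans {P : Finset (Fin 3 × ℝ)} {A A' : ℝ} {s s' s'' : Sys} (h : Step P A s s')
    (h' : Step P A' s' s'') : Step P (A + A') s s'' := by
  refine ⟨h'.adm, fun i x => ?_, fun i x => ?_, fun e he => ?_, fun x hx => ?_⟩
  · have h1 := h.d1 i x
    have h2 := h'.d1 i x
    calc _ = |(deriv (s'' i) x - deriv (s' i) x) + (deriv (s' i) x - deriv (s i) x)| := by ring_nf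
      _ ≤ _ := abs_add_le _ _
      _ ≤ A + A' := by linarith
  · have h1 := h.d0 i x
    have h2 := h'.d0 i x
    calc _ = |(s'' i x - s' i x) + (s' i x - s i x)| := by ring_nf
      _ ≤ _ := abs_add_le _ _
      _ ≤ A + A' := by linarith
  · exact ⟨(h'.prot e he).1.trans (h.prot e he).1, (h'.prot e he).2.trans (h.prot e he).2⟩
  · exact (h'.rig x hx).trans (h.rig x hx)

lemma Step.mono {P P' : Finset (Fin 3 × ℝ)} {A A' : ℝ} {s s' : Sys} (h : Step P A s s')
    (hP : P' ⊆ P) (hA : A ≤ A') : Step P' A' s s' :=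
  ⟨h.adm, fun i x => (h.d1 i x).trans hA, fun i x => (h.d0 i x).trans hA,
    fun e he => h.prot e (hP he), h.rig⟩

/-- contraction near `0` -/
def Contr (s : Sys) : Prop :=
  ∀ y, |sin (π * y)| < 1 / 4 → sin (π * y) ≠ 0 → |sin (π * s 0 y)| < |sin (π * y)|

lemma Step.contr {P : Finset (Fin 3 × ℝ)} {A : ℝ} {s s' : Sys} (h : Step P A s s')
    (hs : Contr s) : Contr s' := by
  intro y hy hy0
  rw [h.rig y hy]
  exact hs y hy hy0

/-- derivatives of lifts are bounded -/
lemma IsD1.exists_bound {σ : Equiv.Perm ℝ} (h : IsD1 σ) : ∃ M, 0 < M ∧ ∀ x, deriv σ x ≤ M := by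
  have hcomp : IsCompact (Icc (0 : ℝ) 1) := isCompact_Icc
  obtain ⟨x0, _, hx0⟩ := hcomp.exists_isMaxOn ⟨0, by simp⟩ h.continuous_deriv.continuousOn
  refine ⟨deriv σ x0, h.dpos _, fun x => ?_⟩
  have e1 : deriv σ x = deriv σ (x - ⌊x⌋) := by
    have := h.deriv_per_int (x - ⌊x⌋) ⌊x⌋
    rw [sub_add_cancel] at this
    exact this
  rw [e1]
  exact hx0 ⟨by linarith [Int.floor_le x], by linarith [Int.lt_floor_add_one x]⟩

/-- the general perturbation lemma -/
lemma perturb {ι : Type*} (s : Sys) (hs : Adm s) {M : ℝ} (hM0 : 0 < M)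
    (hM : ∀ i x, deriv (s i) x ≤ M)
    (I : Finset ι) (g : ι → Fin 3) (z a : ι → ℝ) {A : ℝ} (hA : A ≤ 1 / 4) (hA0 : 0 ≤ A)
    (ha : ∀ α ∈ I, |a α| ≤ A)
    (hz : ∀ α ∈ I, ∀ β ∈ I, α ≠ β → g α = g β → dd (z α) (z β) ≠ 0)
    (hV : ∀ α ∈ I, g α = 0 → 1 / 4 < |sin (π * z α)|)
    (F : Finset ℝ) (hF : ∀ α ∈ I, ∀ q ∈ F, dd (z α) q ≠ 0)
    (P : Finset (Fin 3 × ℝ)) (hP : ∀ e ∈ P, e.2 ∈ F) {ε : ℝ} (hε : 0 < ε) :
    ∃ s' : Sys, Step P (M * (exp A - 1) + ε) s s' ∧
      (∀ α ∈ I, s' (g α) (z α) = s (g α) (z α) ∧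
        Real.log (deriv (s' (g α)) (z α)) = Real.log (deriv (s (g α)) (z α)) + a α) ∧
      (∀ i, ∀ q ∈ F, s' i q = s i q ∧ deriv (s' i) q = deriv (s i) q) ∧
      (∀ i, (∀ α ∈ I, g α ≠ i) → s' i = s i) := by
  classical
  -- uniform continuity for the three derivatives
  have huc : ∃ η > 0, η ≤ ε / M ∧ ∀ i, ∀ x y, |x - y| ≤ η →
      |deriv (s i) x - deriv (s i) y| ≤ ε / 2 := by
    choose η hη H using fun i => (hs i).unif_deriv (half_pos hε)
    refine ⟨min (ε / M) (min (η 0) (min (η 1) (η 2))), ?_, min_le_left _ _, ?_⟩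
    · have := hη 0; have := hη 1; have := hη 2
      have : 0 < ε / M := by positivity
      simp only [gt_iff_lt, lt_min_iff]
      exact ⟨this, by assumption, by assumption, by assumption⟩
    · intro i x y hxy
      apply H i x y
      refine hxy.trans ?_
      fin_cases i
      · exact (min_le_right _ _).trans (min_le_left _ _)
      · exact (min_le_right _ _).trans ((min_le_right _ _).trans (min_le_left _ _))
      · exact (min_le_right _ _).trans ((min_le_right _ _).trans (min_le_right _ _))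
  obtain ⟨η, hη, hηM, huc⟩ := huc
  have hexpA0 : 0 ≤ exp A - 1 := by
    have := Real.add_one_le_exp A
    linarith
  have hbump : ∀ i, ∃ b : Equiv.Perm ℝ, IsD1 b ∧
      (∀ α ∈ I.filter (fun α => g α = i), b (z α) = z α ∧ deriv b (z α) = exp (a α)) ∧
      (∀ q ∈ F, b q = q ∧ deriv b q = 1) ∧ (∀ x, |deriv b x - 1| ≤ exp A - 1) ∧
      (∀ x, |b x - x| ≤ η) ∧
      ((∀ α ∈ I.filter (fun α => g α = i), 1 / 4 < |sin (π * z α)|) →
        ∀ x, |sin (π * x)| < 1 / 4 → b x = x) := by
    intro i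
    refine exists_bump (I.filter (fun α => g α = i)) z a hA hA0 ?_ ?_ F ?_ hη
    · intro α hα; exact ha α (Finset.mem_filter.mp hα).1
    · intro α hα β hβ hab
      rw [Finset.mem_filter] at hα hβ
      exact hz α hα.1 β hβ.1 hab (hα.2.trans hβ.2.symm)
    · intro α hα; exact hF α (Finset.mem_filter.mp hα).1
  choose b hbD hbz hbF hb1 hb0 hbV using hbump
  have hexp2 : exp A ≤ 2 := by
    have : exp A ≤ exp (1 / 4) := Real.exp_le_exp.mpr hA
    have h3 : exp (1 / 4 : ℝ) ^ 4 = exp 1 := by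
      rw [← Real.exp_nat_mul]; norm_num
    have h4 := Real.exp_one_lt_d9
    by_contra hcon
    push Not at hcon
    have h5 : (2 : ℝ) ≤ exp (1 / 4) := by linarith
    have h6 : (2 : ℝ) ^ 4 ≤ exp (1 / 4) ^ 4 := pow_le_pow_left₀ (by norm_num) h5 4
    rw [h3] at h6
    norm_num at h6
    linarith
  let s' : Sys := fun i => if (∀ α ∈ I, g α ≠ i) then s i else s i * b i
  have hs'D : ∀ i, IsD1 (s' i) := by
    intro i
    show IsD1 (if (∀ α ∈ I, g α ≠ i) then s i else s i * b i)
    split_ifs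
    · exact hs i
    · exact (hs i).mul (hbD i)
  have hcase : ∀ i, (s' i = s i ∧ ∀ α ∈ I, g α ≠ i) ∨ s' i = s i * b i := by
    intro i
    by_cases h : ∀ α ∈ I, g α ≠ i
    · left; exact ⟨if_pos h, h⟩
    · right; exact if_neg h
  have hd' : ∀ i x, deriv (s i * b i : Equiv.Perm ℝ) x = deriv (s i) (b i x) * deriv (b i) x :=
    fun i x => (hs i).deriv_mul (hbD i) x
  have hfix : ∀ i q, b i q = q → s' i q = s i q := by
    intro i q hq
    rcases hcase i with h | h
    · rw [h.1]
    · rw [h, Equiv.Perm.mul_apply, hq]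
  refine ⟨s', ⟨hs'D, ?_, ?_, ?_, ?_⟩, ?_, ?_, ?_⟩
  · intro i x
    rcases hcase i with h | h
    · rw [h.1]; simp only [sub_self, abs_zero]; positivity
    · rw [h, hd']
      have e1 : deriv (s i) (b i x) * deriv (b i) x - deriv (s i) x =
        (deriv (s i) (b i x) - deriv (s i) x) * deriv (b i) x
          + deriv (s i) x * (deriv (b i) x - 1) := by ring
      rw [e1]
      have h1 := hb1 i x
      have h2 := huc i _ _ (hb0 i x)
      have h3 : |deriv (b i) x| ≤ 2 := by
        rw [abs_le] at h1 ⊢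
        constructor <;> linarith [h1.1, h1.2]
      have h4 : |deriv (s i) x| ≤ M := by
        rw [abs_of_pos ((hs i).dpos x)]; exact hM i x
      calc _ ≤ |(deriv (s i) (b i x) - deriv (s i) x) * deriv (b i) x|
            + |deriv (s i) x * (deriv (b i) x - 1)| := abs_add_le _ _
        _ = |deriv (s i) (b i x) - deriv (s i) x| * |deriv (b i) x|
            + |deriv (s i) x| * |deriv (b i) x - 1| := by rw [abs_mul, abs_mul]
        _ ≤ ε / 2 * 2 + M * (exp A - 1) := by gcongr
        _ = M * (exp A - 1) + ε := by ring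
  · intro i x
    rcases hcase i with h | h
    · rw [h.1]; simp only [sub_self, abs_zero]; positivity
    · rw [h, Equiv.Perm.mul_apply]
      have h1 : ‖s i (b i x) - s i x‖ ≤ M * ‖b i x - x‖ := by
        refine Convex.norm_image_sub_le_of_norm_deriv_le (s := Set.univ)
          (fun y _ => (hs i).differentiable y) (fun y _ => ?_) convex_univ
          (mem_univ _) (mem_univ _)
        rw [Real.norm_eq_abs, abs_of_pos ((hs i).dpos y)]; exact hM i y
      rw [Real.norm_eq_abs, Real.norm_eq_abs] at h1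
      have h2 := hb0 i x
      calc _ ≤ M * |b i x - x| := h1
        _ ≤ M * (ε / M) := by
            gcongr
            exact h2.trans hηM
        _ = ε := by field_simp
        _ ≤ _ := by
            have : 0 ≤ M * (exp A - 1) := by positivity
            linarith
  · intro e he
    have hF' := hP e he
    have h1 := hbF e.1 e.2 hF'
    refine ⟨hfix _ _ h1.1, ?_⟩
    rcases hcase e.1 with h | h
    · rw [h.1]
    · rw [h, hd', h1.1, h1.2, mul_one]
  · intro x hx
    rcases hcase 0 with h | h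
    · rw [h.1]
    · apply hfix
      apply hbV 0 _ x hx
      intro α hα
      rw [Finset.mem_filter] at hα
      exact hV α hα.1 hα.2
  · intro α hα
    have hmem : α ∈ I.filter (fun β => g β = g α) := Finset.mem_filter.mpr ⟨hα, rfl⟩
    have h1 := hbz (g α) α hmem
    refine ⟨hfix _ _ h1.1, ?_⟩
    rcases hcase (g α) with h | h
    · exact absurd rfl (h.2 α hα)
    · rw [h, hd', h1.1, h1.2, Real.log_mul ((hs _).dpos _).ne' (Real.exp_pos _).ne', Real.log_exp]
  · intro i q hq
    have h1 := hbF i q hq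
    refine ⟨hfix _ _ h1.1, ?_⟩
    rcases hcase i with h | h
    · rw [h.1]
    · rw [h, hd', h1.1, h1.2, mul_one]
  · intro i hi
    exact if_pos hi

end Pool.Agent.Y329.DL
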