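import Pool.Agent.Y329.DL.Generic

/-!
One stage of the construction.
-/

namespace Pool.Agent.Y329.DL

open Real Set Filter Topology

/-- an edge which may be perturbed -/
def Good (w : Wd) (p : ℕ → ℝ) (j : ℕ) : Prop := (w j).1 = 0 → 1 / 4 < |sin (π * ept w p j)|

/-- behaviour of the first generator near `1/2` -/
def RunH (s : Sys) : Prop := ∀ y ∈ Icc (1 / 2 : ℝ) (2 / 3), y ≤ s 0 y ∧ s 0 y - 1 / 2 ≤ 2 * (y - 1 / 2)

lemma sin_mid {y : ℝ} (h1 : 1 / 3 ≤ y) (h2 : y ≤ 2 / 3) : 1 / 4 < |sin (π * y)| := by
  have h3 : sin (π * y) = cos (π * (y - 1 / 2)) := by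
    rw [show π * (y - 1 / 2) = π * y - π / 2 by ring, Real.cos_sub_pi_div_two]
  have h4 := Real.one_sub_sq_div_two_le_cos (x := π * (y - 1 / 2))
  have h5 : (π * (y - 1 / 2)) ^ 2 ≤ 1 / 3 := by
    have hp := Real.pi_lt_d2
    have hp0 := Real.pi_pos
    have h6 : (y - 1 / 2) ^ 2 ≤ 1 / 36 := by nlinarith
    have h7 : π ^ 2 ≤ 10 := by nlinarith
    rw [mul_pow]
    have : 0 ≤ (y - 1 / 2) ^ 2 := by positivity
    nlinarith
  rw [h3]
  refine lt_of_lt_of_le ?_ (le_abs_self _)
  linarith

lemma run_or_many (w : Wd) {n N : ℕ} (hn : N * N ≤ n) :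
    N ≤ ((Finset.range n).filter (fun j => (w j).1 ≠ 0)).card ∨
    ∃ b0, b0 + N ≤ n ∧ ∀ j, b0 ≤ j → j < b0 + N → (w j).1 = 0 := by
  classical
  by_cases h : ∀ c ∈ Finset.range N, ∃ j, c * N ≤ j ∧ j < c * N + N ∧ (w j).1 ≠ 0
  · left
    choose! f hf1 hf2 hf3 using h
    have hinj : Set.InjOn f (Finset.range N : Set ℕ) := by
      intro c hc d hd hcd
      have hc' := hf1 c hc
      have hc'' := hf2 c hc
      have hd' := hf1 d hd
      have hd'' := hf2 d hd
      rw [hcd] at hc' hc''
      by_contra hne
      rcases lt_or_gt_of_ne hne with h | h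
      · have : (c + 1) * N ≤ d * N := Nat.mul_le_mul_right N h
        have : c * N + N ≤ d * N := by rw [← Nat.succ_mul]; exact this
        omega
      · have : (d + 1) * N ≤ c * N := Nat.mul_le_mul_right N h
        have : d * N + N ≤ c * N := by rw [← Nat.succ_mul]; exact this
        omega
    have hcard : ((Finset.range N).image f).card = N := by
      rw [Finset.card_image_of_injOn hinj, Finset.card_range]
    rw [← hcard]
    refine Finset.card_le_card ?_
    intro j hj
    rw [Finset.mem_image] at hj
    obtain ⟨c, hc, rfl⟩ := hj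
    rw [Finset.mem_filter, Finset.mem_range]
    refine ⟨?_, hf3 c hc⟩
    have h1 := hf2 c hc
    rw [Finset.mem_range] at hc
    have h2 : (c + 1) * N ≤ N * N := Nat.mul_le_mul_right N hc
    have h3 : c * N + N ≤ N * N := by rw [← Nat.succ_mul]; exact h2
    omega
  · right
    push Not at h
    obtain ⟨c, hc, h⟩ := h
    rw [Finset.mem_range] at hc
    refine ⟨c * N, ?_, h⟩
    have h2 : (c + 1) * N ≤ N * N := Nat.mul_le_mul_right N hc
    have h3 : c * N + N ≤ N * N := by rw [← Nat.succ_mul]; exact h2
    omega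

/-- base point data guaranteeing many good edges -/
lemma exists_base (w : Wd) {n N : ℕ} (hr : Red w n) (hn : N * N ≤ n) :
    ∃ b ≤ n, ∃ O : Set ℝ, IsOpen O ∧ O.Nonempty ∧ ∀ (s : Sys), Adm s → RunH s →
      ∀ p : ℕ → ℝ, Chain s w n p → p b ∈ O →
      ∃ J : Finset ℕ, N ≤ J.card ∧ ∀ j ∈ J, j < n ∧ Good w p j := by
  classical
  rcases run_or_many w hn with h | ⟨b0, hb0, hrun⟩
  · refine ⟨0, Nat.zero_le _, Set.univ, isOpen_univ, ⟨0, trivial⟩, ?_⟩
    intro s _ _ p _ _
    refine ⟨_, h, ?_⟩
    intro j hj
    rw [Finset.mem_filter, Finset.mem_range] at hj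
    exact ⟨hj.1, fun h0 => absurd h0 hj.2⟩
  · have hsign : ∀ j, b0 ≤ j → j < b0 + N → (w j).2 = (w b0).2 := by
      intro j h1
      induction j, h1 using Nat.le_induction with
      | base => intro _; rfl
      | succ j h1 ih =>
        intro h2
        rw [← ih (by omega)]
        refine (hr j (by omega) ?_).symm
        rw [hrun j h1 (by omega), hrun (j + 1) (by omega) h2]
    by_cases hb : (w b0).2 = true
    · refine ⟨b0, by omega, Ioo (1 / 2) (1 / 2 + 1 / 6 / 2 ^ N), isOpen_Ioo, ?_, ?_⟩
      · rw [Set.nonempty_Ioo]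
        have : (0 : ℝ) < 1 / 6 / 2 ^ N := by positivity
        linarith
      · intro s hs hrh p hc hpb
        have hin : ∀ j, j ≤ N → p (b0 + j) ∈ Ioo (1 / 2 : ℝ) (1 / 2 + 1 / 6 * 2 ^ j / 2 ^ N) := by
          intro j
          induction j with
          | zero => intro _; simpa using hpb
          | succ j ih =>
            intro hj
            have h1 := ih (by omega)
            have h2 : (2 : ℝ) ^ j / 2 ^ N ≤ 1 := by
              rw [div_le_one (by positivity)]
              exact pow_le_pow_right₀ (by norm_num) (by omega)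
            have h3 : 1 / 6 * (2 : ℝ) ^ j / 2 ^ N = 1 / 6 * (2 ^ j / 2 ^ N) := by ring
            have h4 : p (b0 + j) ∈ Icc (1 / 2 : ℝ) (2 / 3) := by
              refine ⟨h1.1.le, ?_⟩
              have := h1.2
              rw [h3] at this
              linarith
            have h5 := hrh _ h4
            have h6 : s 0 (p (b0 + j)) = p (b0 + j + 1) := by
              have := hc (b0 + j) (by omega)
              have hg := hrun (b0 + j) (by omega) (by omega)
              have hsn := hsign (b0 + j) (by omega) (by omega)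
              unfold ept opt at this
              rw [hg, hsn, hb] at this
              simpa using this
            rw [h6] at h5
            rw [← add_assoc]
            refine ⟨by linarith [h1.1, h5.1], ?_⟩
            have h7 : 1 / 6 * (2 : ℝ) ^ (j + 1) / 2 ^ N = 2 * (1 / 6 * 2 ^ j / 2 ^ N) := by
              rw [pow_succ]; ring
            rw [h7]
            linarith [h1.2, h5.2]
        refine ⟨(Finset.range N).image (fun j => b0 + j), ?_, ?_⟩
        · rw [Finset.card_image_of_injective _ (fun a b h => by simpa using h),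
            Finset.card_range]
        · intro j' hj'
          rw [Finset.mem_image] at hj'
          obtain ⟨j, hj, rfl⟩ := hj'
          rw [Finset.mem_range] at hj
          refine ⟨by omega, fun _ => ?_⟩
          have h1 := hin j (by omega)
          have hsn := hsign (b0 + j) (by omega) (by omega)
          unfold ept
          rw [hsn, hb, if_pos rfl]
          refine sin_mid (by linarith [h1.1]) ?_
          have h2 : (2 : ℝ) ^ j / 2 ^ N ≤ 1 := by
            rw [div_le_one (by positivity)]
            exact pow_le_pow_right₀ (by norm_num) (by omega)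
          have h3 : 1 / 6 * (2 : ℝ) ^ j / 2 ^ N = 1 / 6 * (2 ^ j / 2 ^ N) := by ring
          have := h1.2
          rw [h3] at this
          linarith
    · have hb' : (w b0).2 = false := by simpa using hb
      refine ⟨b0, by omega, Ioo (1 / 2) (2 / 3), isOpen_Ioo, ?_, ?_⟩
      · rw [Set.nonempty_Ioo]; norm_num
      · intro s hs hrh p hc hpb
        have hin : ∀ j, j ≤ N → p (b0 + j) ∈ Ioo (1 / 2 : ℝ) (2 / 3) := by
          intro j
          induction j with
          | zero => intro _; simpa using hpb
          | succ j ih =>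
            intro hj
            have h1 := ih (by omega)
            have h6 : s 0 (p (b0 + j + 1)) = p (b0 + j) := by
              have := hc (b0 + j) (by omega)
              have hg := hrun (b0 + j) (by omega) (by omega)
              have hsn := hsign (b0 + j) (by omega) (by omega)
              unfold ept opt at this
              rw [hg, hsn, hb'] at this
              simpa using this
            have hm := (hs 0).strictMono
            have ha := hrh (1 / 2) ⟨le_rfl, by norm_num⟩
            have hbb := hrh (2 / 3) ⟨by norm_num, le_rfl⟩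
            rw [← add_assoc]
            constructor
            · rw [← hm.lt_iff_lt, h6]
              have := ha.2
              linarith [h1.1]
            · rw [← hm.lt_iff_lt, h6]
              linarith [h1.2, hbb.1]
        refine ⟨(Finset.range N).image (fun j => b0 + j), ?_, ?_⟩
        · rw [Finset.card_image_of_injective _ (fun a b h => by simpa using h),
            Finset.card_range]
        · intro j' hj'
          rw [Finset.mem_image] at hj'
          obtain ⟨j, hj, rfl⟩ := hj'
          rw [Finset.mem_range] at hj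
          refine ⟨by omega, fun _ => ?_⟩
          have h1 := hin (j + 1) (by omega)
          rw [← add_assoc] at h1
          have hsn := hsign (b0 + j) (by omega) (by omega)
          unfold ept
          rw [hsn, hb']
          simp only [Bool.false_eq_true, if_false]
          exact sin_mid (by linarith [h1.1]) h1.2.le

lemma ept_mem (w : Wd) (p : ℕ → ℝ) (j : ℕ) : ept w p j = p j ∨ ept w p j = p (j + 1) := by
  unfold ept
  split_ifs
  · left; rfl
  · right; rfl

/-- Phase (i): generic paths for finitely many words at the same time -/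
lemma phase_one {ι : Type*} (T : Finset ι) (w : ι → Wd) (n : ι → ℕ) (b : ι → ℕ) (O : ι → Set ℝ)
    (hr : ∀ α ∈ T, Red (w α) (n α)) (hb : ∀ α ∈ T, b α ≤ n α) (hO : ∀ α ∈ T, IsOpen (O α))
    (hOne : ∀ α ∈ T, (O α).Nonempty) {F : Finset ℝ} (hF0 : (0 : ℝ) ∈ F)
    (hFb : ∀ y : ℝ, |sin (π * y)| = 1 / 4 → ∃ q ∈ F, dd y q = 0)
    {P : Finset (Fin 3 × ℝ)} (hP : ∀ e ∈ P, e.2 ∈ F)
    {s : Sys} (hs : Adm s) (hctr : Contr s) :
    ∀ {ε : ℝ}, 0 < ε → ∃ (s' : Sys) (p : ι → ℕ → ℝ), Step P ε s s' ∧
      (∀ α ∈ T, Chain s' (w α) (n α) (p α) ∧ p α (b α) ∈ O α ∧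
        (∀ j ≤ n α, ∀ q ∈ F, dd (p α j) q ≠ 0) ∧
        (∀ i j, i < j → j ≤ n α → dd (p α i) (p α j) ≠ 0)) ∧
      (∀ α ∈ T, ∀ β ∈ T, α ≠ β → ∀ i ≤ n α, ∀ j ≤ n β, dd (p α i) (p β j) ≠ 0) := by
  classical
  induction T using Finset.induction_on with
  | empty =>
    intro ε hε
    exact ⟨s, fun _ _ => 0, Step.refl hε.le hs, by simp, by simp⟩
  | insert α0 T hα0 ih =>
    intro ε hε
    obtain ⟨s1, p, hst1, hp1, hp2⟩ := ih (fun α hα => hr α (Finset.mem_insert_of_mem hα))
      (fun α hα => hb α (Finset.mem_insert_of_mem hα))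
      (fun α hα => hO α (Finset.mem_insert_of_mem hα))
      (fun α hα => hOne α (Finset.mem_insert_of_mem hα)) (half_pos hε)
    let Q : Finset ℝ := T.biUnion fun β => (Finset.range (n β + 1)).image (p β)
    let E : Finset (Fin 3 × ℝ) := T.biUnion fun β =>
      (Finset.range (n β)).image fun j => ((w β j).1, ept (w β) (p β) j)
    have hQ : ∀ β ∈ T, ∀ j ≤ n β, p β j ∈ Q := by
      intro β hβ j hj
      exact Finset.mem_biUnion.mpr ⟨β, hβ, Finset.mem_image_of_mem _
        (Finset.mem_range.mpr (by omega))⟩
    have hE : ∀ β ∈ T, ∀ j < n β, ((w β j).1, ept (w β) (p β) j) ∈ E := by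
      intro β hβ j hj
      exact Finset.mem_biUnion.mpr ⟨β, hβ, Finset.mem_image.mpr
        ⟨j, Finset.mem_range.mpr hj, rfl⟩⟩
    have hEQ : ∀ e ∈ P ∪ E, e.2 ∈ F ∪ Q := by
      intro e he
      rcases Finset.mem_union.mp he with h | h
      · exact Finset.mem_union_left _ (hP e h)
      · refine Finset.mem_union_right _ ?_
        rw [Finset.mem_biUnion] at h
        obtain ⟨β, hβ, h⟩ := h
        rw [Finset.mem_image] at h
        obtain ⟨j, hj, rfl⟩ := h
        rw [Finset.mem_range] at hj
        rcases ept_mem (w β) (p β) j with h' | h'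
        · simp only [h']; exact hQ β hβ j (by omega)
        · simp only [h']; exact hQ β hβ (j + 1) (by omega)
    obtain ⟨s2, x, hst2, hO2, hav2, hd2⟩ := generic (w α0) (n α0)
      (hr α0 (Finset.mem_insert_self _ _)) (b α0) (hb α0 (Finset.mem_insert_self _ _))
      (hO α0 (Finset.mem_insert_self _ _)) (hOne α0 (Finset.mem_insert_self _ _))
      (F := F ∪ Q) (Finset.mem_union_left _ hF0)
      (fun y hy => by
        obtain ⟨q, hq, hq'⟩ := hFb y hy
        exact ⟨q, Finset.mem_union_left _ hq, hq'⟩) hEQ hst1.adm (hst1.contr hctr)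
      (n α0) le_rfl (half_pos hε)
    refine ⟨s2, Function.update p α0 (pos s2 (w α0) x), ?_, ?_, ?_⟩
    · have := hst1.trans (hst2.mono (P' := P) Finset.subset_union_left le_rfl)
      rwa [add_halves] at this
    · intro α hα
      by_cases hαα : α = α0
      · subst hαα
        rw [Function.update_self]
        exact ⟨chain_pos _ _ _ _, hO2, fun j hj q hq => hav2 j hj q (Finset.mem_union_left _ hq),
          hd2⟩
      · rw [Function.update_of_ne hαα]
        have hαT : α ∈ T := by
          rcases Finset.mem_insert.mp hα with h | h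
          · exact absurd h hαα
          · exact h
        obtain ⟨h1, h2, h3, h4⟩ := hp1 α hαT
        refine ⟨?_, h2, h3, h4⟩
        intro j hj
        rw [← h1 j hj]
        exact (hst2.prot _ (Finset.mem_union_right _ (hE α hαT j hj))).1
    · intro α hα β hβ hαβ i hi j hj
      by_cases hα' : α = α0
      · subst hα'
        have hβT : β ∈ T := by
          rcases Finset.mem_insert.mp hβ with h | h
          · exact absurd h.symm hαβ
          · exact h
        rw [Function.update_self, Function.update_of_ne hαβ.symm]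
        exact hav2 i hi _ (Finset.mem_union_right _ (hQ β hβT j hj))
      · have hαT : α ∈ T := by
          rcases Finset.mem_insert.mp hα with h | h
          · exact absurd h hα'
          · exact h
        rw [Function.update_of_ne hα']
        by_cases hβ' : β = α0
        · subst hβ'
          rw [Function.update_self, dd_comm]
          exact hav2 j hj _ (Finset.mem_union_right _ (hQ α hαT i hi))
        · have hβT : β ∈ T := by
            rcases Finset.mem_insert.mp hβ with h | h
            · exact absurd h hβ'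
            · exact h
          rw [Function.update_of_ne hβ']
          exact hp2 α hαT β hβT hαβ i hi j hj

/-- Phase (ii): a simultaneous perturbation -/
lemma phase_two {ι : Type*} (T : Finset ι) (w : ι → Wd) (n : ι → ℕ)
    (hr : ∀ α ∈ T, Red (w α) (n α)) (hn : ∀ α ∈ T, 0 < n α) {F : Finset ℝ}
    (hF0 : (0 : ℝ) ∈ F)
    (hFb : ∀ y : ℝ, |sin (π * y)| = 1 / 4 → ∃ q ∈ F, dd y q = 0)
    {P : Finset (Fin 3 × ℝ)} (hP : ∀ e ∈ P, e.2 ∈ F)
    {s : Sys} (hs : Adm s) (hM : ∀ i x, deriv (s i) x ≤ 2) (p : ι → ℕ → ℝ)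
    (hp : ∀ α ∈ T, Chain s (w α) (n α) (p α) ∧
        (∀ j ≤ n α, ∀ q ∈ F, dd (p α j) q ≠ 0) ∧
        (∀ i j, i < j → j ≤ n α → dd (p α i) (p α j) ≠ 0))
    (hpp : ∀ α ∈ T, ∀ β ∈ T, α ≠ β → ∀ i ≤ n α, ∀ j ≤ n β, dd (p α i) (p β j) ≠ 0)
    {δ A : ℝ} (hδ : 0 < δ) (hA : A ≤ 1 / 4) (hA0 : 0 ≤ A)
    (J : ι → Finset ℕ) (hJ : ∀ α ∈ T, (J α).Nonempty ∧ δ / (J α).card ≤ A ∧
      ∀ j ∈ J α, j < n α ∧ Good (w α) (p α) j) {ε : ℝ} (hε : 0 < ε) :
    ∃ s' : Sys, Step P (2 * (exp A - 1) + ε) s s' ∧
      ∀ α ∈ T, Chain s' (w α) (n α) (p α) ∧ δ ≤ |LD s' (w α) (p α) (n α)| := by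
  classical
  -- enlarge the sets of good edges to all good edges
  let K : ι → Finset ℕ := fun α => (Finset.range (n α)).filter (fun j => Good (w α) (p α) j)
  have hK : ∀ α ∈ T, (K α).Nonempty ∧ δ / (K α).card ≤ A := by
    intro α hα
    obtain ⟨h1, h2, h3⟩ := hJ α hα
    have hsub : J α ⊆ K α := by
      intro j hj
      exact Finset.mem_filter.mpr ⟨Finset.mem_range.mpr (h3 j hj).1, (h3 j hj).2⟩
    refine ⟨h1.mono hsub, le_trans ?_ h2⟩
    have hc := Finset.card_le_card hsub
    have hc0 : 0 < (J α).card := Finset.card_pos.mpr h1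
    have : (0 : ℝ) < (J α).card := by exact_mod_cast hc0
    have : ((J α).card : ℝ) ≤ (K α).card := by exact_mod_cast hc
    gcongr
  have hKpos : ∀ α ∈ T, (0 : ℝ) < (K α).card := by
    intro α hα
    exact_mod_cast Finset.card_pos.mpr (hK α hα).1
  let σ : ι → ℝ := fun α => if 0 ≤ LD s (w α) (p α) (n α) then 1 else -1
  have hσ : ∀ α, |σ α| = 1 := by
    intro α
    show |if 0 ≤ LD s (w α) (p α) (n α) then (1 : ℝ) else -1| = 1
    split_ifs <;> simp
  let a : (Σ _ : ι, ℕ) → ℝ := fun e => σ e.1 * sg (w e.1 e.2).2 * (δ / (K e.1).card)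
  have hav : ∀ α ∈ T, ∀ j < n α, ∀ q ∈ F, dd (ept (w α) (p α) j) q ≠ 0 := by
    intro α hα j hj q hq
    obtain ⟨_, h1, _⟩ := hp α hα
    rcases ept_mem (w α) (p α) j with h | h
    · rw [h]; exact h1 j (by omega) q hq
    · rw [h]; exact h1 (j + 1) (by omega) q hq
  obtain ⟨s', hst, hval, _, _⟩ := perturb s hs (M := 2) (by norm_num) hM (T.sigma K)
    (fun e => (w e.1 e.2).1) (fun e => ept (w e.1) (p e.1) e.2) a hA hA0
    (by
      rintro ⟨α, j⟩ he
      rw [Finset.mem_sigma] at he
      show |σ α * sg (w α j).2 * (δ / (K α).card)| ≤ A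
      rw [abs_mul, abs_mul, hσ, abs_sg, one_mul, one_mul, abs_of_pos]
      · exact (hK α he.1).2
      · exact div_pos hδ (hKpos α he.1))
    (by
      rintro ⟨α, i⟩ he ⟨β, j⟩ hf hne hg
      rw [Finset.mem_sigma] at he hf
      simp only at he hf hg
      have hi : i < n α := Finset.mem_range.mp (Finset.mem_filter.mp he.2).1
      have hj : j < n β := Finset.mem_range.mp (Finset.mem_filter.mp hf.2).1
      by_cases hαβ : α = β
      · subst hαβ
        have hij : i ≠ j := fun h => hne (by rw [h])
        obtain ⟨hc, _, hd⟩ := hp α he.1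
        change dd (ept (w α) (p α) i) (ept (w α) (p α) j) ≠ 0
        rcases lt_or_gt_of_ne hij with h | h
        · exact edge_distinct hs hc (hr α he.1) (t := n α - 1) (by omega)
            (fun i j h1 h2 => hd i j h1 (by omega)) (j := i) (m := j) h (by omega) hg
        · rw [dd_comm]
          exact edge_distinct hs hc (hr α he.1) (t := n α - 1) (by omega)
            (fun i j h1 h2 => hd i j h1 (by omega)) (j := j) (m := i) h (by omega) hg.symm
      · show dd (ept (w α) (p α) i) (ept (w β) (p β) j) ≠ 0
        rcases ept_mem (w α) (p α) i with h | h <;> rcases ept_mem (w β) (p β) j with h' | h' <;>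
          rw [h, h']
        · exact hpp α he.1 β hf.1 hαβ _ (by omega) _ (by omega)
        · exact hpp α he.1 β hf.1 hαβ _ (by omega) _ (by omega)
        · exact hpp α he.1 β hf.1 hαβ _ (by omega) _ (by omega)
        · exact hpp α he.1 β hf.1 hαβ _ (by omega) _ (by omega))
    (by
      rintro ⟨α, j⟩ he h0
      rw [Finset.mem_sigma] at he
      exact (Finset.mem_filter.mp he.2).2 h0)
    F (by
      rintro ⟨α, j⟩ he q hq
      rw [Finset.mem_sigma] at he
      exact hav α he.1 j (Finset.mem_range.mp (Finset.mem_filter.mp he.2).1) q hq)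
    P hP hε
  refine ⟨s', hst, ?_⟩
  intro α hα
  obtain ⟨hc, _, hd⟩ := hp α hα
  -- at the edges which are not good nothing happens
  have hbad : ∀ j < n α, j ∉ K α → s' (w α j).1 (ept (w α) (p α) j) = s (w α j).1 (ept (w α) (p α) j) ∧
      deriv (s' (w α j).1) (ept (w α) (p α) j) = deriv (s (w α j).1) (ept (w α) (p α) j) := by
    intro j hj hjK
    have h1 : ¬ Good (w α) (p α) j := fun h => hjK (Finset.mem_filter.mpr
      ⟨Finset.mem_range.mpr hj, h⟩)
    unfold Good at h1
    push Not at h1
    obtain ⟨h0, h2⟩ := h1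
    have h3 : |sin (π * ept (w α) (p α) j)| < 1 / 4 := by
      refine lt_of_le_of_ne h2 fun h4 => ?_
      obtain ⟨q, hq, hq'⟩ := hFb _ h4
      exact hav α hα j hj q hq hq'
    rw [h0]
    refine ⟨hst.rig _ h3, ?_⟩
    apply Filter.EventuallyEq.deriv_eq
    have hopen : IsOpen {y : ℝ | |sin (π * y)| < 1 / 4} := by
      apply isOpen_lt _ continuous_const
      fun_prop
    filter_upwards [hopen.mem_nhds h3] with y hy
    exact hst.rig y hy
  constructor
  · intro j hj
    rw [← hc j hj]
    by_cases hjK : j ∈ K α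
    · exact (hval ⟨α, j⟩ (Finset.mem_sigma.mpr ⟨hα, hjK⟩)).1
    · exact (hbad j hj hjK).1
  · have hLD : LD s' (w α) (p α) (n α) = LD s (w α) (p α) (n α) + σ α * δ := by
      unfold LD
      have h1 : ∀ j ∈ Finset.range (n α),
          sg (w α j).2 * Real.log (deriv (s' (w α j).1) (ept (w α) (p α) j)) =
          sg (w α j).2 * Real.log (deriv (s (w α j).1) (ept (w α) (p α) j)) +
          if j ∈ K α then σ α * (δ / (K α).card) else 0 := by
        intro j hj
        rw [Finset.mem_range] at hj
        split_ifs with hjK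
        · have h2 := (hval ⟨α, j⟩ (Finset.mem_sigma.mpr ⟨hα, hjK⟩)).2
          simp only at h2
          rw [h2, mul_add]
          congr 1
          show sg (w α j).2 * (σ α * sg (w α j).2 * (δ / (K α).card)) = _
          have := sg_mul_self (w α j).2
          linear_combination (σ α * (δ / (K α).card)) * this
        · rw [(hbad j hj hjK).2, add_zero]
      rw [Finset.sum_congr rfl h1, Finset.sum_add_distrib]
      congr 1
      rw [← Finset.sum_filter]
      have h2 : (Finset.range (n α)).filter (fun j => j ∈ K α) = K α := by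
        ext j
        constructor
        · intro h; exact (Finset.mem_filter.mp h).2
        · intro h; exact Finset.mem_filter.mpr ⟨(Finset.mem_filter.mp h).1, h⟩
      rw [h2, Finset.sum_const, nsmul_eq_mul]
      have := (hKpos α hα).ne'
      field_simp
    rw [hLD]
    show δ ≤ |LD s (w α) (p α) (n α) + (if 0 ≤ LD s (w α) (p α) (n α) then 1 else -1) * δ|
    split_ifs with h
    · rw [one_mul, abs_of_nonneg (by linarith)]
      linarith
    · push Not at h
      rw [abs_of_neg (by linarith)]
      linarith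

end Pool.Agent.Y329.DL
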