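import Pool.Agent.Y329.DL.Stage

/-!
The complete stage.
-/

namespace Pool.Agent.Y329.DL

open Real Set Filter Topology

/-- a list as an infinite word -/
def toW (l : List (Fin 3 × Bool)) : Wd := fun t => l.getD t (0, true)

/-- quantitative hypotheses preserved along the construction -/
structure Hyp (c : ℝ) (s : Sys) : Prop where
  adm : Adm s
  contr : Contr s
  ub : ∀ i x, deriv (s i) x ≤ 2 - c
  half : s 0 (1 / 2) = 1 / 2
  lb : ∀ y ∈ Icc (1 / 2 : ℝ) (2 / 3), 1 + c ≤ deriv (s 0) y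

lemma Hyp.step {c A : ℝ} {s s' : Sys} {P : Finset (Fin 3 × ℝ)} (h : Hyp c s)
    (hst : Step P A s s') (hP : ((0 : Fin 3), (1 / 2 : ℝ)) ∈ P) : Hyp (c - A) s' := by
  refine ⟨hst.adm, hst.contr h.contr, ?_, ?_, ?_⟩
  · intro i x
    have h1 := hst.d1 i x
    have h2 := h.ub i x
    rw [abs_le] at h1
    linarith [h1.2]
  · rw [(hst.prot _ hP).1]; exact h.half
  · intro y hy
    have h1 := hst.d1 0 y
    have h2 := h.lb y hy
    rw [abs_le] at h1
    linarith [h1.1]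

lemma Hyp.runH {c : ℝ} {s : Sys} (h : Hyp c s) (hc : 0 ≤ c) : RunH s := by
  intro y hy
  have hD := h.adm 0
  have h1 : 1 * (y - 1 / 2) ≤ s 0 y - s 0 (1 / 2) := by
    refine (convex_Icc (1 / 2 : ℝ) (2 / 3)).mul_sub_le_image_sub_of_le_deriv
      hD.continuous.continuousOn (hD.differentiable.differentiableOn) ?_ _
      ⟨le_rfl, by norm_num⟩ _ hy hy.1
    intro x hx
    have := h.lb x (interior_subset hx)
    linarith
  have h2 : s 0 y - s 0 (1 / 2) ≤ 2 * (y - 1 / 2) := by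
    refine (convex_Icc (1 / 2 : ℝ) (2 / 3)).image_sub_le_mul_sub_of_deriv_le
      hD.continuous.continuousOn (hD.differentiable.differentiableOn) ?_ _
      ⟨le_rfl, by norm_num⟩ _ hy hy.1
    intro x _
    have := h.ub 0 x
    linarith
  rw [h.half] at h1 h2
  exact ⟨by linarith, h2⟩

lemma exists_F (P : Finset (Fin 3 × ℝ)) : ∃ F : Finset ℝ, (0 : ℝ) ∈ F ∧
    (∀ y : ℝ, |sin (π * y)| = 1 / 4 → ∃ q ∈ F, dd y q = 0) ∧ ∀ e ∈ P, e.2 ∈ F := by
  classical
  let z0 : ℝ := arcsin (1 / 4) / π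
  have hz0 : sin (π * z0) = 1 / 4 := by
    show sin (π * (arcsin (1 / 4) / π)) = 1 / 4
    rw [mul_div_cancel₀ _ Real.pi_ne_zero]
    exact Real.sin_arcsin (by norm_num) (by norm_num)
  refine ⟨P.image Prod.snd ∪ {0, z0, -z0}, by simp, ?_, ?_⟩
  · intro y hy
    have h1 : sin (π * (y - z0)) * sin (π * (y + z0)) = 0 := by
      have h2 : sin (π * y) ^ 2 = 1 / 16 := by
        rw [← sq_abs, hy]; norm_num
      rw [mul_sub, mul_add, Real.sin_sub, Real.sin_add]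
      have h3 := Real.sin_sq_add_cos_sq (π * y)
      have h4 := Real.sin_sq_add_cos_sq (π * z0)
      rw [hz0] at h4 ⊢
      have h5 : cos (π * z0) ^ 2 = 15 / 16 := by linarith
      have h6 : cos (π * y) ^ 2 = 15 / 16 := by linarith
      calc (sin (π * y) * cos (π * z0) - cos (π * y) * (1 / 4)) *
          (sin (π * y) * cos (π * z0) + cos (π * y) * (1 / 4))
          = sin (π * y) ^ 2 * cos (π * z0) ^ 2 - cos (π * y) ^ 2 * (1 / 16) := by ring
        _ = 0 := by rw [h2, h5, h6]; norm_num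
    rcases mul_eq_zero.mp h1 with h | h
    · refine ⟨z0, by simp, ?_⟩
      unfold dd; rw [h, abs_zero]
    · refine ⟨-z0, by simp, ?_⟩
      unfold dd; rw [sub_neg_eq_add, h, abs_zero]
  · intro e he
    exact Finset.mem_union_left _ (Finset.mem_image_of_mem _ he)

lemma finite_words (k : ℕ) : {l : List (Fin 3 × Bool) | 4 ^ k ≤ l.length ∧
    l.length < 4 ^ (k + 1) ∧ Red (toW l) l.length}.Finite := by
  refine (List.finite_length_lt (Fin 3 × Bool) (4 ^ (k + 1))).subset ?_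
  intro l hl
  exact hl.2.1

lemma chain_of_step {s s' : Sys} {P : Finset (Fin 3 × ℝ)} {A : ℝ} (hst : Step P A s s') {w : Wd}
    {n : ℕ} {p : ℕ → ℝ} (hc : Chain s w n p) (hP : ∀ j < n, ((w j).1, ept w p j) ∈ P) :
    Chain s' w n p ∧ LD s' w p n = LD s w p n := by
  constructor
  · intro j hj
    rw [← hc j hj]
    exact (hst.prot _ (hP j hj)).1
  · unfold LD
    refine Finset.sum_congr rfl fun j hj => ?_
    rw [Finset.mem_range] at hj
    rw [(hst.prot _ (hP j hj)).2]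

lemma stage (k : ℕ) {δ : ℝ} (hδ : 0 < δ) (hδ1 : δ ≤ 1 / 4) {c : ℝ} {s : Sys} (h : Hyp c s)
    (hc : 6 * δ / 2 ^ k ≤ c) {P : Finset (Fin 3 × ℝ)} (hhalf : ((0 : Fin 3), (1 / 2 : ℝ)) ∈ P)
    {O : Set ℝ} (hO : IsOpen O) (hOne : O.Nonempty) :
    ∃ (s' : Sys) (P' : Finset (Fin 3 × ℝ)), P ⊆ P' ∧ Step P (6 * δ / 2 ^ k) s s' ∧
      (∀ l : List (Fin 3 × Bool), 4 ^ k ≤ l.length → l.length < 4 ^ (k + 1) →
        Red (toW l) l.length → ∃ p : ℕ → ℝ, Chain s' (toW l) l.length p ∧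
          (∀ j < l.length, ((toW l j).1, ept (toW l) p j) ∈ P') ∧
          δ ≤ |LD s' (toW l) p l.length|) ∧
      ∃ x ∈ O, ((1 : Fin 3), x) ∈ P' ∧ dd x (s' 1 x) ≠ 0 := by
  classical
  set A : ℝ := δ / 2 ^ k with hAdef
  have h2k : (0 : ℝ) < 2 ^ k := by positivity
  have h2k1 : (1 : ℝ) ≤ 2 ^ k := one_le_pow₀ (by norm_num)
  have hA0 : 0 < A := div_pos hδ h2k
  have hA4 : A ≤ 1 / 4 := (div_le_self hδ.le h2k1).trans hδ1
  have h6A : 6 * δ / 2 ^ k = 6 * A := by rw [hAdef]; ring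
  rw [h6A] at hc ⊢
  set T := (finite_words k).toFinset with hT
  have hTmem : ∀ l, l ∈ T ↔ 4 ^ k ≤ l.length ∧ l.length < 4 ^ (k + 1) ∧ Red (toW l) l.length := by
    intro l; rw [hT, Set.Finite.mem_toFinset]; rfl
  have hNN : (2 : ℕ) ^ k * 2 ^ k = 4 ^ k := by
    rw [← mul_pow]; norm_num
  -- base points
  have hbase : ∀ l : List (Fin 3 × Bool), ∃ (b : ℕ) (O : Set ℝ), l ∈ T → b ≤ l.length ∧
      IsOpen O ∧ O.Nonempty ∧ ∀ (s : Sys), Adm s → RunH s →
      ∀ p : ℕ → ℝ, Chain s (toW l) l.length p → p b ∈ O →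
      ∃ J : Finset ℕ, 2 ^ k ≤ J.card ∧ ∀ j ∈ J, j < l.length ∧ Good (toW l) p j := by
    intro l
    by_cases hl : l ∈ T
    · rw [hTmem] at hl
      obtain ⟨b, hb, O, h1, h2, h3⟩ := exists_base (toW l) (N := 2 ^ k) hl.2.2 (hNN ▸ hl.1)
      exact ⟨b, O, fun _ => ⟨hb, h1, h2, h3⟩⟩
    · exact ⟨0, ∅, fun h => absurd h hl⟩
  choose b Ob hbO using hbase
  obtain ⟨F, hF0, hFb, hFP⟩ := exists_F P
  obtain ⟨s1, p, hst1, hp1, hp2⟩ := phase_one T toW List.length b Ob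
    (fun l hl => ((hTmem l).mp hl).2.2) (fun l hl => (hbO l hl).1) (fun l hl => (hbO l hl).2.1)
    (fun l hl => (hbO l hl).2.2.1) hF0 hFb hFP h.adm h.contr (ε := A / 2) (by linarith)
  have hH1 : Hyp (c - A / 2) s1 := h.step hst1 hhalf
  have hrun1 : RunH s1 := hH1.runH (by linarith)
  have hJex : ∀ l, ∃ J : Finset ℕ, l ∈ T → 2 ^ k ≤ J.card ∧
      ∀ j ∈ J, j < l.length ∧ Good (toW l) (p l) j := by
    intro l
    by_cases hl : l ∈ T
    · obtain ⟨J, h1, h2⟩ := (hbO l hl).2.2.2 s1 hst1.adm hrun1 (p l) (hp1 l hl).1 (hp1 l hl).2.1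
      exact ⟨J, fun _ => ⟨h1, h2⟩⟩
    · exact ⟨∅, fun h => absurd h hl⟩
  choose J hJ using hJex
  obtain ⟨s2, hst2, hp3⟩ := phase_two T toW List.length (fun l hl => ((hTmem l).mp hl).2.2)
    (fun l hl => lt_of_lt_of_le (by positivity) ((hTmem l).mp hl).1) hF0 hFb hFP hst1.adm
    (fun i x => by have := hH1.ub i x; linarith) p
    (fun l hl => ⟨(hp1 l hl).1, (hp1 l hl).2.2.1, (hp1 l hl).2.2.2⟩) hp2 hδ hA4 hA0.le J
    (by
      intro l hl
      obtain ⟨h1, h2⟩ := hJ l hl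
      have h3 : 0 < (J l).card := lt_of_lt_of_le (by positivity) h1
      refine ⟨Finset.card_pos.mp h3, ?_, h2⟩
      rw [hAdef]
      have h4 : ((2 : ℝ) ^ k) ≤ (J l).card := by exact_mod_cast h1
      gcongr) (ε := A / 2) (by linarith)
  let E : Finset (Fin 3 × ℝ) := T.biUnion fun l =>
      (Finset.range l.length).image fun j => ((toW l j).1, ept (toW l) (p l) j)
  have hE : ∀ l ∈ T, ∀ j < l.length, ((toW l j).1, ept (toW l) (p l) j) ∈ E := by
    intro l hl j hj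
    exact Finset.mem_biUnion.mpr ⟨l, hl, Finset.mem_image.mpr
      ⟨j, Finset.mem_range.mpr hj, rfl⟩⟩
  obtain ⟨F2, hF20, hF2b, hF2P⟩ := exists_F (P ∪ E)
  have hctr2 : Contr s2 := hst2.contr hH1.contr
  obtain ⟨s3, x, hst3, hxO, _, hd3⟩ := generic (fun _ => ((1 : Fin 3), true)) 1
    (fun t ht => absurd ht (by omega)) 0 (by omega) hO hOne hF20 hF2b hF2P hst2.adm hctr2 1
    le_rfl (ε := A / 2) (by linarith)
  have hexp : exp A - 1 ≤ 2 * A := by
    have := Real.abs_exp_sub_one_le (x := A) (by rw [abs_of_pos hA0]; linarith)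
    rw [abs_of_pos hA0] at this
    exact (le_abs_self _).trans this
  refine ⟨s3, (P ∪ E) ∪ {((1 : Fin 3), x)}, ?_, ?_, ?_, ?_⟩
  · exact Finset.subset_union_left.trans Finset.subset_union_left
  · have h1 := (hst1.trans hst2).trans (hst3.mono (P' := P) Finset.subset_union_left le_rfl)
    refine h1.mono (Finset.Subset.refl _) ?_
    linarith
  · intro l h1 h2 h3
    have hl : l ∈ T := (hTmem l).mpr ⟨h1, h2, h3⟩
    obtain ⟨hc3, hd⟩ := hp3 l hl
    obtain ⟨h4, h5⟩ := chain_of_step hst3 hc3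
      (fun j hj => Finset.mem_union_right _ (hE l hl j hj))
    refine ⟨p l, h4, ?_, ?_⟩
    · intro j hj
      exact Finset.mem_union_left _ (Finset.mem_union_right _ (hE l hl j hj))
    · rw [h5]; exact hd
  · refine ⟨x, hxO, by simp, ?_⟩
    exact hd3 0 1 (by omega) le_rfl

end Pool.Agent.Y329.DL
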